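import Pool.Agent.helper72.SqH

/-!
The asymptotics of the number of primitive points in the two cones, and the k-th length.
-/

set_option autoImplicit false

namespace Pool.Agent.helper72.Sq

open Real Filter Topology Finset

open ArithmeticFunction (moebius)

/-- the triple of the second cone, of the pair `(B, A⁻¹)`. -/
def Tw (P : Tri) : Tri := (P.2.1, P.1, P.1 * P.2.1 - P.2.2)

lemma Adm.Tw {P : Tri} (h : Adm P) : Adm (Tw P) := by
  refine ⟨h.y2, h.x2, ?_⟩
  have hk := h.kpos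
  have : kap (Sq.Tw P) = kap P := by simp only [kap, Sq.Tw]; ring
  rw [this]; exact hk

lemma Lam_pos : ∀ (P : Tri) (p q : ℕ), 1 ≤ p → Adm P → 0 < Lam P p q := by
  apply farey_ind
  · intro P p hp h
    rw [Lam_zero]
    have := len_pos h.x2
    have hp0 : (0 : ℝ) < p := by exact_mod_cast hp
    positivity
  · intro P p q hp hq ih h
    rw [Lam_L _ _ _ hp]; exact ih h.L
  · intro P p q hp ih h
    rw [Lam_R _ _ _ hp]; exact ih h.R

lemma min_length {P : Tri} (h : Adm P) (hfin : (HS P 1).Finite) :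
    ∃ c0 : ℝ, 0 < c0 ∧ ∀ p q, 1 ≤ p → c0 ≤ Lam P p q := by
  rcases (HS P 1).eq_empty_or_nonempty with he | hne
  · refine ⟨1, one_pos, fun p q hp => ?_⟩
    by_contra hcon
    push Not at hcon
    have : (p, q) ∈ HS P 1 := ⟨hp, hcon.le⟩
    rw [he] at this
    exact this
  · obtain ⟨a, ha, hmin⟩ := Set.exists_min_image (HS P 1) (fun pq => Lam P pq.1 pq.2) hfin hne
    refine ⟨min (Lam P a.1 a.2) 1, lt_min (Lam_pos P _ _ ha.1 h) one_pos, fun p q hp => ?_⟩
    by_cases hpq : Lam P p q ≤ 1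
    · exact (min_le_left _ _).trans (hmin (p, q) ⟨hp, hpq⟩)
    · push Not at hpq
      exact (min_le_right _ _).trans hpq.le

lemma H_zero {P : Tri} {c0 : ℝ} (hc0 : ∀ p q, 1 ≤ p → c0 ≤ Lam P p q) {R : ℝ} (hR : R < c0) :
    H P R = 0 := by
  have : HS P R = ∅ := by
    ext ⟨p, q⟩
    simp only [HS, Set.mem_ofPred_eq, Set.mem_empty_iff_false, iff_false, not_and, not_le]
    intro hp
    exact hR.trans_le (hc0 p q hp)
  unfold H
  rw [this]; simp

lemma H_mono {P : Tri} (hfin : ∀ R, (HS P R).Finite) {R R' : ℝ} (h : R ≤ R') : H P R ≤ H P R' := by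
  have hs : HS P R ⊆ HS P R' := fun pq hpq => ⟨hpq.1, hpq.2.trans h⟩
  unfold H
  exact_mod_cast Set.ncard_le_ncard hs (hfin R')

lemma gcd_le {P : Tri} {c0 : ℝ} (h0 : 0 < c0) (hc0 : ∀ p q, 1 ≤ p → c0 ≤ Lam P p q) {R : ℝ} {D : ℕ}
    (hD : R / c0 ≤ D) : ∀ pq ∈ HS P R, Nat.gcd pq.1 pq.2 ≤ D := by
  rintro ⟨p, q⟩ ⟨hp, hL⟩
  simp only at hp hL ⊢
  have hg0 : 0 < Nat.gcd p q := Nat.gcd_pos_of_pos_left q hp
  obtain ⟨a, ha⟩ := Nat.gcd_dvd_left p q
  obtain ⟨b, hb⟩ := Nat.gcd_dvd_right p q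
  set d := Nat.gcd p q with hd
  have ha1 : 1 ≤ a := by
    rcases Nat.eq_zero_or_pos a with h0 | h0
    · subst h0; omega
    · exact h0
  have h1 : Lam P p q = d * Lam P a b := by
    rw [ha, hb, Lam_smul d hg0 P a b ha1]
  rw [h1] at hL
  have h2 := hc0 a b ha1
  have hd0 : (0 : ℝ) < d := by exact_mod_cast hg0
  have h3 : (d : ℝ) * c0 ≤ R := (mul_le_mul_of_nonneg_left h2 hd0.le).trans hL
  have h4 : (d : ℝ) ≤ R / c0 := by rw [le_div_iff₀ h0]; exact h3
  exact_mod_cast h4.trans hD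

lemma Gr.lower {P : Tri} (h : Gr P) : ∃ c1 C : ℝ, 0 < c1 ∧ 0 ≤ C ∧ ∀ R, 1 ≤ R →
    c1 * R ^ 2 - C * R ≤ H P R := by
  set l1 := len P.1 with hl1
  set l2 := len P.2.1 with hl2
  have h1 : 0 < l1 := len_pos h.x2
  have h2 : 0 < l2 := len_pos h.y2
  refine ⟨1 / (2 * l1 * l2), 1 / (2 * l2) + l2 / l1 + 1 + 1 / l2 + 1, by positivity, by positivity, ?_⟩
  intro R hR
  have hlin := lin_main l1 l2 R h1 h2 (by linarith)
  have hsub : ((LinSet l1 l2 R).ncard : ℝ) ≤ H P R := by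
    unfold H
    exact_mod_cast Set.ncard_le_ncard (LinSet_subset_HS h R) (HS_finite h R)
  have hsum : |∑ q ∈ range (⌊R / l2⌋₊ + 1), (Int.fract (R / l1 - q * (l2 / l1)) - 1 / 2)| ≤ R / l2 + 1 := by
    refine (Finset.abs_sum_le_sum_abs _ _).trans ?_
    have : ∀ q ∈ range (⌊R / l2⌋₊ + 1), |Int.fract (R / l1 - q * (l2 / l1)) - 1 / 2| ≤ 1 := by
      intro q _
      have f0 := Int.fract_nonneg (R / l1 - q * (l2 / l1))
      have f1 := Int.fract_lt_one (R / l1 - q * (l2 / l1))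
      rw [abs_le]; constructor <;> linarith
    refine (Finset.sum_le_sum this).trans ?_
    simp only [sum_const, card_range, nsmul_eq_mul, mul_one]
    push_cast
    have := Nat.floor_le (a := R / l2) (by positivity)
    linarith
  have h3 := (abs_le.1 hlin).1
  have e1 : 1 / (2 * l1 * l2) * R ^ 2 = R ^ 2 / (2 * l1 * l2) := by ring
  have e2 : 0 ≤ R / (2 * l1) := by positivity
  have e3 : R / (2 * l2) = 1 / (2 * l2) * R := by ring
  have e4 : R / l2 = 1 / l2 * R := by ring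
  have e5 : l2 / l1 + 1 ≤ (l2 / l1 + 1) * R := le_mul_of_one_le_right (by positivity) hR
  rw [e1]
  nlinarith

lemma T_asymp {P : Tri} (hP : Adm P) (hG1 : Good P) (hG2 : Good (Tw P)) :
    ∃ a K c0 : ℝ, 0 < a ∧ 0 ≤ K ∧ 0 < c0 ∧
      (∀ p q, 1 ≤ p → c0 ≤ Lam P p q) ∧ (∀ p q, 1 ≤ p → c0 ≤ Lam (Tw P) p q) ∧
      ∀ R, 0 < R → |(H P R + H (Tw P) R) - a * R ^ 2| ≤ K * R ^ (11 / 12 : ℝ) := by
  obtain ⟨a, K, hK, ha⟩ := hG1.est
  obtain ⟨b, K', hK', hb⟩ := hG2.est
  obtain ⟨c1, hc1, hm1⟩ := min_length hP (hG1.fin 1)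
  obtain ⟨c2, hc2, hm2⟩ := min_length hP.Tw (hG2.fin 1)
  have hT : ∀ R, 1 ≤ R → |(H P R + H (Tw P) R) - (a + b) * R ^ 2| ≤ (K + K') * R ^ (11 / 12 : ℝ) := by
    intro R hR
    have e : (H P R + H (Tw P) R) - (a + b) * R ^ 2 =
      (Ht P R - a * R ^ 2) + (Ht (Tw P) R - b * R ^ 2) := by
      unfold Ht Tw; ring
    rw [e]
    refine (abs_add_le _ _).trans ((add_le_add (ha R hR) (hb R hR)).trans (le_of_eq ?_))
    ring
  -- positivity
  have hpos : 0 < a + b := by
    have hlow : ∃ d1 C : ℝ, 0 < d1 ∧ 0 ≤ C ∧ ∀ R, 1 ≤ R → d1 * R ^ 2 - C * R ≤ H P R + H (Tw P) R := by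
      have hx := hP.x2
      have hy := hP.y2
      rcases le_or_gt (P.1 * P.2.1) (2 * P.2.2) with hz | hz
      · obtain ⟨d1, C, hd1, hC, h⟩ := Gr.lower ⟨hP.x2, hP.y2, hP.kpos, hz⟩
        refine ⟨d1, C, hd1, hC, fun R hR => (h R hR).trans ?_⟩
        have : 0 ≤ H (Tw P) R := Nat.cast_nonneg _
        linarith
      · obtain ⟨d1, C, hd1, hC, h⟩ := Gr.lower (P := Tw P) ⟨hP.Tw.x2, hP.Tw.y2, hP.Tw.kpos, by
          simp only [Tw]; nlinarith⟩
        refine ⟨d1, C, hd1, hC, fun R hR => (h R hR).trans ?_⟩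
        have : 0 ≤ H P R := Nat.cast_nonneg _
        linarith
    obtain ⟨d1, C, hd1, hC, h⟩ := hlow
    by_contra hcon
    push Not at hcon
    set R := (C + K + K' + 1) / d1 + 1 with hR
    have hR1 : 1 ≤ R := by
      rw [hR]
      have : 0 ≤ (C + K + K' + 1) / d1 := by positivity
      linarith
    have h1 := h R hR1
    have h2 := (abs_le.1 (hT R hR1)).2
    have h3 : R ^ (11 / 12 : ℝ) ≤ R := by
      calc R ^ (11 / 12 : ℝ) ≤ R ^ (1 : ℝ) := Real.rpow_le_rpow_of_exponent_le hR1 (by norm_num)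
        _ = R := Real.rpow_one R
    have h4 : (a + b) * R ^ 2 ≤ 0 := mul_nonpos_of_nonpos_of_nonneg hcon (by positivity)
    have h5 : (K + K') * R ^ (11 / 12 : ℝ) ≤ (K + K') * R := by gcongr
    have h6 : d1 * R ^ 2 ≤ (C + K + K') * R := by nlinarith
    have h7 : d1 * R ≤ C + K + K' := by
      have : d1 * R * R ≤ (C + K + K') * R := by nlinarith
      exact le_of_mul_le_mul_right this (by linarith)
    have h8 : d1 * R = C + K + K' + 1 + d1 := by rw [hR]; field_simp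
    linarith
  set c0 := min (min c1 c2) 1 with hc0
  have hc00 : 0 < c0 := lt_min (lt_min hc1 hc2) one_pos
  have hc01 : c0 ≤ 1 := min_le_right _ _
  have hc0a : ∀ p q, 1 ≤ p → c0 ≤ Lam P p q := fun p q hp =>
    ((min_le_left _ _).trans (min_le_left _ _)).trans (hm1 p q hp)
  have hc0b : ∀ p q, 1 ≤ p → c0 ≤ Lam (Tw P) p q := fun p q hp =>
    ((min_le_left _ _).trans (min_le_right _ _)).trans (hm2 p q hp)
  have hT1 : 0 ≤ H P 1 + H (Tw P) 1 := add_nonneg (Nat.cast_nonneg _) (Nat.cast_nonneg _)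
  refine ⟨a + b, (K + K') + (a + b) + (H P 1 + H (Tw P) 1 + (a + b)) / c0 ^ (11 / 12 : ℝ), c0, hpos,
    by positivity, hc00, hc0a, hc0b, ?_⟩
  intro R hR
  have hRp : 0 < R ^ (11 / 12 : ℝ) := Real.rpow_pos_of_pos hR _
  have hcp : 0 < c0 ^ (11 / 12 : ℝ) := Real.rpow_pos_of_pos hc00 _
  have q1 : 0 ≤ (H P 1 + H (Tw P) 1 + (a + b)) / c0 ^ (11 / 12 : ℝ) := by positivity
  have q2 : 0 ≤ (K + K') * R ^ (11 / 12 : ℝ) := by positivity
  have q3 : 0 ≤ (a + b) * R ^ (11 / 12 : ℝ) := by positivity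
  have q4 : 0 ≤ (H P 1 + H (Tw P) 1 + (a + b)) / c0 ^ (11 / 12 : ℝ) * R ^ (11 / 12 : ℝ) := by positivity
  rcases le_or_gt 1 R with h1 | h1
  · have := hT R h1
    nlinarith
  · have hR2 : R ^ 2 ≤ 1 := by nlinarith
    rcases lt_or_ge R c0 with h2 | h2
    · rw [H_zero hc0a h2, H_zero hc0b h2]
      have h3 : R ^ 2 ≤ R ^ (11 / 12 : ℝ) := by
        calc R ^ 2 = R ^ (2 : ℝ) := by norm_cast
          _ ≤ R ^ (11 / 12 : ℝ) := Real.rpow_le_rpow_of_exponent_ge hR h1.le (by norm_num)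
      have h4 : (a + b) * R ^ 2 ≤ (a + b) * R ^ (11 / 12 : ℝ) := by gcongr
      rw [abs_sub_comm, add_zero, sub_zero, abs_of_nonneg (by positivity)]
      nlinarith
    · have h3 : H P R + H (Tw P) R ≤ H P 1 + H (Tw P) 1 :=
        add_le_add (H_mono hG1.fin h1.le) (H_mono hG2.fin h1.le)
      have h0 : 0 ≤ H P R + H (Tw P) R := add_nonneg (Nat.cast_nonneg _) (Nat.cast_nonneg _)
      have h4 : |(H P R + H (Tw P) R) - (a + b) * R ^ 2| ≤ H P 1 + H (Tw P) 1 + (a + b) := by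
        have : (a + b) * R ^ 2 ≤ (a + b) * 1 := by gcongr
        have : 0 ≤ (a + b) * R ^ 2 := by positivity
        rw [abs_le]; constructor <;> linarith
      have h5 : H P 1 + H (Tw P) 1 + (a + b) ≤
          (H P 1 + H (Tw P) 1 + (a + b)) / c0 ^ (11 / 12 : ℝ) * R ^ (11 / 12 : ℝ) := by
        have h6 : c0 ^ (11 / 12 : ℝ) ≤ R ^ (11 / 12 : ℝ) := Real.rpow_le_rpow hc00.le h2 (by norm_num)
        rw [div_mul_eq_mul_div, le_div_iff₀ hcp]
        have : 0 ≤ H P 1 + H (Tw P) 1 + (a + b) := by linarith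
        nlinarith
      nlinarith

/-- the number of primitive points. -/
theorem total_asymp {P : Tri} (hP : Adm P) (h1 : AllDio P) (h2 : AllDio (Tw P)) :
    (∀ R, (CS P R).Finite) ∧ (∀ R, (CS (Tw P) R).Finite) ∧
    ∃ b K : ℝ, 0 < b ∧ 0 ≤ K ∧ ∀ R, 1 ≤ R →
      |(((CS P R).ncard : ℝ) + ((CS (Tw P) R).ncard : ℝ)) - b * R ^ 2| ≤ K * R := by
  have hG1 := Good_of_AllDio hP h1
  have hG2 := Good_of_AllDio hP.Tw h2
  refine ⟨fun R => (hG1.fin R).subset (CS_subset _ _), fun R => (hG2.fin R).subset (CS_subset _ _), ?_⟩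
  obtain ⟨a, K, c0, ha, hK, hc0, hca, hcb, hT⟩ := T_asymp hP hG1 hG2
  refine prim_asymp (fun R => H P R + H (Tw P) R) _ a K c0 ha hK hc0 hT ?_
  intro R hR D hD
  rw [CS_ncard P R (hG1.fin R) D (gcd_le hc0 hca hD),
    CS_ncard (Tw P) R (hG2.fin R) D (gcd_le hc0 hcb hD), ← Finset.sum_add_distrib]
  apply Finset.sum_congr rfl
  intro d _
  ring

/-- a monotone enumeration exists. -/
lemma exists_enum {O : Type*} (l : O → ℝ) (hfin : ∀ R, {x | l x ≤ R}.Finite) [Infinite O] :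
    ∃ e : ℕ ≃ O, Monotone (fun k => l (e k)) := by
  classical
  have hcount : Countable O := by
    have : (Set.univ : Set O) = ⋃ n : ℕ, {x | l x ≤ n} := by
      ext x
      simp only [Set.mem_univ, Set.mem_iUnion, Set.mem_ofPred_eq, true_iff]
      exact exists_nat_ge (l x)
    have h2 : (Set.univ : Set O).Countable := by
      rw [this]
      exact Set.countable_iUnion (fun n => (hfin n).countable)
    exact Set.countable_univ_iff.1 h2
  obtain ⟨i, hi⟩ := hcount.exists_injective_nat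
  let B : O → Set O := fun x => {y | l y < l x ∨ (l y = l x ∧ i y < i x)}
  have hB : ∀ x, (B x).Finite := fun x => (hfin (l x)).subset (by
    rintro y (h | ⟨h, _⟩)
    · exact h.le
    · exact h.le)
  have hmono : ∀ x y, y ∈ B x → (B y).ncard < (B x).ncard := by
    intro x y hy
    apply Set.ncard_lt_ncard _ (hB x)
    refine ⟨?_, ?_⟩
    · intro w hw
      rcases hy with hy | ⟨hy, hy'⟩ <;> rcases hw with hw | ⟨hw, hw'⟩
      · left; exact hw.trans hy
      · left; rw [hw]; exact hy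
      · left; rw [← hy]; exact hw
      · right; exact ⟨hw.trans hy, hw'.trans hy'⟩
    · intro hsub
      have := hsub hy
      rcases this with h | ⟨_, h⟩ <;> exact lt_irrefl _ h
  have hinj : Function.Injective (fun x => (B x).ncard) := by
    intro x y hxy
    by_contra hne
    have hii : i x ≠ i y := fun h => hne (hi h)
    have : x ∈ B y ∨ y ∈ B x := by
      rcases lt_trichotomy (l x) (l y) with h | h | h
      · left; left; exact h
      · rcases lt_or_gt_of_ne hii with h' | h'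
        · left; right; exact ⟨h, h'⟩
        · right; right; exact ⟨h.symm, h'⟩
      · right; left; exact h
    simp only at hxy
    rcases this with h | h
    · have := hmono _ _ h; omega
    · have := hmono _ _ h; omega
  let r : O → ℕ := fun x => (B x).ncard
  let E1 : O ≃ Set.range r := Equiv.ofInjective r hinj
  have hinf : Infinite (Set.range r) := Infinite.of_injective E1 E1.injective
  let E2 : ℕ ≃o Set.range r := Nat.Subtype.orderIsoOfNat (Set.range r)
  refine ⟨E2.toEquiv.trans E1.symm, ?_⟩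
  intro k k' hkk
  simp only [Equiv.trans_apply]
  set x := E1.symm (E2.toEquiv k) with hx
  set y := E1.symm (E2.toEquiv k') with hy
  by_contra hcon
  push Not at hcon
  have h1 : r y < r x := hmono x y (Or.inl hcon)
  have h2 : r x ≤ r y := by
    have e1 : (E1 x : ℕ) = r x := rfl
    have e2 : (E1 y : ℕ) = r y := rfl
    rw [← e1, ← e2, hx, hy, Equiv.apply_symm_apply, Equiv.apply_symm_apply]
    exact E2.monotone hkk
  omega

/-- the `k`-th length. -/
theorem kth_law {O : Type*} (l : O → ℝ) (hfin : ∀ R, {x | l x ≤ R}.Finite) (hpos : ∀ x, 0 ≤ l x)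
    (b K : ℝ) (hb : 0 < b) (hK : 0 ≤ K)
    (h : ∀ R, 1 ≤ R → |({x | l x ≤ R}.ncard : ℝ) - b * R ^ 2| ≤ K * R) :
    (∃ e : ℕ ≃ O, Monotone (fun k => l (e k))) ∧
    ∃ u C : ℝ, 0 < u ∧ ∀ e : ℕ ≃ O, Monotone (fun k => l (e k)) →
      ∀ k : ℕ, |u * √((k : ℝ) + 1) - l (e k)| ≤ C := by
  have hinf : Infinite O := by
    by_contra hcon
    rw [not_infinite_iff_finite] at hcon
    set n : ℝ := ((Set.univ : Set O).ncard : ℝ) with hn
    have hn0 : 0 ≤ n := Nat.cast_nonneg _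
    have hb2 : ∀ R, ({x | l x ≤ R}.ncard : ℝ) ≤ n := by
      intro R
      rw [hn]
      exact_mod_cast Set.ncard_le_ncard (Set.subset_univ _) Set.finite_univ
    set R := (K + n + 1) / b + 1 with hR
    have hR1 : 1 ≤ R := by
      rw [hR]; have : 0 ≤ (K + n + 1) / b := by positivity
      linarith
    have h1 := (abs_le.1 (h R hR1)).1
    have h2 := hb2 R
    have h8 : b * R = K + n + 1 + b := by rw [hR]; field_simp
    nlinarith
  refine ⟨exists_enum l hfin, ?_⟩
  set s := √b with hs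
  have hs0 : 0 < s := Real.sqrt_pos.2 hb
  have hss : s ^ 2 = b := Real.sq_sqrt hb.le
  set κ := K / (2 * s) with hκ
  have hκ0 : 0 ≤ κ := by rw [hκ]; positivity
  have hκs : 2 * s * κ = K := by rw [hκ]; field_simp
  refine ⟨1 / s, (2 * s + 2 * κ) / s, by positivity, ?_⟩
  intro e he k
  set L := l (e k) with hL
  have hL0 : 0 ≤ L := hpos _
  have hk1 : ∀ R, L ≤ R → (k : ℝ) + 1 ≤ ({x | l x ≤ R}.ncard : ℝ) := by
    intro R hR
    have hsub : (fun j => e j) '' (Set.Iic k) ⊆ {x | l x ≤ R} := by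
      rintro x ⟨j, hj, rfl⟩
      exact (he hj).trans hR
    have h1 := Set.ncard_le_ncard hsub (hfin R)
    rw [Set.ncard_image_of_injective _ e.injective] at h1
    have h2 : (Set.Iic k).ncard = k + 1 := by
      rw [← Finset.coe_Iic, Set.ncard_coe_finset, Nat.card_Iic]
    rw [h2] at h1
    exact_mod_cast h1
  have hk2 : ∀ R, R < L → ({x | l x ≤ R}.ncard : ℝ) ≤ (k : ℝ) := by
    intro R hR
    have hsub : {x | l x ≤ R} ⊆ (fun j => e j) '' (Set.Iio k) := by
      intro x hx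
      refine ⟨e.symm x, ?_, by simp⟩
      by_contra hcon
      simp only [Set.mem_Iio, not_lt] at hcon
      have := he hcon
      simp only [Equiv.apply_symm_apply] at this
      have hx' : l x ≤ R := hx
      linarith
    have h1 := Set.ncard_le_ncard hsub ((Set.finite_Iio k).image _)
    rw [Set.ncard_image_of_injective _ e.injective] at h1
    have h2 : (Set.Iio k).ncard = k := by
      rw [← Finset.coe_Iio, Set.ncard_coe_finset, Nat.card_Iio]
    rw [h2] at h1
    exact_mod_cast h1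
  set X := √((k : ℝ) + 1) with hX
  have hX0 : 0 ≤ X := Real.sqrt_nonneg _
  have hXX : X ^ 2 = (k : ℝ) + 1 := Real.sq_sqrt (by positivity)
  -- upper bound for X
  have hup : X ≤ s * (L + 1) + κ := by
    have h1 := hk1 (L + 1) (by linarith)
    have h2 := (abs_le.1 (h (L + 1) (by linarith))).2
    have h3 : X ^ 2 ≤ (s * (L + 1) + κ) ^ 2 := by
      rw [hXX]
      have : (s * (L + 1) + κ) ^ 2 = s ^ 2 * (L + 1) ^ 2 + (2 * s * κ) * (L + 1) + κ ^ 2 := by ring
      rw [this, hss, hκs]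
      nlinarith [sq_nonneg κ]
    exact (pow_le_pow_iff_left₀ hX0 (by positivity) (by norm_num)).1 h3
  have hlo : s * L ≤ X + (2 * s + 2 * κ) := by
    rcases le_or_gt 2 L with h2L | h2L
    · have h1 := hk2 (L - 1) (by linarith)
      have h2 := (abs_le.1 (h (L - 1) (by linarith))).1
      have h3 : (s * (L - 1) - κ) ^ 2 ≤ (X + κ) ^ 2 := by
        have e1 : (s * (L - 1) - κ) ^ 2 = s ^ 2 * (L - 1) ^ 2 - (2 * s * κ) * (L - 1) + κ ^ 2 := by ring
        have e2 : (X + κ) ^ 2 = X ^ 2 + 2 * X * κ + κ ^ 2 := by ring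
        rw [e1, e2, hss, hκs, hXX]
        nlinarith [mul_nonneg hX0 hκ0]
      have h4 : s * (L - 1) - κ ≤ X + κ := by
        by_contra hcon
        push Not at hcon
        have : (X + κ) ^ 2 < (s * (L - 1) - κ) ^ 2 := pow_lt_pow_left₀ hcon (by positivity) (by norm_num)
        linarith
      nlinarith
    · nlinarith
  have e1 : 1 / s * X - L = (X - s * L) / s := by field_simp
  rw [e1, abs_div, abs_of_pos hs0]
  apply div_le_div_of_nonneg_right _ hs0.le
  rw [abs_le]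
  constructor <;> nlinarith

end Pool.Agent.helper72.Sq
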