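import Pool.Agent.helper72.SqS

/-!
The orbit of a curve disjoint from a simple curve.
-/

set_option autoImplicit false

namespace Pool.Agent.helper72.Sq

open Matrix Filter Topology

lemma exists_i0 : ∃ i0 : MulAut F2, i0 ∈ MCG ∧ ∀ x, IsConj (iot x) (i0 x) := by
  have hA : twA ∈ MCG := Subgroup.subset_closure (by simp)
  have hB : twB ∈ MCG := Subgroup.subset_closure (by simp)
  have h0 : (twB * twA⁻¹ * twB : MulAut F2) ∈ MCG := MCG.mul_mem (MCG.mul_mem hB (MCG.inv_mem hA)) hB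
  set φ0 : MulAut F2 := twB * twA⁻¹ * twB with hφ0
  have e1 : φ0 ga = gb := by
    rw [hφ0]
    simp only [MulAut.mul_apply, twB_a]
    rw [map_mul]
    change twB (twA.symm ga * twA.symm gb) = gb
    simp
  have e2 : φ0 gb = gb⁻¹ * ga⁻¹ * gb := by
    rw [hφ0]
    simp only [MulAut.mul_apply, twB_b]
    change twB (twA.symm gb) = _
    simp
  refine ⟨φ0 * φ0, MCG.mul_mem h0 h0, ?_⟩
  intro x
  rw [isConj_iff]
  refine ⟨(ga⁻¹ * gb)⁻¹, ?_⟩
  have h : (MulAut.conj (ga⁻¹ * gb)⁻¹).toMonoidHom.comp iot = (φ0 * φ0).toMonoidHom := by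
    apply F2_hom_ext
    · simp only [MonoidHom.comp_apply, iot, mk2_a, MulEquiv.coe_toMonoidHom, MulAut.conj_apply,
        MulAut.mul_apply, e1, e2]
      group
    · change (ga⁻¹ * gb)⁻¹ * iot gb * ((ga⁻¹ * gb)⁻¹)⁻¹ = φ0 (φ0 gb)
      rw [e2, map_mul, map_mul, map_inv, map_inv, e1, e2]
      simp only [iot, mk2_b]
      group
  exact DFunLike.congr_fun h x

lemma cl_of_isConj {g h : F2} (hgh : IsConj g h) : cl g = cl h := by
  rw [cl_eq_iff]; exact Or.inl hgh

/-- a mapping class preserving a curve of the pair of pants preserves the simple curve -/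
lemma claimB (ρ : F2 →* SpecialLinearGroup (Fin 2) ℝ)
    (hfin : ∀ R, {x : orb ga | cLen ρ x ≤ R}.Finite) {w : F2} (hw : w ∈ pants)
    {n C : ℝ} (hn : 1 ≤ n)
    (hcmp : ∀ φ : MulAut F2, φ ∈ MCG → |gLen ρ (φ w) - n * cLen ρ (cl (φ ga))| ≤ C)
    {χ : MulAut F2} (hχ : χ ∈ MCG) (hcl : cl (χ w) = cl w ∨ cl (χ w) = cl (iot w)) :
    cl (χ ga) = cl ga := by
  have hA : twA ∈ MCG := Subgroup.subset_closure (by simp)
  have hk : ∀ k : ℕ, ((twA : MulAut F2) ^ k * χ) ∈ MCG := fun k =>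
    MCG.mul_mem (MCG.pow_mem hA k) hχ
  have hG : ∀ k : ℕ, gLen ρ (((twA : MulAut F2) ^ k * χ) w) = gLen ρ w := by
    intro k
    rw [MulAut.mul_apply]
    have h1 : cl (((twA : MulAut F2) ^ k) w) = cl w := twA_pow_pants hw k
    have h2 : gLen ρ (((twA : MulAut F2) ^ k) w) = gLen ρ w := by
      rw [← cLen_cl, ← cLen_cl, h1]
    rcases hcl with h | h
    · have h3 := cl_map ((twA : MulAut F2) ^ k).toMonoidHom h
      have h4 : gLen ρ (((twA : MulAut F2) ^ k) (χ w)) = gLen ρ (((twA : MulAut F2) ^ k) w) := by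
        rw [← cLen_cl, ← cLen_cl]; exact congrArg _ h3
      rw [h4, h2]
    · have h3 := cl_map ((twA : MulAut F2) ^ k).toMonoidHom h
      have h4 : gLen ρ (((twA : MulAut F2) ^ k) (χ w)) = gLen ρ (((twA : MulAut F2) ^ k) (iot w)) := by
        rw [← cLen_cl, ← cLen_cl]; exact congrArg _ h3
      rw [h4, gLen_iot, h2]
  set B := |gLen ρ w| + C with hB
  have hle : ∀ k : ℕ, cLen ρ (cl (((twA : MulAut F2) ^ k * χ) ga)) ≤ max B 0 := by
    intro k
    have h1 := hcmp _ (hk k)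
    rw [hG k] at h1
    have h2 := (abs_le.1 h1).1
    have h3 := le_abs_self (gLen ρ w)
    rcases le_or_gt (cLen ρ (cl (((twA : MulAut F2) ^ k * χ) ga))) 0 with h0 | h0
    · exact h0.trans (le_max_right _ _)
    · refine le_trans ?_ (le_max_left _ _)
      nlinarith
  have hS := hfin (max B 0)
  have : Finite {x : orb ga | cLen ρ x ≤ max B 0} := hS
  obtain ⟨k, k', hkk, heq⟩ := Finite.exists_ne_map_eq_of_infinite
    (fun k : ℕ => (⟨⟨cl (((twA : MulAut F2) ^ k * χ) ga), _, hk k, rfl⟩, hle k⟩ :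
      {x : orb ga | cLen ρ x ≤ max B 0}))
  have heq2 : cl (((twA : MulAut F2) ^ k * χ) ga) = cl (((twA : MulAut F2) ^ k' * χ) ga) := by
    have := congrArg (fun z => ((z : {x : orb ga | cLen ρ x ≤ max B 0}) : orb ga).1) heq
    exact this
  have hab := ab_cl heq2
  rw [MulAut.mul_apply, MulAut.mul_apply] at hab
  have t1 := ab_twA_pow (χ ga) k
  have t2 := ab_twA_pow (χ ga) k'
  have hab2 : (ab (((twA : MulAut F2) ^ k) (χ ga))).toAdd = (ab (((twA : MulAut F2) ^ k') (χ ga))).toAdd ∨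
      (ab (((twA : MulAut F2) ^ k) (χ ga))).toAdd = -(ab (((twA : MulAut F2) ^ k') (χ ga))).toAdd := by
    rcases hab with h | h
    · left; rw [h]
    · right; rw [h]; rfl
  rw [t1, t2] at hab2
  have hkk' : (k : ℤ) ≠ k' := by exact_mod_cast hkk
  have hzero : (ab (χ ga)).toAdd.2 = 0 := by
    rcases hab2 with h | h
    · have h3 := congrArg Prod.fst h
      simp only at h3
      have h4 : ((k : ℤ) - k') * (ab (χ ga)).toAdd.2 = 0 := by linarith
      rcases mul_eq_zero.1 h4 with h5 | h5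
      · omega
      · exact h5
    · have h3 := congrArg Prod.snd h
      simp only [Prod.neg_mk] at h3
      omega
  have hmem : cl (χ ga) ∈ WS := by rw [← orb_eq]; exact ⟨χ, hχ, rfl⟩
  obtain ⟨ε, p, q, hp, hc, h⟩ := hmem
  cases ε
  · exfalso
    simp only [Wc, Bool.false_eq_true, if_false] at h
    have h2 := ab_cl h
    rw [ab_W2 p q hp] at h2
    rcases h2 with h2 | h2
    · rw [h2] at hzero
      simp only [toAdd_ofAdd] at hzero
      omega
    · rw [h2, ← ofAdd_neg] at hzero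
      simp only [toAdd_ofAdd, Prod.neg_mk] at hzero
      omega
  · simp only [Wc, if_true] at h
    have h2 := ab_cl h
    rw [ab_W1 p q hp] at h2
    have hq : q = 0 := by
      rcases h2 with h2 | h2
      · rw [h2] at hzero
        simp only [toAdd_ofAdd] at hzero
        omega
      · rw [h2, ← ofAdd_neg] at hzero
        simp only [toAdd_ofAdd, Prod.neg_mk] at hzero
        omega
    subst hq
    have : p = 1 := by rwa [Nat.coprime_zero_right] at hc
    subst this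
    rw [h, W_zero, pow_one]

/-- perturbed counting -/
theorem perturb {O O' D : Type*} [Finite D] [Nonempty D] (E : O × D ≃ O') (l : O → ℝ) (l' : O' → ℝ)
    (n C : ℝ) (hn : 1 ≤ n) (hC : 0 ≤ C) (hcmp : ∀ x d, |l' (E (x, d)) - n * l x| ≤ C)
    (hfin : ∀ R, {x | l x ≤ R}.Finite) (hpos : ∀ x, 0 ≤ l x)
    (b K : ℝ) (hb : 0 < b) (hK : 0 ≤ K)
    (h : ∀ R, 1 ≤ R → |({x | l x ≤ R}.ncard : ℝ) - b * R ^ 2| ≤ K * R) :
    (∃ e : ℕ ≃ O', Monotone (fun k => l' (e k))) ∧
    ∃ u C1 : ℝ, 0 < u ∧ ∀ e : ℕ ≃ O', Monotone (fun k => l' (e k)) →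
      ∀ k : ℕ, |u * √((k : ℝ) + 1) - l' (e k)| ≤ C1 := by
  set l2 : O' → ℝ := fun y => l' y + C with hl2
  have hlow : ∀ x d, n * l x ≤ l2 (E (x, d)) := by
    intro x d
    have := (abs_le.1 (hcmp x d)).1
    simp only [hl2]; linarith
  have hup : ∀ x d, l2 (E (x, d)) ≤ n * l x + 2 * C := by
    intro x d
    have := (abs_le.1 (hcmp x d)).2
    simp only [hl2]; linarith
  have hpos2 : ∀ y, 0 ≤ l2 y := by
    intro y
    obtain ⟨⟨x, d⟩, rfl⟩ := E.surjective y
    have := hlow x d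
    have := hpos x
    nlinarith
  set m : ℝ := (Nat.card D : ℝ) with hm
  have hm1 : 1 ≤ m := by
    have : 0 < Nat.card D := Nat.card_pos
    rw [hm]; exact_mod_cast this
  have hn0 : 0 < n := by linarith
  have hprod : ∀ A : Set O, ((E '' (A ×ˢ (Set.univ : Set D))).ncard : ℝ) = A.ncard * m := by
    intro A
    rw [Set.ncard_image_of_injective _ E.injective, Set.ncard_prod, Set.ncard_univ, hm]
    push_cast; rfl
  have hsub1 : ∀ R, {y | l2 y ≤ R} ⊆ E '' ({x | l x ≤ R / n} ×ˢ (Set.univ : Set D)) := by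
    intro R y hy
    obtain ⟨⟨x, d⟩, rfl⟩ := E.surjective y
    refine ⟨(x, d), ⟨?_, trivial⟩, rfl⟩
    have h1 := hlow x d
    have h2 : l2 (E (x, d)) ≤ R := hy
    change l x ≤ R / n
    rw [le_div_iff₀ hn0]; linarith
  have hsub2 : ∀ R, E '' ({x | l x ≤ (R - 2 * C) / n} ×ˢ (Set.univ : Set D)) ⊆ {y | l2 y ≤ R} := by
    rintro R y ⟨⟨x, d⟩, ⟨hx, _⟩, rfl⟩
    have h1 := hup x d
    have h2 : l x ≤ (R - 2 * C) / n := hx
    rw [le_div_iff₀ hn0] at h2
    change l2 (E (x, d)) ≤ R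
    linarith
  have hfinI : ∀ R, (E '' ({x | l x ≤ R} ×ˢ (Set.univ : Set D))).Finite := fun R =>
    ((hfin R).prod Set.finite_univ).image _
  have hfin2 : ∀ R, {y | l2 y ≤ R}.Finite := fun R => (hfinI _).subset (hsub1 R)
  have hmono : ∀ R R', R ≤ R' → ({x | l x ≤ R}.ncard : ℝ) ≤ ({x | l x ≤ R'}.ncard : ℝ) := by
    intro R R' hRR
    have hs : {x | l x ≤ R} ⊆ {x | l x ≤ R'} := fun x (hx : l x ≤ R) => hx.trans hRR
    exact_mod_cast Set.ncard_le_ncard hs (hfin R')
  have hcount : ∀ R, 1 ≤ R → |({y | l2 y ≤ R}.ncard : ℝ) - (m * b / n ^ 2) * R ^ 2| ≤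
      (m * (4 * C * b + 2 * K + b * (2 + 2 * C))) * R := by
    intro R hR
    have hU : ({y | l2 y ≤ R}.ncard : ℝ) ≤ ({x | l x ≤ R / n}.ncard : ℝ) * m := by
      rw [← hprod]
      exact_mod_cast Set.ncard_le_ncard (hsub1 R) (hfinI _)
    have hL : ({x | l x ≤ (R - 2 * C) / n}.ncard : ℝ) * m ≤ ({y | l2 y ≤ R}.ncard : ℝ) := by
      rw [← hprod]
      exact_mod_cast Set.ncard_le_ncard (hsub2 R) (hfin2 R)
    have hn2 : 1 ≤ n ^ 2 := one_le_pow₀ hn
    have hU2 : ({x | l x ≤ R / n}.ncard : ℝ) ≤ b / n ^ 2 * R ^ 2 + (b + 2 * K) * R := by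
      rcases le_or_gt 1 (R / n) with h1 | h1
      · have h2 := (abs_le.1 (h (R / n) h1)).2
        have h3 : b * (R / n) ^ 2 = b / n ^ 2 * R ^ 2 := by rw [div_pow]; ring
        have h4 : K * (R / n) ≤ K * R := by
          apply mul_le_mul_of_nonneg_left _ hK
          exact div_le_self (by linarith) hn
        nlinarith
      · have h2 := hmono (R / n) 1 h1.le
        have h3 := (abs_le.1 (h 1 le_rfl)).2
        have h4 : 0 ≤ b / n ^ 2 * R ^ 2 := by positivity
        nlinarith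
    have hL2 : b / n ^ 2 * R ^ 2 - (4 * C * b + K + b * (1 + 2 * C)) * R ≤
        ({x | l x ≤ (R - 2 * C) / n}.ncard : ℝ) := by
      rcases le_or_gt 1 ((R - 2 * C) / n) with h1 | h1
      · have h2 := (abs_le.1 (h ((R - 2 * C) / n) h1)).1
        have h3 : b * ((R - 2 * C) / n) ^ 2 = b / n ^ 2 * R ^ 2 - b / n ^ 2 * (4 * C) * R +
          b / n ^ 2 * (4 * C ^ 2) := by rw [div_pow]; ring
        have h4 : K * ((R - 2 * C) / n) ≤ K * R := by
          apply mul_le_mul_of_nonneg_left _ hK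
          rw [div_le_iff₀ hn0]; nlinarith
        have h5 : b / n ^ 2 ≤ b := div_le_self hb.le hn2
        have h6 : b / n ^ 2 * (4 * C) * R ≤ b * (4 * C) * R := by gcongr
        have h7 : 0 ≤ b / n ^ 2 * (4 * C ^ 2) := by positivity
        have h8 : 0 ≤ b * (1 + 2 * C) * R := by positivity
        nlinarith
      · rw [div_lt_one hn0] at h1
        have h2 : (0 : ℝ) ≤ ({x | l x ≤ (R - 2 * C) / n}.ncard : ℝ) := Nat.cast_nonneg _
        have h3 : b / n ^ 2 * R ^ 2 ≤ b * (1 + 2 * C) * R := by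
          have h4 : R ≤ n ^ 2 * (1 + 2 * C) := by nlinarith
          have h5 : R ^ 2 ≤ n ^ 2 * ((1 + 2 * C) * R) := by nlinarith
          calc b / n ^ 2 * R ^ 2 ≤ b / n ^ 2 * (n ^ 2 * ((1 + 2 * C) * R)) := by gcongr
            _ = b * (1 + 2 * C) * R := by field_simp
        have h6 : 0 ≤ (4 * C * b + K) * R := by positivity
        nlinarith
    have e1 : (m * b / n ^ 2) * R ^ 2 = b / n ^ 2 * R ^ 2 * m := by ring
    rw [e1, abs_le]
    have a1 := mul_le_mul_of_nonneg_right hU2 (by linarith : (0 : ℝ) ≤ m)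
    have a2 := mul_le_mul_of_nonneg_right hL2 (by linarith : (0 : ℝ) ≤ m)
    have a3 : 0 ≤ m * K * R := by positivity
    have a4 : 0 ≤ m * b * R := by positivity
    have a5 : 0 ≤ m * b * C * R := by positivity
    constructor
    · nlinarith
    · nlinarith
  obtain ⟨⟨e0, he0⟩, u, C1, hu, hlaw⟩ := kth_law l2 hfin2 hpos2 (m * b / n ^ 2)
    (m * (4 * C * b + 2 * K + b * (2 + 2 * C))) (by positivity) (by positivity) hcount
  refine ⟨⟨e0, ?_⟩, u, C1 + C, hu, ?_⟩
  · intro k k' hkk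
    have := he0 hkk
    simp only [hl2] at this
    linarith
  · intro e he k
    have h1 := hlaw e (fun k k' hkk => by
      have := he hkk
      simp only [hl2]
      linarith) k
    simp only [hl2] at h1
    rw [abs_le] at h1 ⊢
    constructor <;> linarith [h1.1, h1.2]

/-- the count for the simple curve -/
lemma count_simple (ρ : F2 →* SpecialLinearGroup (Fin 2) ℝ) (hA : Adm (trTri ρ (ga, gb)))
    (h1 : AllDio (trTri ρ (ga, gb))) (h2 : AllDio (Tw (trTri ρ (ga, gb)))) :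
    (∀ R, {x : orb ga | cLen ρ x ≤ R}.Finite) ∧ (∀ x : orb ga, 0 ≤ cLen ρ x) ∧
    ∃ b K : ℝ, 0 < b ∧ 0 ≤ K ∧ ∀ R, 1 ≤ R →
      |({x : orb ga | cLen ρ x ≤ R}.ncard : ℝ) - b * R ^ 2| ≤ K * R := by
  obtain ⟨f1, f2, b, K, hb, hK, h⟩ := total_asymp hA h1 h2
  set P := trTri ρ (ga, gb) with hP
  have himg := sublevel_eq ρ hA
  have hfin : ∀ R, {x : orb ga | cLen ρ x ≤ R}.Finite := by
    intro R
    have : (Subtype.val '' {x : orb ga | cLen ρ x ≤ R} : Set Curve).Finite := by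
      rw [himg R]
      exact ((f1 R).image _).union ((f2 R).image _)
    exact this.of_finite_image Subtype.val_injective.injOn
  have hcard : ∀ R, ({x : orb ga | cLen ρ x ≤ R}.ncard : ℝ) =
      ((CS P R).ncard : ℝ) + ((CS (Tw P) R).ncard : ℝ) := by
    intro R
    rw [← Set.ncard_image_of_injective {x : orb ga | cLen ρ x ≤ R} Subtype.val_injective, himg R,
      Set.ncard_union_eq _ ((f1 R).image _) ((f2 R).image _), Set.InjOn.ncard_image,
      Set.InjOn.ncard_image]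
    · push_cast; rfl
    · rintro ⟨p, q⟩ h ⟨p', q'⟩ h' heq
      obtain ⟨_, e1, e2⟩ := Wc_inj h.1 h'.1 heq
      simp only at e1 e2
      rw [e1, e2]
    · rintro ⟨p, q⟩ h ⟨p', q'⟩ h' heq
      obtain ⟨_, e1, e2⟩ := Wc_inj h.1 h'.1 heq
      simp only at e1 e2
      rw [e1, e2]
    · rw [Set.disjoint_left]
      rintro c ⟨⟨p, q⟩, h, rfl⟩ ⟨⟨p', q'⟩, h', heq⟩
      obtain ⟨e0, _, _⟩ := Wc_inj h'.1 h.1 heq
      exact absurd e0 (by decide)
  have hpos : ∀ x : orb ga, 0 ≤ cLen ρ x := by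
    rintro ⟨c, hc⟩
    rw [orb_eq] at hc
    obtain ⟨ε, p, q, hp, hcop, rfl⟩ := hc
    cases ε
    · rw [cLen_false ρ hA p q hp hcop]; exact (Lam_pos _ _ _ hp hA.Tw).le
    · rw [cLen_true ρ hA p q hp hcop]; exact (Lam_pos _ _ _ hp hA).le
  refine ⟨hfin, hpos, b, K, hb, hK, ?_⟩
  intro R hR
  rw [hcard R]
  exact h R hR

/-- the law for the curves of the pair of pants -/
theorem pants_law (ρ : F2 →* SpecialLinearGroup (Fin 2) ℝ) (hA : Adm (trTri ρ (ga, gb)))
    (h1 : AllDio (trTri ρ (ga, gb))) (h2 : AllDio (Tw (trTri ρ (ga, gb)))) {w : F2}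
    (hw : w ∈ pants) (hper : ¬ ∃ m : ℤ, IsConj w (kom ^ m)) :
    (∃ e : ℕ ≃ orb w, Monotone (fun k => cLen ρ (e k))) ∧
    ∃ u C : ℝ, 0 < u ∧ ∀ e : ℕ ≃ orb w, Monotone (fun k => cLen ρ (e k)) →
      ∀ k : ℕ, |u * √((k : ℝ) + 1) - cLen ρ (e k)| ≤ C := by
  obtain ⟨hfin, hpos, b, K, hb, hK, hcount⟩ := count_simple ρ hA h1 h2
  obtain ⟨n, C, hn, hC, hcmp⟩ := comparison ρ hA hfin hw hper
  obtain ⟨i0, hi0, hiconj⟩ := exists_i0
  have hi0cl : ∀ (φ : MulAut F2) (x : F2), cl (φ (iot x)) = cl ((φ * i0) x) := by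
    intro φ x
    rw [MulAut.mul_apply]
    exact cl_map φ.toMonoidHom (cl_of_isConj (hiconj x))
  have hi0a : ∀ φ : MulAut F2, cl ((φ * i0) ga) = cl (φ ga) := by
    intro φ
    rw [← hi0cl]
    have : iot ga = ga⁻¹ := by simp [iot]
    rw [this, map_inv, cl_inv]
  -- the two curves over a simple curve
  let wd : Bool → F2 := fun δ => if δ then iot w else w
  have hfw : wd false = w := rfl
  have htw : wd true = iot w := rfl
  -- general injectivity
  have hinj : ∀ (φ ψ : MulAut F2), φ ∈ MCG → ψ ∈ MCG → ∀ δ δ', cl (φ (wd δ)) = cl (ψ (wd δ')) →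
      cl (φ ga) = cl (ψ ga) := by
    have hbase : ∀ (φ ψ : MulAut F2), φ ∈ MCG → ψ ∈ MCG → ∀ δ', cl (φ w) = cl (ψ (wd δ')) →
        cl (φ ga) = cl (ψ ga) := by
      intro φ ψ hφ hψ δ' heq
      have h3 := cl_map (ψ⁻¹ : MulAut F2).toMonoidHom heq
      have h4 : cl ((ψ⁻¹ * φ) w) = cl (wd δ') := by
        rw [MulAut.mul_apply]
        refine Eq.trans h3 ?_
        change cl ((ψ⁻¹ : MulAut F2) (ψ (wd δ'))) = _
        rw [← MulAut.mul_apply, inv_mul_cancel, MulAut.one_apply]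
      have h5 : cl ((ψ⁻¹ * φ) ga) = cl ga := by
        apply claimB ρ hfin hw hn hcmp (MCG.mul_mem (MCG.inv_mem hψ) hφ)
        cases δ'
        · left; exact h4
        · right; exact h4
      have h6 := cl_map ψ.toMonoidHom h5
      have h7 : cl (ψ ((ψ⁻¹ * φ) ga)) = cl (ψ ga) := h6
      rwa [← MulAut.mul_apply, mul_inv_cancel_left] at h7
    intro φ ψ hφ hψ δ δ' heq
    cases δ
    · exact hbase φ ψ hφ hψ δ' heq
    · rw [htw, hi0cl] at heq
      have := hbase (φ * i0) ψ (MCG.mul_mem hφ hi0) hψ δ' heq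
      rwa [hi0a] at this
  -- choice of mapping classes
  choose Φ hΦ hΦa using fun x : orb ga => x.2
  have hmemw : ∀ (x : orb ga) (δ : Bool), cl (Φ x (wd δ)) ∈ orb w := by
    intro x δ
    cases δ
    · exact ⟨Φ x, hΦ x, rfl⟩
    · exact ⟨Φ x * i0, MCG.mul_mem (hΦ x) hi0, hi0cl _ _⟩
  have hlen : ∀ (x : orb ga) (δ : Bool), |cLen ρ (cl (Φ x (wd δ))) - n * cLen ρ x| ≤ C := by
    intro x δ
    have h3 := hcmp (Φ x) (hΦ x)
    rw [← hΦa x] at h3
    rw [cLen_cl]
    cases δ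
    · exact h3
    · rw [htw, gLen_iot]; exact h3
  have hsurj : ∀ y : orb w, ∃ (x : orb ga) (δ : Bool), (y : Curve) = cl (Φ x (wd δ)) := by
    rintro ⟨y, φ, hφ, rfl⟩
    refine ⟨⟨cl (φ ga), φ, hφ, rfl⟩, ?_⟩
    set x : orb ga := ⟨cl (φ ga), φ, hφ, rfl⟩ with hx
    have h3 : cl (φ ga) = cl (Φ x ga) := by rw [← hΦa x]
    have h4 := same_a hφ (hΦ x) h3 hw
    have h5 : cl (φ w) ∈ ({cl (Φ x w), cl (Φ x (iot w))} : Set Curve) := by
      rw [← h4]; simp
    rcases h5 with h5 | h5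
    · exact ⟨false, h5⟩
    · exact ⟨true, h5⟩
  by_cases hcase : cl w = cl (iot w)
  · -- one curve in each complement
    have hEq : ∀ (x : orb ga), cl (Φ x (wd true)) = cl (Φ x (wd false)) := fun x =>
      (cl_map (Φ x).toMonoidHom hcase).symm
    let F : orb ga × Unit → orb w := fun z => ⟨cl (Φ z.1 (wd false)), hmemw z.1 false⟩
    have hF : Function.Bijective F := by
      constructor
      · rintro ⟨x, _⟩ ⟨x', _⟩ heq
        have h3 : cl (Φ x (wd false)) = cl (Φ x' (wd false)) := congrArg Subtype.val heq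
        have h4 := hinj _ _ (hΦ x) (hΦ x') _ _ h3
        rw [← hΦa x, ← hΦa x'] at h4
        have : x = x' := Subtype.ext h4
        rw [this]
      · intro y
        obtain ⟨x, δ, hy⟩ := hsurj y
        refine ⟨(x, ()), Subtype.ext ?_⟩
        cases δ
        · exact hy.symm
        · rw [hEq] at hy; exact hy.symm
    exact perturb (Equiv.ofBijective F hF) (fun x : orb ga => cLen ρ x) (fun y : orb w => cLen ρ y)
      n C hn hC (fun x d => hlen x false) hfin hpos b K hb hK hcount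
  · let F : orb ga × Bool → orb w := fun z => ⟨cl (Φ z.1 (wd z.2)), hmemw z.1 z.2⟩
    have hne : ∀ x, cl (Φ x (wd false)) ≠ cl (Φ x (wd true)) := by
      intro x heq
      apply hcase
      have h3 := cl_map ((Φ x)⁻¹ : MulAut F2).toMonoidHom heq
      have h4 : cl (((Φ x)⁻¹ : MulAut F2) (Φ x (wd false))) = cl (((Φ x)⁻¹ : MulAut F2) (Φ x (wd true))) := h3
      rwa [← MulAut.mul_apply, ← MulAut.mul_apply, inv_mul_cancel, MulAut.one_apply,
        MulAut.one_apply] at h4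
    have hF : Function.Bijective F := by
      constructor
      · rintro ⟨x, δ⟩ ⟨x', δ'⟩ heq
        have h3 : cl (Φ x (wd δ)) = cl (Φ x' (wd δ')) := congrArg Subtype.val heq
        have h4 := hinj _ _ (hΦ x) (hΦ x') _ _ h3
        rw [← hΦa x, ← hΦa x'] at h4
        have hxx : x = x' := Subtype.ext h4
        subst hxx
        cases δ <;> cases δ'
        · rfl
        · exact absurd h3 (hne x)
        · exact absurd h3.symm (hne x)
        · rfl
      · intro y
        obtain ⟨x, δ, hy⟩ := hsurj y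
        exact ⟨(x, δ), Subtype.ext hy.symm⟩
    exact perturb (Equiv.ofBijective F hF) (fun x : orb ga => cLen ρ x) (fun y : orb w => cLen ρ y)
      n C hn hC (fun x d => hlen x d) hfin hpos b K hb hK hcount

end Pool.Agent.helper72.Sq
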