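import Mathlib

/-!
Lattice points in a right-angled triangle whose slope is badly approximable in a weak sense.
-/

set_option autoImplicit false

namespace Pool.Agent.helper72.Sq

open Finset

/-- residues `(N - j a) mod s` run over all residues. -/
lemma sum_emod (s : ℕ) (hs : 1 ≤ s) (a N : ℤ) (hcop : IsCoprime a (s : ℤ)) :
    ∑ j ∈ range s, ((N - j * a) % s) = ∑ i ∈ range s, (i : ℤ) := by
  have hs0 : (0 : ℤ) < s := by exact_mod_cast hs
  have hnn : ∀ j : ℕ, 0 ≤ (N - j * a) % (s : ℤ) := fun j => Int.emod_nonneg _ hs0.ne'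
  have hlt : ∀ j : ℕ, (N - j * a) % (s : ℤ) < s := fun j => Int.emod_lt_of_pos _ hs0
  let f : ℕ → ℕ := fun j => ((N - j * a) % (s : ℤ)).toNat
  have hf : ∀ j, ((f j : ℕ) : ℤ) = (N - j * a) % (s : ℤ) := fun j => Int.toNat_of_nonneg (hnn j)
  have hinj : Set.InjOn f (range s : Set ℕ) := by
    intro j hj j' hj' hjj
    simp only [coe_range, Set.mem_Iio] at hj hj'
    have h1 : (N - j * a) % (s : ℤ) = (N - j' * a) % (s : ℤ) := by
      rw [← hf, ← hf, hjj]
    have h2 : (s : ℤ) ∣ (N - j * a) - (N - j' * a) :=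
      Int.ModEq.dvd (Int.ModEq.symm h1)
    have h3 : (s : ℤ) ∣ (j' - j) * a := by
      have : (N - j * a) - (N - j' * a) = (j' - j) * a := by ring
      rwa [this] at h2
    have h4 : (s : ℤ) ∣ (j' : ℤ) - j := hcop.symm.dvd_of_dvd_mul_right h3
    have h5 : (j' : ℤ) - j = 0 := by
      apply Int.eq_zero_of_abs_lt_dvd h4
      rw [abs_lt]
      constructor <;> omega
    omega
  have himg : (range s).image f = range s := by
    apply Finset.eq_of_subset_of_card_le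
    · intro x hx
      rw [mem_image] at hx
      obtain ⟨j, _, rfl⟩ := hx
      rw [mem_range]
      have := hlt j
      rw [← hf] at this
      exact_mod_cast this
    · rw [card_image_of_injOn hinj]
  calc ∑ j ∈ range s, ((N - j * a) % s) = ∑ j ∈ range s, ((f j : ℕ) : ℤ) := by
        apply sum_congr rfl; intro j _; rw [hf]
    _ = ∑ i ∈ (range s).image f, (i : ℤ) := by rw [sum_image hinj]
    _ = _ := by rw [himg]

lemma fract_shift (s : ℕ) (hs : 1 ≤ s) (a : ℤ) (γ : ℝ) (j : ℕ) :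
    Int.fract (γ - j * (a / s : ℝ)) =
      (((⌊s * γ⌋ - j * a) % (s : ℤ) : ℤ) + Int.fract (s * γ)) / s := by
  have hs0 : (0 : ℝ) < s := by exact_mod_cast hs
  have hs1 : (0 : ℤ) < s := by exact_mod_cast hs
  set N := ⌊(s : ℝ) * γ⌋
  set r := Int.fract ((s : ℝ) * γ)
  have hr0 : 0 ≤ r := Int.fract_nonneg _
  have hr1 : r < 1 := Int.fract_lt_one _
  have hγ : (s : ℝ) * γ = N + r := (Int.floor_add_fract _).symm
  have hm0 : 0 ≤ (N - j * a) % (s : ℤ) := Int.emod_nonneg _ hs1.ne'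
  have hm1 : (N - j * a) % (s : ℤ) < s := Int.emod_lt_of_pos _ hs1
  have hdiv := Int.emod_add_mul_ediv (N - j * a) (s : ℤ)
  rw [Int.fract_eq_iff]
  have hm0' : (0 : ℝ) ≤ ((N - j * a) % (s : ℤ) : ℤ) := by exact_mod_cast hm0
  have hm1' : (((N - j * a) % (s : ℤ) : ℤ) : ℝ) + 1 ≤ s := by exact_mod_cast hm1
  refine ⟨by positivity, ?_, ⟨(N - j * a) / (s : ℤ), ?_⟩⟩
  · rw [div_lt_one hs0]
    linarith
  · have h2 : (((N - j * a) % (s : ℤ) : ℤ) : ℝ) + s * (((N - j * a) / (s : ℤ) : ℤ) : ℝ) =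
        N - j * a := by exact_mod_cast hdiv
    field_simp
    linarith

lemma sum_fract_rat (s : ℕ) (hs : 1 ≤ s) (a : ℤ) (hcop : IsCoprime a (s : ℤ)) (γ : ℝ) :
    ∑ j ∈ range s, Int.fract (γ - j * (a / s : ℝ)) = (s - 1) / 2 + Int.fract (s * γ) := by
  have hs0 : (0 : ℝ) < s := by exact_mod_cast hs
  have h1 := sum_emod s hs a ⌊s * γ⌋ hcop
  have h2 : ∑ i ∈ range s, (i : ℤ) * 2 = s * (s - 1) := by
    have := Finset.sum_range_id_mul_two s
    rw [← Finset.sum_mul]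
    have h3 : ((∑ i ∈ range s, i : ℕ) : ℤ) * 2 = ((s * (s - 1) : ℕ) : ℤ) := by exact_mod_cast this
    push_cast [Nat.cast_sub hs] at h3
    exact h3
  rw [Finset.sum_congr rfl (fun j _ => fract_shift s hs a γ j), ← Finset.sum_div,
    Finset.sum_add_distrib]
  have h4 : ∑ j ∈ range s, (((⌊s * γ⌋ - j * a) % (s : ℤ) : ℤ) : ℝ) = s * (s - 1) / 2 := by
    have h5 : ((∑ j ∈ range s, ((⌊s * γ⌋ - j * a) % (s : ℤ)) : ℤ) : ℝ) * 2 = s * (s - 1) := by
      rw [h1]
      rw [← Finset.sum_mul] at h2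
      exact_mod_cast h2
    push_cast at h5
    push_cast
    linarith
  rw [h4]
  simp only [sum_const, card_range, nsmul_eq_mul]
  field_simp

/-- one block. -/
lemma block (s : ℕ) (hs : 1 ≤ s) (a : ℤ) (hcop : IsCoprime a (s : ℤ)) (α β : ℝ)
    (hα : |α - a / s| ≤ 1 / (s : ℝ) ^ 2) :
    |∑ j ∈ range s, (Int.fract (β - j * α) - 1 / 2)| ≤ 5 / 2 := by
  have hs0 : (0 : ℝ) < s := by exact_mod_cast hs
  have hdev : ∀ j ∈ range s, |j * α - j * (a / s : ℝ)| ≤ 1 / s := by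
    intro j hj
    have hj' : (j : ℝ) ≤ s := by
      have := mem_range.1 hj
      exact_mod_cast this.le
    rw [← mul_sub, abs_mul, abs_of_nonneg (Nat.cast_nonneg j)]
    calc (j : ℝ) * |α - a / s| ≤ s * (1 / (s : ℝ) ^ 2) :=
          mul_le_mul hj' hα (abs_nonneg _) hs0.le
      _ = 1 / s := by field_simp
  have hup : ∑ j ∈ range s, Int.fract (β - j * α) ≤
      ∑ j ∈ range s, (Int.fract ((β - 1 / s) - j * (a / s : ℝ)) + 2 / s) := by
    apply sum_le_sum
    intro j hj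
    have h1 := abs_le.1 (hdev j hj)
    have h2 : ⌊(β - 1 / s) - j * (a / s : ℝ)⌋ ≤ ⌊β - j * α⌋ := Int.floor_le_floor (by linarith)
    have h3 : ((⌊(β - 1 / s) - j * (a / s : ℝ)⌋ : ℤ) : ℝ) ≤ ((⌊β - j * α⌋ : ℤ) : ℝ) := by
      exact_mod_cast h2
    have e1 := Int.self_sub_floor (β - j * α)
    have e2 := Int.self_sub_floor ((β - 1 / s) - j * (a / s : ℝ))
    have e3 : (2 : ℝ) / s = 1 / s + 1 / s := by ring
    rw [← e1, ← e2, e3]
    linarith [h1.1, h1.2]
  have hlo : ∑ j ∈ range s, (Int.fract ((β + 1 / s) - j * (a / s : ℝ)) - 2 / s) ≤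
      ∑ j ∈ range s, Int.fract (β - j * α) := by
    apply sum_le_sum
    intro j hj
    have h1 := abs_le.1 (hdev j hj)
    have h2 : ⌊β - j * α⌋ ≤ ⌊(β + 1 / s) - j * (a / s : ℝ)⌋ := Int.floor_le_floor (by linarith)
    have h3 : ((⌊β - j * α⌋ : ℤ) : ℝ) ≤ ((⌊(β + 1 / s) - j * (a / s : ℝ)⌋ : ℤ) : ℝ) := by
      exact_mod_cast h2
    have e1 := Int.self_sub_floor (β - j * α)
    have e2 := Int.self_sub_floor ((β + 1 / s) - j * (a / s : ℝ))
    have e3 : (2 : ℝ) / s = 1 / s + 1 / s := by ring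
    rw [← e1, ← e2, e3]
    linarith [h1.1, h1.2]
  rw [sum_add_distrib, sum_fract_rat s hs a hcop] at hup
  rw [sum_sub_distrib, sum_fract_rat s hs a hcop] at hlo
  have f1 := Int.fract_lt_one (s * (β - 1 / s))
  have f2 := Int.fract_nonneg (s * (β + 1 / s))
  simp only [sum_const, card_range, nsmul_eq_mul] at hup hlo
  have hs2 : (s : ℝ) * (2 / s) = 2 := by field_simp
  rw [hs2] at hup hlo
  rw [sum_sub_distrib]
  simp only [sum_const, card_range, nsmul_eq_mul]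
  rw [abs_le]
  constructor <;> linarith

lemma psi_sum (s : ℕ) (hs : 1 ≤ s) (a : ℤ) (hcop : IsCoprime a (s : ℤ)) (α : ℝ)
    (hα : |α - a / s| ≤ 1 / (s : ℝ) ^ 2) (k : ℕ) : ∀ (β : ℝ) (r : ℕ), r < s →
    |∑ j ∈ range (k * s + r), (Int.fract (β - j * α) - 1 / 2)| ≤ 5 / 2 * k + s / 2 := by
  induction k with
  | zero =>
    intro β r hr
    rw [Nat.zero_mul, Nat.zero_add]
    calc |∑ j ∈ range r, (Int.fract (β - j * α) - 1 / 2)|
        ≤ ∑ j ∈ range r, |Int.fract (β - j * α) - 1 / 2| := abs_sum_le_sum_abs _ _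
      _ ≤ ∑ j ∈ range r, (1 / 2 : ℝ) := by
          apply sum_le_sum
          intro j _
          have h0 := Int.fract_nonneg (β - j * α)
          have h1 := Int.fract_lt_one (β - j * α)
          rw [abs_le]; constructor <;> linarith
      _ = r / 2 := by simp; ring
      _ ≤ 5 / 2 * ((0 : ℕ) : ℝ) + s / 2 := by
          have : (r : ℝ) ≤ s := by exact_mod_cast hr.le
          simp; linarith
  | succ k ih =>
    intro β r hr
    have h1 : (k + 1) * s + r = s + (k * s + r) := by ring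
    rw [h1, sum_range_add]
    have h2 := block s hs a hcop α β hα
    have h3 := ih (β - s * α) r hr
    have h4 : ∑ x ∈ range (k * s + r), (Int.fract (β - ((s + x : ℕ) : ℝ) * α) - 1 / 2) =
        ∑ j ∈ range (k * s + r), (Int.fract (β - s * α - j * α) - 1 / 2) := by
      apply sum_congr rfl
      intro j _
      congr 2
      push_cast; ring
    rw [h4]
    refine (abs_add_le _ _).trans ?_
    push_cast
    linarith

lemma psi_sum' (s : ℕ) (hs : 1 ≤ s) (a : ℤ) (hcop : IsCoprime a (s : ℤ)) (α : ℝ)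
    (hα : |α - a / s| ≤ 1 / (s : ℝ) ^ 2) (β : ℝ) (N : ℕ) :
    |∑ j ∈ range N, (Int.fract (β - j * α) - 1 / 2)| ≤ 5 / 2 * (N / s) + s / 2 := by
  have h := psi_sum s hs a hcop α hα (N / s) β (N % s) (Nat.mod_lt _ hs)
  rw [Nat.div_add_mod'] at h
  refine h.trans ?_
  have : ((N / s : ℕ) : ℝ) ≤ (N : ℝ) / s := Nat.cast_div_le
  linarith

end Pool.Agent.helper72.Sq
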