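import Mathlib

/-!
Curves on the torus with one boundary component, the mapping class group action on them, and the
lengths of their geodesics for a hyperbolic metric. These are the definitions used in the statement
about the square-root law.
-/

set_option autoImplicit false

namespace Pool.Agent.helper72.Sq

open Matrix

/-- `π₁` of the torus with one boundary component: the free group on two generators `a = ga` and
`b = gb`. -/
abbrev F2 := FreeGroup (Fin 2)

/-- the generator `a` -/
def ga : F2 := FreeGroup.of 0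
/-- the generator `b` -/
def gb : F2 := FreeGroup.of 1

/-- the homomorphism from the free group with `a ↦ x`, `b ↦ y` -/
def mk2 {G : Type*} [Group G] (x y : G) : F2 →* G := FreeGroup.lift ![x, y]

@[simp] lemma mk2_a {G : Type*} [Group G] (x y : G) : mk2 x y ga = x := by simp [mk2, ga]
@[simp] lemma mk2_b {G : Type*} [Group G] (x y : G) : mk2 x y gb = y := by simp [mk2, gb]

lemma F2_hom_ext {G : Type*} [Group G] {f g : F2 →* G} (h1 : f ga = g ga) (h2 : f gb = g gb) :
    f = g := by
  apply FreeGroup.ext_hom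
  intro i
  fin_cases i
  · exact h1
  · exact h2

/-- the automorphism `a ↦ a`, `b ↦ ab` of `π₁` (induced by a Dehn twist along `a`). -/
def twA : F2 ≃* F2 :=
  MonoidHom.toMulEquiv (mk2 ga (ga * gb)) (mk2 ga (ga⁻¹ * gb))
    (F2_hom_ext (by simp) (by simp)) (F2_hom_ext (by simp) (by simp))

/-- the automorphism `a ↦ ab`, `b ↦ b` of `π₁` (induced by a Dehn twist along `b`). -/
def twB : F2 ≃* F2 :=
  MonoidHom.toMulEquiv (mk2 (ga * gb) gb) (mk2 (ga * gb⁻¹) gb)
    (F2_hom_ext (by simp) (by simp)) (F2_hom_ext (by simp) (by simp))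

/-- The mapping class group of the one-holed torus, acting on `π₁`: it is generated by the Dehn
twists along `a` and `b`. -/
def MCG : Subgroup (MulAut F2) := Subgroup.closure {twA, twB}

/-- two elements of `π₁` represent the same unoriented free homotopy class of closed curves when
they are conjugate, up to inversion -/
def curveSetoid : Setoid F2 where
  r g h := IsConj g h ∨ IsConj g h⁻¹
  iseqv := by
    refine ⟨fun g => Or.inl (IsConj.refl g), ?_, ?_⟩
    · rintro g h (h1 | h1)
      · exact Or.inl h1.symm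
      · right
        rw [isConj_iff] at h1 ⊢
        obtain ⟨c, hc⟩ := h1
        refine ⟨c⁻¹, ?_⟩
        have : h = (c * g * c⁻¹)⁻¹ := by rw [hc, inv_inv]
        rw [this]; group
    · rintro g h k (h1 | h1) (h2 | h2)
      · exact Or.inl (h1.trans h2)
      · exact Or.inr (h1.trans h2)
      · right
        refine h1.trans ?_
        rw [isConj_iff] at h2 ⊢
        obtain ⟨c, hc⟩ := h2
        refine ⟨c, ?_⟩
        rw [← hc]; group
      · left
        refine h1.trans ?_
        rw [isConj_iff] at h2 ⊢
        obtain ⟨c, hc⟩ := h2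
        refine ⟨c, ?_⟩
        have : k = (c * h * c⁻¹)⁻¹ := by rw [hc, inv_inv]
        rw [this]; group

/-- unoriented free homotopy classes of closed curves -/
def Curve : Type := Quotient curveSetoid

/-- the class of an element of `π₁` -/
def cl (g : F2) : Curve := Quotient.mk curveSetoid g

/-- the orbit, under the mapping class group, of the curve represented by `g` -/
def orb (g : F2) : Set Curve := {c | ∃ φ ∈ MCG, c = cl (φ g)}

/-- the trace of a matrix of `SL(2, ℝ)` -/
def tr (M : SpecialLinearGroup (Fin 2) ℝ) : ℝ := M 0 0 + M 1 1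

lemma sl2_det (M : SpecialLinearGroup (Fin 2) ℝ) : M 0 0 * M 1 1 - M 0 1 * M 1 0 = 1 := by
  have := M.2
  rwa [Matrix.det_fin_two] at this

lemma sl2_mul (A B : SpecialLinearGroup (Fin 2) ℝ) (i j : Fin 2) :
    (A * B) i j = A i 0 * B 0 j + A i 1 * B 1 j := by
  have h := congrFun (congrFun (Matrix.SpecialLinearGroup.coe_mul A B) i) j
  rw [Matrix.mul_apply, Fin.sum_univ_two] at h
  exact h

lemma tr_comm (A B : SpecialLinearGroup (Fin 2) ℝ) : tr (A * B) = tr (B * A) := by
  unfold tr; simp only [sl2_mul]; ring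

lemma tr_conj (A B : SpecialLinearGroup (Fin 2) ℝ) : tr (A * B * A⁻¹) = tr B := by
  rw [tr_comm, ← mul_assoc, inv_mul_cancel, one_mul]

lemma tr_inv (A : SpecialLinearGroup (Fin 2) ℝ) : tr A⁻¹ = tr A := by
  unfold tr
  rw [SpecialLinearGroup.SL2_inv_expl]
  simp [add_comm]

/-- the length of the closed geodesic in the free homotopy class of `g`, in the hyperbolic surface
with holonomy `ρ` (lifted to `SL(2, ℝ)`): `|tr ρ(g)| = 2 cosh (length / 2)` -/
noncomputable def gLen (ρ : F2 →* SpecialLinearGroup (Fin 2) ℝ) (g : F2) : ℝ :=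
  2 * Real.arcosh (|tr (ρ g)| / 2)

lemma gLen_rel (ρ : F2 →* SpecialLinearGroup (Fin 2) ℝ) (g h : F2)
    (hgh : IsConj g h ∨ IsConj g h⁻¹) : gLen ρ g = gLen ρ h := by
  unfold gLen
  have : tr (ρ g) = tr (ρ h) := by
    rcases hgh with h1 | h1
    · obtain ⟨c, hc⟩ := isConj_iff.1 h1
      rw [← hc, map_mul, map_mul, map_inv, tr_conj]
    · obtain ⟨c, hc⟩ := isConj_iff.1 h1
      rw [← tr_inv (ρ h), ← map_inv, ← hc, map_mul, map_mul, map_inv, tr_conj]
  rw [this]

/-- the length of a curve, in the hyperbolic surface with holonomy `ρ` -/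
noncomputable def cLen (ρ : F2 →* SpecialLinearGroup (Fin 2) ℝ) : Curve → ℝ :=
  Quotient.lift (s := curveSetoid) (gLen ρ) (gLen_rel ρ)

/-- the subgroup `⟨a, b a b⁻¹⟩`: the fundamental group of the pair of pants obtained by cutting the
one-holed torus along the simple closed curve `a` -/
def pants : Subgroup F2 := Subgroup.closure {ga, gb * ga * gb⁻¹}

/-- the boundary element `[a, b]` -/
def kom : F2 := ga * gb * ga⁻¹ * gb⁻¹

/-- `g` represents a closed curve which does not fill the one-holed torus: after applying a mapping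
class, the curve is disjoint from the simple closed curve `a` -/
def NonFilling (g : F2) : Prop := ∃ φ ∈ MCG, ∃ w ∈ pants, IsConj (φ g) w

/-- `g` is conjugate to a power of the boundary element -/
def Peripheral (g : F2) : Prop := ∃ m : ℤ, IsConj g (kom ^ m)

/-- Fricke space: the traces `(tr ρ(a), tr ρ(b), tr ρ(ab))` of the hyperbolic metrics on the one-holed
torus with geodesic boundary -/
def Fricke : Set (ℝ × ℝ × ℝ) :=
  {t | 2 < t.1 ∧ 2 < t.2.1 ∧ 2 < t.2.2 ∧ t.1 ^ 2 + t.2.1 ^ 2 + t.2.2 ^ 2 < t.1 * t.2.1 * t.2.2}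

/-- The square-root law for the orbit of the curve of `g`: the orbit can be listed by non-decreasing
length, and for every such list `L₀ ≤ L₁ ≤ …` the differences `u √(k+1) + v - L_k` are bounded. -/
def SqrtLaw (ρ : F2 →* SpecialLinearGroup (Fin 2) ℝ) (g : F2) : Prop :=
  (∃ e : ℕ ≃ orb g, Monotone (fun k => cLen ρ (e k))) ∧
  ∃ u v C : ℝ, 0 < u ∧ ∀ e : ℕ ≃ orb g, Monotone (fun k => cLen ρ (e k)) →
    ∀ k : ℕ, |(u * √((k : ℝ) + 1) + v) - cLen ρ (e k)| ≤ C

end Pool.Agent.helper72.Sq
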