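import Mathlib

/-!
Trace triples of the one-holed torus and the elementary analysis of their lengths.
-/

set_option autoImplicit false

namespace Pool.Agent.helper72.Sq

open Real

/-- A trace triple `(tr A, tr B, tr AB)`. -/
abbrev Tri := ℝ × ℝ × ℝ

/-- length of a closed geodesic with trace `t`. -/
noncomputable def len (t : ℝ) : ℝ := 2 * arcosh (t / 2)

/-- `xyz - x^2 - y^2 - z^2`; equals `- 2 - tr [A,B]`. -/
def kap (P : Tri) : ℝ := P.1 * P.2.1 * P.2.2 - P.1 ^ 2 - P.2.1 ^ 2 - P.2.2 ^ 2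

/-- replace `(A, B)` by `(A, AB)`. -/
def Lm (P : Tri) : Tri := (P.1, P.2.2, P.1 * P.2.2 - P.2.1)

/-- replace `(A, B)` by `(AB, B)`. -/
def Rm (P : Tri) : Tri := (P.2.2, P.2.1, P.2.2 * P.2.1 - P.1)

/-- the Fricke space of hyperbolic one-holed tori with geodesic boundary. -/
def Om : Set Tri := {P | 2 < P.1 ∧ 2 < P.2.1 ∧ 2 < P.2.2 ∧ 0 < kap P}

/-- growing triples. -/
structure Gr (P : Tri) : Prop where
  x2 : 2 < P.1
  y2 : 2 < P.2.1
  kpos : 0 < kap P
  zbig : P.1 * P.2.1 ≤ 2 * P.2.2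

lemma kap_Lm (P : Tri) : kap (Lm P) = kap P := by
  simp only [kap, Lm]; ring

lemma kap_Rm (P : Tri) : kap (Rm P) = kap P := by
  simp only [kap, Rm]; ring

lemma Gr.z2 {P : Tri} (h : Gr P) : 2 < P.2.2 := by
  nlinarith [h.x2, h.y2, h.zbig]

lemma Gr.xz {P : Tri} (h : Gr P) : P.1 ≤ P.2.2 := by
  nlinarith [h.x2, h.y2, h.zbig]

lemma Gr.yz {P : Tri} (h : Gr P) : P.2.1 ≤ P.2.2 := by
  nlinarith [h.x2, h.y2, h.zbig]

lemma Gr.L {P : Tri} (h : Gr P) : Gr (Lm P) := by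
  refine ⟨h.x2, h.z2, by rw [kap_Lm]; exact h.kpos, ?_⟩
  simp only [Lm]
  nlinarith [h.x2, h.y2, h.zbig, h.z2, h.yz]

lemma Gr.R {P : Tri} (h : Gr P) : Gr (Rm P) := by
  refine ⟨h.z2, h.y2, by rw [kap_Rm]; exact h.kpos, ?_⟩
  simp only [Rm]
  nlinarith [h.x2, h.y2, h.zbig, h.z2, h.xz]

lemma len_nonneg {t : ℝ} (ht : 2 ≤ t) : 0 ≤ len t := by
  unfold len
  have := arcosh_nonneg (x := t / 2) (by linarith)
  linarith

lemma len_pos {t : ℝ} (ht : 2 < t) : 0 < len t := by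
  unfold len
  have := arcosh_pos (x := t / 2) (by linarith)
  linarith

lemma cosh_half_len {t : ℝ} (ht : 2 ≤ t) : cosh (len t / 2) = t / 2 := by
  unfold len
  rw [mul_div_cancel_left₀ _ (two_ne_zero)]
  exact cosh_arcosh (by linarith)

lemma len_mono {s t : ℝ} (hs : 2 ≤ s) (hst : s ≤ t) : len s ≤ len t := by
  unfold len
  have := (arcosh_le_arcosh (x := s / 2) (y := t / 2) (by linarith) (by linarith)).2 (by linarith)
  linarith

lemma len_le_of_cosh {t a : ℝ} (ht : 2 ≤ t) (ha : 0 ≤ a) (h : t / 2 ≤ cosh a) :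
    len t ≤ 2 * a := by
  unfold len
  have : arcosh (t / 2) ≤ arcosh (cosh a) :=
    (arcosh_le_arcosh (by linarith) (cosh_pos a)).2 h
  rw [arcosh_cosh ha] at this
  linarith

lemma le_len_of_cosh {t a : ℝ} (ha : 0 ≤ a) (h : cosh a ≤ t / 2) :
    2 * a ≤ len t := by
  unfold len
  have h1 := one_le_cosh a
  have : arcosh (cosh a) ≤ arcosh (t / 2) :=
    (arcosh_le_arcosh (cosh_pos a) (by linarith)).2 h
  rw [arcosh_cosh ha] at this
  linarith

lemma cosh_le_exp_mul {a s : ℝ} (hs : 0 ≤ s) : cosh (a + s) ≤ exp s * cosh a := by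
  rw [cosh_add, ← cosh_add_sinh s]
  have h1 : sinh a ≤ cosh a := (sinh_lt_cosh a).le
  have h2 : 0 ≤ sinh s := sinh_nonneg_iff.2 hs
  nlinarith [mul_le_mul_of_nonneg_right h1 h2]

lemma cosh_le_exp_self {a : ℝ} (ha : 0 ≤ a) : cosh a ≤ exp a := by
  have h2 : 0 ≤ sinh a := sinh_nonneg_iff.2 ha
  have := cosh_add_sinh a
  linarith

/-- `2 log (t/2) ≤ len t` -/
lemma two_log_le_len {t : ℝ} (ht : 2 ≤ t) : 2 * log (t / 2) ≤ len t := by
  apply le_len_of_cosh (log_nonneg (by linarith))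
  calc cosh (log (t / 2)) ≤ exp (log (t / 2)) := cosh_le_exp_self (log_nonneg (by linarith))
    _ = t / 2 := exp_log (by linarith)

lemma len_le_two_log {t : ℝ} (ht : 2 ≤ t) : len t ≤ 2 * log t := by
  apply len_le_of_cosh ht (log_nonneg (by linarith))
  have : exp (log t) = t := exp_log (by linarith)
  rw [cosh_eq, this]
  have : 0 < exp (-log t) := exp_pos _
  linarith

/-- length of the product grows by a definite amount. -/
lemma Gr.len_z_ge_y {P : Tri} (h : Gr P) : len P.2.1 + 2 * log (P.1 / 2) ≤ len P.2.2 := by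
  have h1 : 0 ≤ log (P.1 / 2) := log_nonneg (by linarith [h.x2])
  have h0 := len_nonneg h.y2.le
  have := le_len_of_cosh (t := P.2.2) (a := len P.2.1 / 2 + log (P.1 / 2)) (by linarith) (by
    refine (cosh_le_exp_mul h1).trans ?_
    rw [exp_log (by linarith [h.x2]), cosh_half_len h.y2.le]
    linarith [h.zbig])
  linarith

lemma Gr.len_z_ge_x {P : Tri} (h : Gr P) : len P.1 + 2 * log (P.2.1 / 2) ≤ len P.2.2 := by
  have h1 : 0 ≤ log (P.2.1 / 2) := log_nonneg (by linarith [h.y2])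
  have h0 := len_nonneg h.x2.le
  have := le_len_of_cosh (t := P.2.2) (a := len P.1 / 2 + log (P.2.1 / 2)) (by linarith) (by
    refine (cosh_le_exp_mul h1).trans ?_
    rw [exp_log (by linarith [h.y2]), cosh_half_len h.x2.le]
    linarith [h.zbig])
  linarith

/-- the main quadratic identity. -/
lemma main_ident (P : Tri) (hx : 2 ≤ P.1) (hy : 2 ≤ P.2.1) :
    (2 * cosh (len P.1 / 2 + len P.2.1 / 2) - P.2.2) *
      (P.2.2 - 2 * cosh (len P.1 / 2 - len P.2.1 / 2)) = kap P + 4 := by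
  have h1 := cosh_half_len hx
  have h2 := cosh_half_len hy
  rw [cosh_add, cosh_sub]
  have s1 := cosh_sq (len P.1 / 2)
  have s2 := cosh_sq (len P.2.1 / 2)
  have e1 : sinh (len P.1 / 2) ^ 2 = (P.1 / 2) ^ 2 - 1 := by rw [← h1]; linarith
  have e2 : sinh (len P.2.1 / 2) ^ 2 = (P.2.1 / 2) ^ 2 - 1 := by rw [← h2]; linarith
  rw [h1, h2]
  generalize sinh (len P.1 / 2) = a at *
  generalize sinh (len P.2.1 / 2) = b at *
  unfold kap
  have : (2 * (P.1 / 2 * (P.2.1 / 2) + a * b) - P.2.2) *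
      (P.2.2 - 2 * (P.1 / 2 * (P.2.1 / 2) - a * b)) =
      P.1 * P.2.1 * P.2.2 - P.2.2 ^ 2 - P.1 ^ 2 * P.2.1 ^ 2 / 4 + 4 * (a ^ 2 * b ^ 2) := by ring
  rw [this, e1, e2]
  ring

/-- subadditivity: `len z ≤ len x + len y`. -/
lemma Gr.len_z_le {P : Tri} (h : Gr P) : len P.2.2 ≤ len P.1 + len P.2.1 := by
  have hid := main_ident P h.x2.le h.y2.le
  have a1 := len_pos h.x2
  have a2 := len_pos h.y2
  have hs1 : 0 < sinh (len P.1 / 2) := sinh_pos_iff.2 (by linarith)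
  have hs2 : 0 < sinh (len P.2.1 / 2) := sinh_pos_iff.2 (by linarith)
  have hD : 0 < P.2.2 - 2 * cosh (len P.1 / 2 - len P.2.1 / 2) := by
    rw [cosh_sub, cosh_half_len h.x2.le, cosh_half_len h.y2.le]
    nlinarith [h.zbig, mul_pos hs1 hs2]
  have hS : 0 < 2 * cosh (len P.1 / 2 + len P.2.1 / 2) - P.2.2 := by
    by_contra hcon
    push Not at hcon
    have := h.kpos
    have := mul_nonpos_of_nonpos_of_nonneg hcon hD.le
    linarith
  have := len_le_of_cosh (t := P.2.2) (a := len P.1 / 2 + len P.2.1 / 2) h.z2.le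
    (by linarith) (by linarith)
  linarith

lemma sinh_ratio {a b : ℝ} (hab : b ≤ a) : sinh b * exp a ≤ sinh a * exp b := by
  rw [sinh_eq, sinh_eq]
  have h1 : exp b * exp (-b) = 1 := by rw [← exp_add]; simp
  have h2 : exp a * exp (-a) = 1 := by rw [← exp_add]; simp
  have h3 : exp (-a) * exp b ≤ exp (-b) * exp a := by
    rw [← exp_add, ← exp_add]
    apply exp_le_exp.2
    linarith
  nlinarith

lemma cosh_sub_ge {A B : ℝ} (hB : 0 ≤ B) (hAB : B ≤ A) : (A - B) * sinh B ≤ cosh A - cosh B := by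
  have h : cosh A = cosh (A - B) * cosh B + sinh (A - B) * sinh B := by
    rw [← cosh_add]; congr 1; ring
  have h1 : 1 ≤ cosh (A - B) := one_le_cosh _
  have h2 : A - B ≤ sinh (A - B) := self_le_sinh_iff.2 (by linarith)
  have h3 : 0 ≤ sinh B := sinh_nonneg_iff.2 hB
  have h4 : 0 < cosh B := cosh_pos B
  rw [h]
  nlinarith [mul_le_mul_of_nonneg_right h2 h3, mul_le_mul_of_nonneg_right h1 h4.le]

/-- the corner deficiency is exponentially small. -/
lemma Gr.deficiency {P : Tri} (h : Gr P) {c : ℝ} (hc : 0 < c)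
    (hx : c * exp (len P.1 / 2) ≤ sinh (len P.1 / 2))
    (hy : c * exp (len P.2.1 / 2) ≤ sinh (len P.2.1 / 2))
    (hz : c * exp (len P.2.2 / 2) ≤ sinh (len P.2.2 / 2)) :
    len P.1 + len P.2.1 - len P.2.2 ≤
      2 * (kap P + 4) / c ^ 3 * exp (-(len P.1 + len P.2.1)) := by
  have hid := main_ident P h.x2.le h.y2.le
  have hsub := h.len_z_le
  have a1 := len_pos h.x2
  have a2 := len_pos h.y2
  have a3 := len_pos h.z2
  have hk := h.kpos
  have hs1 : 0 < sinh (len P.1 / 2) := sinh_pos_iff.2 (by linarith)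
  have hs2 : 0 < sinh (len P.2.1 / 2) := sinh_pos_iff.2 (by linarith)
  have hs3 : 0 < sinh (len P.2.2 / 2) := sinh_pos_iff.2 (by linarith)
  have c1 := cosh_half_len h.x2.le
  have c2 := cosh_half_len h.y2.le
  have c3 := cosh_half_len h.z2.le
  -- lower bound for z - D
  have hD : 2 * (sinh (len P.1 / 2) * sinh (len P.2.1 / 2)) ≤
      P.2.2 - 2 * cosh (len P.1 / 2 - len P.2.1 / 2) := by
    rw [cosh_sub, c1, c2]
    nlinarith [h.zbig, mul_pos hs1 hs2]
  have hconv := cosh_sub_ge (A := len P.1 / 2 + len P.2.1 / 2) (B := len P.2.2 / 2)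
    (by linarith) (by linarith)
  rw [c3] at hconv
  -- product lower bound
  have e1 : exp (len P.1 / 2) / 2 ≤ cosh (len P.1 / 2) := by
    rw [cosh_eq]; have := exp_pos (-(len P.1 / 2)); linarith
  have e2 : exp (len P.2.1 / 2) / 2 ≤ cosh (len P.2.1 / 2) := by
    rw [cosh_eq]; have := exp_pos (-(len P.2.1 / 2)); linarith
  have e3 : cosh (len P.2.2 / 2) ≤ exp (len P.2.2 / 2) := cosh_le_exp_self (by linarith)
  set E1 := exp (len P.1 / 2) with hE1
  set E2 := exp (len P.2.1 / 2) with hE2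
  set E3 := exp (len P.2.2 / 2) with hE3
  have E1p : 0 < E1 := exp_pos _
  have E2p : 0 < E2 := exp_pos _
  have E3p : 0 < E3 := exp_pos _
  have hE : E1 * E2 / 4 ≤ E3 := by
    have : E1 / 2 * (E2 / 2) ≤ cosh (len P.1 / 2) * cosh (len P.2.1 / 2) :=
      mul_le_mul e1 e2 (by positivity) (cosh_pos _).le
    rw [c1, c2] at this
    rw [c3] at e3
    nlinarith [h.zbig]
  set d := len P.1 / 2 + len P.2.1 / 2 - len P.2.2 / 2 with hd
  have hd0 : 0 ≤ d := by rw [hd]; linarith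
  set s1 := sinh (len P.1 / 2)
  set s2 := sinh (len P.2.1 / 2)
  set s3 := sinh (len P.2.2 / 2)
  set S := cosh (len P.1 / 2 + len P.2.1 / 2)
  set W := P.2.2 - 2 * cosh (len P.1 / 2 - len P.2.1 / 2)
  -- d * s3 * 2 * (2 s1 s2) ≤ kap + 4
  have k1 : d * s3 * 2 * (2 * (s1 * s2)) ≤ kap P + 4 := by
    rw [← hid]
    have : d * s3 * 2 ≤ 2 * S - P.2.2 := by linarith
    exact mul_le_mul this hD (by positivity) (by nlinarith [mul_nonneg hd0 hs3.le])
  have k2 : c ^ 3 * (E1 * E2) ^ 2 / 4 ≤ s1 * s2 * s3 := by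
    calc c ^ 3 * (E1 * E2) ^ 2 / 4 = (c * E1) * (c * E2) * (c * (E1 * E2 / 4)) := by ring
      _ ≤ s1 * s2 * s3 := by
        apply mul_le_mul (mul_le_mul hx hy (by positivity) hs1.le) _ (by positivity)
          (by positivity)
        exact (mul_le_mul_of_nonneg_left hE hc.le).trans hz
  have k3 : d * (c ^ 3 * (E1 * E2) ^ 2) ≤ kap P + 4 := by
    calc d * (c ^ 3 * (E1 * E2) ^ 2) = 4 * (d * (c ^ 3 * (E1 * E2) ^ 2 / 4)) := by ring
      _ ≤ 4 * (d * (s1 * s2 * s3)) := by gcongr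
      _ = d * s3 * 2 * (2 * (s1 * s2)) := by ring
      _ ≤ _ := k1
  have k4 : exp (-(len P.1 + len P.2.1)) = ((E1 * E2) ^ 2)⁻¹ := by
    rw [exp_neg, hE1, hE2, ← exp_add, ← exp_nat_mul]
    congr 2
    push_cast; ring
  have k5 : len P.1 + len P.2.1 - len P.2.2 = 2 * d := by rw [hd]; ring
  rw [k4, k5]
  have hpos : 0 < c ^ 3 * (E1 * E2) ^ 2 := by positivity
  have : d ≤ (kap P + 4) / (c ^ 3 * (E1 * E2) ^ 2) := by
    rw [le_div_iff₀ hpos]; exact k3
  calc 2 * d ≤ 2 * ((kap P + 4) / (c ^ 3 * (E1 * E2) ^ 2)) := by linarith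
    _ = 2 * (kap P + 4) / c ^ 3 * ((E1 * E2) ^ 2)⁻¹ := by
      field_simp

end Pool.Agent.helper72.Sq
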