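import Pool.Agent.helper72.SqA

/-!
The length function on integer vectors of a cone and its elementary bounds.
-/

set_option autoImplicit false

namespace Pool.Agent.helper72.Sq

open Real

/-- length of the (multi)curve `p e + q e'` for a pair with traces `P` (for `1 ≤ p`). -/
noncomputable def Lam (P : Tri) (p q : ℕ) : ℝ :=
  if q = 0 then p * len P.1
  else if p = 0 then q * len P.2.1
  else if q < p then Lam (Lm P) (p - q) q
  else Lam (Rm P) p (q - p)
termination_by p + q
decreasing_by all_goals omega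

lemma Lam_zero (P : Tri) (p : ℕ) : Lam P p 0 = p * len P.1 := by
  rw [Lam]; simp

lemma Lam_L (P : Tri) (p q : ℕ) (hp : 1 ≤ p) : Lam P (p + q) q = Lam (Lm P) p q := by
  rcases Nat.eq_zero_or_pos q with hq | hq
  · subst hq
    rw [Nat.add_zero, Lam_zero, Lam_zero]
    rfl
  · rw [Lam, if_neg (by omega), if_neg (by omega), if_pos (by omega), Nat.add_sub_cancel]

lemma Lam_R (P : Tri) (p q : ℕ) (hp : 1 ≤ p) : Lam P p (p + q) = Lam (Rm P) p q := by
  rw [Lam, if_neg (by omega), if_neg (by omega), if_neg (by omega), Nat.add_sub_cancel_left]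

/-- Euclid-type induction. -/
theorem farey_ind {C : Tri → ℕ → ℕ → Prop}
    (h0 : ∀ P p, 1 ≤ p → C P p 0)
    (hL : ∀ P p q, 1 ≤ p → 1 ≤ q → C (Lm P) p q → C P (p + q) q)
    (hR : ∀ P p q, 1 ≤ p → C (Rm P) p q → C P p (p + q)) :
    ∀ P p q, 1 ≤ p → C P p q := by
  have key : ∀ n : ℕ, ∀ P p q, 1 ≤ p → p + q ≤ n → C P p q := by
    intro n
    induction n with
    | zero => intro P p q hp hn; omega
    | succ n ih =>
      intro P p q hp hn
      rcases Nat.eq_zero_or_pos q with hq | hq
      · subst hq; exact h0 P p hp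
      · rcases lt_or_ge q p with hqp | hqp
        · obtain ⟨p', rfl⟩ := Nat.exists_eq_add_of_lt hqp
          have := hL P (p' + 1) q (by omega) hq (ih (Lm P) (p' + 1) q (by omega) (by omega))
          rwa [show p' + 1 + q = q + p' + 1 by ring] at this
        · obtain ⟨q', rfl⟩ := Nat.exists_eq_add_of_le hqp
          exact hR P p q' hp (ih (Rm P) p q' hp (by omega))
  intro P p q hp
  exact key (p + q) P p q hp le_rfl

lemma Lam_smul (d : ℕ) (hd : 1 ≤ d) : ∀ (P : Tri) (p q : ℕ), 1 ≤ p →
    Lam P (d * p) (d * q) = d * Lam P p q := by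
  apply farey_ind
  · intro P p hp
    rw [Nat.mul_zero, Lam_zero, Lam_zero]; push_cast; ring
  · intro P p q hp hq ih
    rw [Nat.mul_add, Lam_L _ _ _ (by nlinarith), Lam_L _ _ _ hp, ih]
  · intro P p q hp ih
    rw [Nat.mul_add, Lam_R _ _ _ (by nlinarith), Lam_R _ _ _ hp, ih]

/-- upper bound: subadditivity. -/
lemma Lam_le : ∀ (P : Tri) (p q : ℕ), 1 ≤ p → Gr P → Lam P p q ≤ p * len P.1 + q * len P.2.1 := by
  apply farey_ind
  · intro P p hp h
    rw [Lam_zero]; simp
  · intro P p q hp hq ih h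
    rw [Lam_L _ _ _ hp]
    refine (ih h.L).trans ?_
    have := h.len_z_le
    simp only [Lm]
    push_cast
    have hq0 : (0 : ℝ) ≤ q := Nat.cast_nonneg q
    nlinarith [mul_le_mul_of_nonneg_left this hq0]
  · intro P p q hp ih h
    rw [Lam_R _ _ _ hp]
    refine (ih h.R).trans ?_
    have := h.len_z_le
    simp only [Rm]
    push_cast
    have hq0 : (0 : ℝ) ≤ p := Nat.cast_nonneg p
    nlinarith [mul_le_mul_of_nonneg_left this hq0]

/-- logarithmic lower bound `2 log (t/2)`, superadditive. -/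
noncomputable def ltau (t : ℝ) : ℝ := 2 * log (t / 2)

lemma ltau_pos {t : ℝ} (ht : 2 < t) : 0 < ltau t := by
  unfold ltau
  have := log_pos (x := t / 2) (by linarith)
  linarith

lemma Gr.ltau_z {P : Tri} (h : Gr P) : ltau P.1 + ltau P.2.1 ≤ ltau P.2.2 := by
  unfold ltau
  have hx := h.x2
  have hy := h.y2
  have : log (P.1 / 2) + log (P.2.1 / 2) ≤ log (P.2.2 / 2) := by
    rw [← log_mul (by linarith) (by linarith)]
    apply log_le_log (by positivity)
    linarith [h.zbig]
  linarith

lemma ltau_le_len {t : ℝ} (ht : 2 ≤ t) : ltau t ≤ len t := two_log_le_len ht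

lemma Lam_ge_ltau : ∀ (P : Tri) (p q : ℕ), 1 ≤ p → Gr P →
    p * ltau P.1 + q * ltau P.2.1 ≤ Lam P p q := by
  apply farey_ind
  · intro P p hp h
    rw [Lam_zero]
    have := ltau_le_len h.x2.le
    have hp0 : (0 : ℝ) ≤ p := Nat.cast_nonneg p
    simp only [Nat.cast_zero, zero_mul, add_zero]
    exact mul_le_mul_of_nonneg_left this hp0
  · intro P p q hp hq ih h
    rw [Lam_L _ _ _ hp]
    refine le_trans ?_ (ih h.L)
    have := h.ltau_z
    simp only [Lm]
    push_cast
    have hq0 : (0 : ℝ) ≤ q := Nat.cast_nonneg q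
    nlinarith [mul_le_mul_of_nonneg_left this hq0]
  · intro P p q hp ih h
    rw [Lam_R _ _ _ hp]
    refine le_trans ?_ (ih h.R)
    have := h.ltau_z
    simp only [Rm]
    push_cast
    have hq0 : (0 : ℝ) ≤ p := Nat.cast_nonneg p
    nlinarith [mul_le_mul_of_nonneg_left this hq0]

/-- lower bound by the linear function up to an exponentially small error. -/
lemma Lam_ge (c k t0 : ℝ) (hc : 0 < c) (ht0 : 2 < t0) (hcs : c * exp (len t0 / 2) ≤ sinh (len t0 / 2)) :
    ∀ (P : Tri) (p q : ℕ), 1 ≤ p → Gr P → t0 ≤ P.1 → t0 ≤ P.2.1 → kap P ≤ k →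
    p * len P.1 + q * len P.2.1 -
      (2 * (k + 4) / c ^ 3 / (1 - exp (-(ltau t0)))) * q * exp (-(len P.1 + len P.2.1))
      ≤ Lam P p q := by
  have hlt := ltau_pos ht0
  have hden : 0 < 1 - exp (-(ltau t0)) := by
    have : exp (-(ltau t0)) < 1 := exp_lt_one_iff.2 (by linarith)
    linarith
  have hsinh : ∀ t, t0 ≤ t → c * exp (len t / 2) ≤ sinh (len t / 2) := by
    intro t ht
    have h1 := sinh_ratio (a := len t / 2) (b := len t0 / 2) (by
      have := len_mono ht0.le ht; linarith)
    have e0 : 0 < exp (len t0 / 2) := exp_pos _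
    have et : 0 < exp (len t / 2) := exp_pos _
    have h2 : c * exp (len t0 / 2) * exp (len t / 2) ≤ sinh (len t / 2) * exp (len t0 / 2) :=
      (mul_le_mul_of_nonneg_right hcs et.le).trans h1
    have h3 : (c * exp (len t / 2)) * exp (len t0 / 2) ≤ sinh (len t / 2) * exp (len t0 / 2) := by
      linarith
    exact le_of_mul_le_mul_right h3 e0
  set A := 2 * (k + 4) / c ^ 3 with hA
  set B := A / (1 - exp (-(ltau t0))) with hB
  have hBA : A + B * exp (-(ltau t0)) = B := by
    rw [hB]; field_simp; ring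
  apply farey_ind
  · intro P p hp h hx hy hk
    rw [Lam_zero]; simp
  · intro P p q hp hq ih h hx hy hk
    rw [Lam_L _ _ _ hp]
    have hz : t0 ≤ P.2.2 := hx.trans h.xz
    refine le_trans ?_ (ih h.L hx hz (by rw [kap_Lm]; exact hk))
    have hdef := h.deficiency hc (hsinh _ hx) (hsinh _ hy) (hsinh _ hz)
    have hkA : 2 * (kap P + 4) / c ^ 3 ≤ A := by
      rw [hA]; gcongr
    have hA0 : 0 ≤ A := le_trans (by have := h.kpos; positivity) hkA
    have hB0 : 0 ≤ B := div_nonneg hA0 hden.le
    have hE : exp (-(len P.1 + len P.2.2)) ≤ exp (-(ltau t0)) * exp (-(len P.1 + len P.2.1)) := by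
      rw [← exp_add]
      apply exp_le_exp.2
      have h1 := h.len_z_ge_y
      have h2 : ltau t0 ≤ 2 * log (P.1 / 2) := by
        unfold ltau
        have := log_le_log (x := t0 / 2) (y := P.1 / 2) (by linarith) (by linarith)
        linarith
      linarith
    have hq0 : (0 : ℝ) ≤ q := Nat.cast_nonneg q
    have hE0 : 0 < exp (-(len P.1 + len P.2.1)) := exp_pos _
    simp only [Lm]
    push_cast
    set E := exp (-(len P.1 + len P.2.1))
    set E' := exp (-(len P.1 + len P.2.2))
    have hdef' : len P.1 + len P.2.1 - len P.2.2 ≤ A * E :=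
      hdef.trans (mul_le_mul_of_nonneg_right hkA hE0.le)
    have h3 : B * q * E' ≤ B * q * (exp (-(ltau t0)) * E) :=
      mul_le_mul_of_nonneg_left hE (by positivity)
    have h4 : (q : ℝ) * (len P.1 + len P.2.1 - len P.2.2) ≤ q * (A * E) :=
      mul_le_mul_of_nonneg_left hdef' hq0
    have h5 : q * (A * E) + B * q * (exp (-(ltau t0)) * E) = B * q * E := by
      have : q * (A * E) + B * q * (exp (-(ltau t0)) * E) =
        (A + B * exp (-(ltau t0))) * q * E := by ring
      rw [this, hBA]
    nlinarith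
  · intro P p q hp ih h hx hy hk
    rw [Lam_R _ _ _ hp]
    have hz : t0 ≤ P.2.2 := hx.trans h.xz
    refine le_trans ?_ (ih h.R hz hy (by rw [kap_Rm]; exact hk))
    have hdef := h.deficiency hc (hsinh _ hx) (hsinh _ hy) (hsinh _ hz)
    have hkA : 2 * (kap P + 4) / c ^ 3 ≤ A := by
      rw [hA]; gcongr
    have hA0 : 0 ≤ A := le_trans (by have := h.kpos; positivity) hkA
    have hB0 : 0 ≤ B := div_nonneg hA0 hden.le
    have hE : exp (-(len P.2.2 + len P.2.1)) ≤ exp (-(ltau t0)) * exp (-(len P.1 + len P.2.1)) := by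
      rw [← exp_add]
      apply exp_le_exp.2
      have h1 := h.len_z_ge_x
      have h2 : ltau t0 ≤ 2 * log (P.2.1 / 2) := by
        unfold ltau
        have := log_le_log (x := t0 / 2) (y := P.2.1 / 2) (by linarith) (by linarith)
        linarith
      linarith
    have hq0 : (0 : ℝ) ≤ q := Nat.cast_nonneg q
    have hp0 : (0 : ℝ) ≤ p := Nat.cast_nonneg p
    have hE0 : 0 < exp (-(len P.1 + len P.2.1)) := exp_pos _
    have he1 : exp (-(ltau t0)) ≤ 1 := by linarith
    have he0 : 0 < exp (-(ltau t0)) := exp_pos _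
    simp only [Rm]
    push_cast
    set E := exp (-(len P.1 + len P.2.1))
    set E' := exp (-(len P.2.2 + len P.2.1))
    have hdef' : len P.1 + len P.2.1 - len P.2.2 ≤ A * E :=
      hdef.trans (mul_le_mul_of_nonneg_right hkA hE0.le)
    have h3 : B * q * E' ≤ B * q * (exp (-(ltau t0)) * E) :=
      mul_le_mul_of_nonneg_left hE (by positivity)
    have h4 : (p : ℝ) * (len P.1 + len P.2.1 - len P.2.2) ≤ p * (A * E) :=
      mul_le_mul_of_nonneg_left hdef' hp0
    have hAB : A ≤ B := by nlinarith [mul_nonneg hB0 he0.le]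
    have h5 : p * (A * E) ≤ B * p * E := by nlinarith [mul_nonneg hp0 hE0.le]
    have h6 : B * q * (exp (-(ltau t0)) * E) ≤ B * q * E := by
      apply mul_le_mul_of_nonneg_left _ (by positivity)
      nlinarith
    nlinarith

end Pool.Agent.helper72.Sq
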