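import Pool.Agent.helper72.SqC

/-!
Counting lattice points in a right-angled triangle: the linear count.
-/

set_option autoImplicit false

namespace Pool.Agent.helper72.Sq

open Finset

/-- lattice points with `p ≥ 1`, `q ≥ 0` below a line. -/
def LinSet (l1 l2 R : ℝ) : Set (ℕ × ℕ) := {pq | 1 ≤ pq.1 ∧ pq.1 * l1 + pq.2 * l2 ≤ R}

lemma LinSet_eq (l1 l2 R : ℝ) (h1 : 0 < l1) (h2 : 0 < l2) (hR : 0 ≤ R) :
    LinSet l1 l2 R = (((range (⌊R / l2⌋₊ + 1)).sigma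
      (fun q => Finset.Icc 1 ⌊(R - q * l2) / l1⌋₊)).image (fun x : (_ : ℕ) × ℕ => (x.2, x.1)) : Finset (ℕ × ℕ)) := by
  ext ⟨p, q⟩
  simp only [LinSet, Set.mem_ofPred_eq, coe_image, Set.mem_image, Finset.mem_coe, mem_sigma, mem_range,
    Finset.mem_Icc, Prod.mk.injEq, Sigma.exists]
  constructor
  · rintro ⟨hp, h⟩
    refine ⟨q, p, ⟨?_, hp, ?_⟩, rfl, rfl⟩
    · have : q ≤ ⌊R / l2⌋₊ := by
        apply Nat.le_floor
        rw [le_div_iff₀ h2]
        have : (0 : ℝ) ≤ p * l1 := by positivity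
        linarith
      omega
    · apply Nat.le_floor
      rw [le_div_iff₀ h1]
      linarith
  · rintro ⟨q', p', ⟨hq, hp1, hp⟩, rfl, rfl⟩
    refine ⟨hp1, ?_⟩
    have hne : ⌊(R - q' * l2) / l1⌋₊ ≠ 0 := by omega
    have h3 : (p' : ℝ) ≤ (R - q' * l2) / l1 := by
      have h4 : 0 ≤ (R - q' * l2) / l1 := by
        by_contra hcon
        push Not at hcon
        exact hne (Nat.floor_of_nonpos hcon.le)
      exact (Nat.le_floor_iff h4).1 hp
    rw [le_div_iff₀ h1] at h3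
    linarith

lemma LinSet_finite (l1 l2 R : ℝ) (h1 : 0 < l1) (h2 : 0 < l2) : (LinSet l1 l2 R).Finite := by
  rcases le_or_gt 0 R with hR | hR
  · rw [LinSet_eq l1 l2 R h1 h2 hR]; exact Finset.finite_toSet _
  · convert Set.finite_empty
    ext ⟨p, q⟩
    simp only [LinSet, Set.mem_ofPred_eq, Set.mem_empty_iff_false, iff_false, not_and, not_le]
    intro _
    have : (0 : ℝ) ≤ p * l1 + q * l2 := by positivity
    linarith

lemma LinSet_ncard (l1 l2 R : ℝ) (h1 : 0 < l1) (h2 : 0 < l2) (hR : 0 ≤ R) :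
    ((LinSet l1 l2 R).ncard : ℝ) =
      ∑ q ∈ range (⌊R / l2⌋₊ + 1), ((R / l1 - q * (l2 / l1)) - Int.fract (R / l1 - q * (l2 / l1))) := by
  rw [LinSet_eq l1 l2 R h1 h2 hR, Set.ncard_coe_finset, card_image_of_injective, card_sigma]
  · push_cast
    apply sum_congr rfl
    intro q hq
    rw [Nat.card_Icc, Nat.add_sub_cancel]
    have hq' : q ≤ ⌊R / l2⌋₊ := by have := mem_range.1 hq; omega
    have hq2 : (q : ℝ) ≤ R / l2 := (Nat.le_floor_iff (by positivity)).1 hq'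
    rw [le_div_iff₀ h2] at hq2
    have e : (R - q * l2) / l1 = R / l1 - q * (l2 / l1) := by ring
    rw [e, Int.self_sub_fract]
    have hnn : 0 ≤ R / l1 - q * (l2 / l1) := by
      rw [← e]; apply div_nonneg _ h1.le; linarith
    rw [natCast_floor_eq_intCast_floor hnn]
  · rintro ⟨a, b⟩ ⟨c, d⟩ h
    simp only [Prod.mk.injEq] at h
    obtain ⟨rfl, rfl⟩ := h
    rfl

lemma lin_main (l1 l2 R : ℝ) (h1 : 0 < l1) (h2 : 0 < l2) (hR : 0 ≤ R) :
    |((LinSet l1 l2 R).ncard : ℝ) - (R ^ 2 / (2 * l1 * l2) + R / (2 * l1) - R / (2 * l2))| ≤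
      l2 / l1 + 1 + |∑ q ∈ range (⌊R / l2⌋₊ + 1), (Int.fract (R / l1 - q * (l2 / l1)) - 1 / 2)| := by
  rw [LinSet_ncard l1 l2 R h1 h2 hR]
  set n := ⌊R / l2⌋₊ with hn
  have hn1 : (n : ℝ) ≤ R / l2 := Nat.floor_le (by positivity)
  have hn2 : R / l2 < n + 1 := Nat.lt_floor_add_one _
  set f := R / l2 - n with hf
  have hf0 : 0 ≤ f := by linarith
  have hf1 : f ≤ 1 := by linarith
  have hRf : R = l2 * (n + f) := by
    rw [hf]; field_simp; ring
  have hsum : ∑ q ∈ range (n + 1), (q : ℝ) = n * (n + 1) / 2 := by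
    have := Finset.sum_range_id_mul_two (n + 1)
    have h3 : ((∑ i ∈ range (n + 1), i : ℕ) : ℝ) * 2 = (((n + 1) * (n + 1 - 1) : ℕ) : ℝ) := by
      exact_mod_cast this
    rw [Nat.add_sub_cancel] at h3
    push_cast at h3
    linarith
  have key : ∑ q ∈ range (n + 1), ((R / l1 - q * (l2 / l1)) - Int.fract (R / l1 - q * (l2 / l1))) =
      (R ^ 2 / (2 * l1 * l2) + R / (2 * l1) - R / (2 * l2)) +
      (l2 / l1 * (f * (1 - f) / 2) - (1 - f) / 2) -
      ∑ q ∈ range (n + 1), (Int.fract (R / l1 - q * (l2 / l1)) - 1 / 2) := by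
    rw [sum_sub_distrib, sum_sub_distrib, sum_sub_distrib, ← sum_mul, hsum]
    simp only [sum_const, card_range, nsmul_eq_mul]
    push_cast
    rw [hRf]
    field_simp
    ring
  rw [key]
  have hq : |l2 / l1 * (f * (1 - f) / 2) - (1 - f) / 2| ≤ l2 / l1 + 1 := by
    have hpos : 0 < l2 / l1 := by positivity
    have hff : 0 ≤ f * (1 - f) := mul_nonneg hf0 (by linarith)
    have hff1 : f * (1 - f) ≤ 1 := by nlinarith
    rw [abs_le]
    constructor
    · nlinarith [mul_nonneg hpos.le hff]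
    · nlinarith [mul_nonneg hpos.le (sub_nonneg.2 hff1)]
  set S := ∑ q ∈ range (n + 1), (Int.fract (R / l1 - q * (l2 / l1)) - 1 / 2)
  have : (R ^ 2 / (2 * l1 * l2) + R / (2 * l1) - R / (2 * l2)) +
      (l2 / l1 * (f * (1 - f) / 2) - (1 - f) / 2) - S -
      (R ^ 2 / (2 * l1 * l2) + R / (2 * l1) - R / (2 * l2)) =
      (l2 / l1 * (f * (1 - f) / 2) - (1 - f) / 2) - S := by ring
  rw [this]
  exact (abs_sub _ _).trans (by linarith)

/-- the linear count with a Diophantine condition. -/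
lemma lin_err (l1 l2 R δ : ℝ) (Q : ℕ) (h1 : 0 < l1) (h2 : 0 < l2) (hR : 0 ≤ R) (hδ : 0 < δ)
    (hQ : 1 ≤ Q)
    (dio : ∀ s : ℕ, 1 ≤ s → ∀ a : ℤ, δ / (s : ℝ) ^ 2 ≤ |s * l2 - a * l1|) :
    |((LinSet l1 l2 R).ncard : ℝ) - (R ^ 2 / (2 * l1 * l2) + R / (2 * l1) - R / (2 * l2))| ≤
      l2 / l1 + 1 + 5 / 2 * ((R / l2 + 1) * √(l1 / (δ * Q))) + Q / 2 := by
  refine (lin_main l1 l2 R h1 h2 hR).trans ?_
  obtain ⟨r, hr1, hr2⟩ := Real.exists_rat_abs_sub_le_and_den_le (l2 / l1) (n := Q) (by omega)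
  have hs : 1 ≤ r.den := r.den_pos
  have hs0 : (0 : ℝ) < r.den := by exact_mod_cast hs
  have hsQ : (r.den : ℝ) ≤ Q := by exact_mod_cast hr2
  have hQ0 : (0 : ℝ) < Q := by exact_mod_cast hQ
  have hcast : (r : ℝ) = (r.num : ℝ) / (r.den : ℝ) := Rat.cast_def r
  rw [hcast] at hr1
  have hcop : IsCoprime r.num (r.den : ℤ) := by
    rw [Int.isCoprime_iff_gcd_eq_one]
    have := r.reduced
    rw [Int.gcd_eq_natAbs]
    simpa using this
  have hα : |l2 / l1 - r.num / r.den| ≤ 1 / (r.den : ℝ) ^ 2 := by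
    refine hr1.trans ?_
    apply one_div_le_one_div_of_le (by positivity)
    nlinarith
  have hψ := psi_sum' r.den hs r.num hcop (l2 / l1) hα (R / l1) (⌊R / l2⌋₊ + 1)
  have hd := dio r.den hs r.num
  have e1 : |(r.den : ℝ) * l2 - r.num * l1| = r.den * l1 * |l2 / l1 - r.num / r.den| := by
    have e2 : (r.den : ℝ) * l2 - r.num * l1 = (r.den * l1) * (l2 / l1 - r.num / r.den) := by
      field_simp
    rw [e2, abs_mul, abs_of_pos (mul_pos hs0 h1)]
  have hd2 : δ / (r.den : ℝ) ^ 2 ≤ l1 / Q := by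
    refine hd.trans ?_
    rw [e1]
    calc (r.den : ℝ) * l1 * |l2 / l1 - r.num / r.den|
        ≤ r.den * l1 * (1 / ((Q + 1) * r.den)) := by gcongr
      _ = l1 / (Q + 1) := by field_simp
      _ ≤ l1 / Q := by gcongr; linarith
  have hinv : 1 / (r.den : ℝ) ≤ √(l1 / (δ * Q)) := by
    apply Real.le_sqrt_of_sq_le
    rw [div_pow, one_pow]
    rw [div_le_iff₀ (by positivity)] at hd2
    rw [div_le_div_iff₀ (by positivity) (by positivity), one_mul]
    have : l1 / Q * (r.den : ℝ) ^ 2 * Q = l1 * (r.den : ℝ) ^ 2 := by field_simp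
    nlinarith
  have hN : ((⌊R / l2⌋₊ + 1 : ℕ) : ℝ) ≤ R / l2 + 1 := by
    push_cast
    have := Nat.floor_le (a := R / l2) (by positivity)
    linarith
  have hN0 : (0 : ℝ) ≤ ((⌊R / l2⌋₊ + 1 : ℕ) : ℝ) := Nat.cast_nonneg _
  have h5 : ((⌊R / l2⌋₊ + 1 : ℕ) : ℝ) / r.den ≤ (R / l2 + 1) * √(l1 / (δ * Q)) := by
    rw [div_eq_mul_one_div]
    exact mul_le_mul hN hinv (by positivity) (by positivity)
  linarith

end Pool.Agent.helper72.Sq
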