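import Pool.Agent.helper72.SqB
import Pool.Agent.helper72.SqD

/-!
The counting function of a cone and its decomposition along the tree.
-/

set_option autoImplicit false

namespace Pool.Agent.helper72.Sq

open Real

/-- points of the half-open cone of length at most `R`. -/
def HS (P : Tri) (R : ℝ) : Set (ℕ × ℕ) := {pq | 1 ≤ pq.1 ∧ Lam P pq.1 pq.2 ≤ R}

/-- the counting function of the half-open cone. -/
noncomputable def H (P : Tri) (R : ℝ) : ℝ := ((HS P R).ncard : ℝ)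

lemma HS_split (P : Tri) (R : ℝ) :
    HS P R = (fun x : ℕ × ℕ => (x.1 + x.2, x.2)) '' (HS (Lm P) R) ∪
      (fun x : ℕ × ℕ => (x.1, x.1 + x.2)) '' (HS (Rm P) R) := by
  ext ⟨p, q⟩
  simp only [HS, Set.mem_ofPred_eq, Set.mem_union, Set.mem_image, Prod.mk.injEq, Prod.exists]
  constructor
  · rintro ⟨hp, h⟩
    rcases lt_or_ge q p with hqp | hqp
    · left
      obtain ⟨p', rfl⟩ := Nat.exists_eq_add_of_lt hqp
      refine ⟨p' + 1, q, ⟨by omega, ?_⟩, by ring, rfl⟩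
      rw [← Lam_L _ _ _ (by omega)]
      rwa [show p' + 1 + q = q + p' + 1 by ring]
    · right
      obtain ⟨q', rfl⟩ := Nat.exists_eq_add_of_le hqp
      refine ⟨p, q', ⟨hp, ?_⟩, rfl, rfl⟩
      rwa [← Lam_R _ _ _ hp]
  · rintro (⟨a, b, ⟨ha, h⟩, rfl, rfl⟩ | ⟨a, b, ⟨ha, h⟩, rfl, rfl⟩)
    · exact ⟨by omega, by rwa [Lam_L _ _ _ ha]⟩
    · exact ⟨by omega, by rwa [Lam_R _ _ _ ha]⟩

lemma HS_finite_of (P : Tri) (R : ℝ) (h1 : (HS (Lm P) R).Finite) (h2 : (HS (Rm P) R).Finite) :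
    (HS P R).Finite := by
  rw [HS_split]
  exact (h1.image _).union (h2.image _)

lemma H_split (P : Tri) (R : ℝ) (h1 : (HS (Lm P) R).Finite) (h2 : (HS (Rm P) R).Finite) :
    H P R = H (Lm P) R + H (Rm P) R := by
  unfold H
  rw [HS_split, Set.ncard_union_eq _ (h1.image _) (h2.image _), Set.ncard_image_of_injective,
    Set.ncard_image_of_injective]
  · push_cast; ring
  · rintro ⟨a, b⟩ ⟨c, d⟩ h
    simp only [Prod.mk.injEq] at h ⊢
    omega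
  · rintro ⟨a, b⟩ ⟨c, d⟩ h
    simp only [Prod.mk.injEq] at h ⊢
    omega
  · rw [Set.disjoint_left]
    rintro ⟨p, q⟩ ⟨⟨a, b⟩, ⟨ha, _⟩, h⟩ ⟨⟨c, d⟩, ⟨hc, _⟩, h'⟩
    simp only [Prod.mk.injEq] at h h' ha hc
    omega

lemma HS_subset_ltau {P : Tri} (h : Gr P) (R : ℝ) :
    HS P R ⊆ LinSet (ltau P.1) (ltau P.2.1) R := by
  rintro ⟨p, q⟩ ⟨hp, hL⟩
  exact ⟨hp, (Lam_ge_ltau P p q hp h).trans hL⟩

lemma HS_finite {P : Tri} (h : Gr P) (R : ℝ) : (HS P R).Finite :=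
  (LinSet_finite _ _ R (ltau_pos h.x2) (ltau_pos h.y2)).subset (HS_subset_ltau h R)

lemma LinSet_subset_HS {P : Tri} (h : Gr P) (R : ℝ) :
    LinSet (len P.1) (len P.2.1) R ⊆ HS P R := by
  rintro ⟨p, q⟩ ⟨hp, hL⟩
  exact ⟨hp, (Lam_le P p q hp h).trans hL⟩

/-- the count with the linear terms removed. -/
noncomputable def Ht (P : Tri) (R : ℝ) : ℝ := H P R - R / (2 * len P.1) + R / (2 * len P.2.1)

lemma Ht_split {P : Tri} (R : ℝ) (h1 : (HS (Lm P) R).Finite) (h2 : (HS (Rm P) R).Finite) :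
    Ht P R = Ht (Lm P) R + Ht (Rm P) R := by
  unfold Ht
  rw [H_split P R h1 h2]
  simp only [Lm, Rm]
  ring

/-- the node of the tree of bases indexed by `(m1, m2)` coprime. -/
noncomputable def node (P : Tri) (m1 m2 : ℕ) : Tri :=
  if m1 = 0 ∨ m2 = 0 ∨ m1 = m2 then P
  else if m1 < m2 then Lm (node P m1 (m2 - m1))
  else Rm (node P (m1 - m2) m2)
termination_by m1 + m2
decreasing_by all_goals omega

lemma node_one (P : Tri) : node P 1 1 = P := by rw [node]; simp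

lemma node_L (P : Tri) (m1 m2 : ℕ) (h1 : 1 ≤ m1) (h2 : 1 ≤ m2) :
    node P m1 (m1 + m2) = Lm (node P m1 m2) := by
  rw [node, if_neg (by omega), if_pos (by omega), Nat.add_sub_cancel_left]

lemma node_R (P : Tri) (m1 m2 : ℕ) (h1 : 1 ≤ m1) (h2 : 1 ≤ m2) :
    node P (m1 + m2) m2 = Rm (node P m1 m2) := by
  rw [node, if_neg (by omega), if_neg (by omega), Nat.add_sub_cancel]

/-- induction over coprime pairs. -/
theorem cop_ind {C : ℕ → ℕ → Prop} (h0 : C 1 1)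
    (hL : ∀ m1 m2, 1 ≤ m1 → 1 ≤ m2 → Nat.Coprime m1 m2 → C m1 m2 → C m1 (m1 + m2))
    (hR : ∀ m1 m2, 1 ≤ m1 → 1 ≤ m2 → Nat.Coprime m1 m2 → C m1 m2 → C (m1 + m2) m2) :
    ∀ m1 m2, 1 ≤ m1 → 1 ≤ m2 → Nat.Coprime m1 m2 → C m1 m2 := by
  have key : ∀ n : ℕ, ∀ m1 m2, 1 ≤ m1 → 1 ≤ m2 → Nat.Coprime m1 m2 → m1 + m2 ≤ n → C m1 m2 := by
    intro n
    induction n with
    | zero => intro m1 m2 h1 h2 _ hn; omega
    | succ n ih =>
      intro m1 m2 h1 h2 hc hn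
      rcases lt_trichotomy m1 m2 with h | h | h
      · obtain ⟨k, rfl⟩ := Nat.exists_eq_add_of_lt h
        have hc' : Nat.Coprime m1 (k + 1) := by
          rw [show m1 + k + 1 = m1 + (k + 1) by ring, Nat.coprime_self_add_right] at hc
          exact hc
        exact hL m1 (k + 1) h1 (by omega) hc' (ih m1 (k + 1) h1 (by omega) hc' (by omega))
      · subst h
        have : m1 = 1 := by rwa [Nat.coprime_self] at hc
        subst this; exact h0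
      · obtain ⟨k, rfl⟩ := Nat.exists_eq_add_of_lt h
        have hc' : Nat.Coprime (k + 1) m2 := by
          rw [show m2 + k + 1 = (k + 1) + m2 by ring, Nat.coprime_add_self_left] at hc
          exact hc
        have := hR (k + 1) m2 (by omega) h2 hc' (ih (k + 1) m2 (by omega) h2 hc' (by omega))
        rwa [show k + 1 + m2 = m2 + k + 1 by ring] at this
  intro m1 m2 h1 h2 hc
  exact key (m1 + m2) m1 m2 h1 h2 hc le_rfl

/-- data attached to a node. -/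
structure ND (c c' k t0 : ℝ) (m1 m2 : ℕ) (P : Tri) : Prop where
  gr : Gr P
  hk : kap P ≤ k
  tx : t0 ≤ P.1
  ty : t0 ≤ P.2.1
  lx : c * m1 ≤ ltau P.1
  ly : c * m2 ≤ ltau P.2.1
  ux : len P.1 ≤ c' * m1
  uy : len P.2.1 ≤ c' * m2

lemma ND.L {c c' k t0 : ℝ} {m1 m2 : ℕ} {P : Tri} (h : ND c c' k t0 m1 m2 P) :
    ND c c' k t0 m1 (m1 + m2) (Lm P) := by
  refine ⟨h.gr.L, by rw [kap_Lm]; exact h.hk, h.tx, h.tx.trans h.gr.xz, h.lx, ?_, h.ux, ?_⟩
  · have := h.gr.ltau_z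
    have h1 := h.lx
    have h2 := h.ly
    simp only [Lm]; push_cast
    linarith
  · have := h.gr.len_z_le
    have h1 := h.ux
    have h2 := h.uy
    simp only [Lm]; push_cast
    linarith

lemma ND.R {c c' k t0 : ℝ} {m1 m2 : ℕ} {P : Tri} (h : ND c c' k t0 m1 m2 P) :
    ND c c' k t0 (m1 + m2) m2 (Rm P) := by
  refine ⟨h.gr.R, by rw [kap_Rm]; exact h.hk, h.tx.trans h.gr.xz, h.ty, ?_, h.ly, ?_, h.uy⟩
  · have := h.gr.ltau_z
    have h1 := h.lx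
    have h2 := h.ly
    simp only [Rm]; push_cast
    linarith
  · have := h.gr.len_z_le
    have h1 := h.ux
    have h2 := h.uy
    simp only [Rm]; push_cast
    linarith

lemma ND.node {c c' k t0 : ℝ} {P : Tri} (h : ND c c' k t0 1 1 P) :
    ∀ m1 m2, 1 ≤ m1 → 1 ≤ m2 → Nat.Coprime m1 m2 → ND c c' k t0 m1 m2 (node P m1 m2) := by
  apply cop_ind
  · rw [node_one]; exact h
  · intro m1 m2 h1 h2 _ ih
    rw [node_L _ _ _ h1 h2]; exact ih.L
  · intro m1 m2 h1 h2 _ ih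
    rw [node_R _ _ _ h1 h2]; exact ih.R

/-- Diophantine condition at a node. -/
def DioN (θ : ℝ) (m1 m2 : ℕ) (P : Tri) : Prop :=
  ∀ s : ℕ, 1 ≤ s → ∀ a : ℤ, θ / ((s : ℝ) ^ 2 * ((m1 : ℝ) * m2) ^ 3) ≤ |s * len P.2.1 - a * len P.1|

/-- Diophantine condition at all nodes. -/
def Dio (θ : ℝ) (P : Tri) : Prop :=
  ∀ m1 m2, 1 ≤ m1 → 1 ≤ m2 → Nat.Coprime m1 m2 → DioN θ m1 m2 (node P m1 m2)

/-- tree summation. -/
lemma tree_sum {c c' k t0 θ : ℝ} {P : Tri} (h : ND c c' k t0 1 1 P) (hD : Dio θ P)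
    (M : ℕ) (X E : ℝ) (hE : 0 ≤ E)
    (leaf : ∀ m1 m2, 1 ≤ m1 → 1 ≤ m2 → m1 ≤ M → m2 ≤ M → M ≤ m1 + m2 → ∀ Q,
      ND c c' k t0 m1 m2 Q → DioN θ m1 m2 Q → ∃ a : ℝ, ∀ R, 0 ≤ R → R ≤ X →
        |Ht Q R - a * R ^ 2| ≤ E) :
    ∀ n m1 m2 : ℕ, 1 ≤ m1 → 1 ≤ m2 → Nat.Coprime m1 m2 → m1 ≤ M → m2 ≤ M → M ≤ m1 + m2 + n →
      ∃ a : ℝ, ∀ R, 0 ≤ R → R ≤ X →
        |Ht (node P m1 m2) R - a * R ^ 2| ≤ (M : ℝ) ^ 2 / (m1 * m2) * E := by
  intro n
  induction n with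
  | zero =>
    intro m1 m2 h1 h2 hc hM1 hM2 hn
    obtain ⟨a, ha⟩ := leaf m1 m2 h1 h2 hM1 hM2 (by omega) _ (h.node m1 m2 h1 h2 hc)
      (hD m1 m2 h1 h2 hc)
    refine ⟨a, fun R hR0 hRX => (ha R hR0 hRX).trans ?_⟩
    have h1' : (1 : ℝ) ≤ m1 := by exact_mod_cast h1
    have h2' : (1 : ℝ) ≤ m2 := by exact_mod_cast h2
    have h3 : (m1 : ℝ) ≤ M := by exact_mod_cast hM1
    have h4 : (m2 : ℝ) ≤ M := by exact_mod_cast hM2
    have : 1 ≤ (M : ℝ) ^ 2 / (m1 * m2) := by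
      rw [le_div_iff₀ (by positivity), one_mul, sq]
      exact mul_le_mul h3 h4 (by positivity) (by linarith)
    nlinarith
  | succ n ih =>
    intro m1 m2 h1 h2 hc hM1 hM2 hn
    have h1' : (1 : ℝ) ≤ m1 := by exact_mod_cast h1
    have h2' : (1 : ℝ) ≤ m2 := by exact_mod_cast h2
    rcases le_or_gt M (m1 + m2) with hle | hlt
    · exact ih m1 m2 h1 h2 hc hM1 hM2 (by omega)
    · have hcL : Nat.Coprime m1 (m1 + m2) := by rwa [Nat.coprime_self_add_right]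
      have hcR : Nat.Coprime (m1 + m2) m2 := by rwa [Nat.coprime_add_self_left]
      obtain ⟨a, ha⟩ := ih m1 (m1 + m2) h1 (by omega) hcL hM1 (by omega) (by omega)
      obtain ⟨b, hb⟩ := ih (m1 + m2) m2 (by omega) h2 hcR (by omega) hM2 (by omega)
      refine ⟨a + b, fun R hR0 hRX => ?_⟩
      have ha' := ha R hR0 hRX
      have hb' := hb R hR0 hRX
      rw [node_L _ _ _ h1 h2] at ha'
      rw [node_R _ _ _ h1 h2] at hb'
      have hnd := h.node m1 m2 h1 h2 hc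
      rw [Ht_split R (HS_finite hnd.gr.L R) (HS_finite hnd.gr.R R)]
      have e1 : Ht (Lm (node P m1 m2)) R + Ht (Rm (node P m1 m2)) R - (a + b) * R ^ 2 =
        (Ht (Lm (node P m1 m2)) R - a * R ^ 2) + (Ht (Rm (node P m1 m2)) R - b * R ^ 2) := by ring
      rw [e1]
      refine (abs_add_le _ _).trans ((add_le_add ha' hb').trans (le_of_eq ?_))
      push_cast
      field_simp
      try ring

end Pool.Agent.helper72.Sq
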