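import Pool.Agent.helper72.SqE

/-!
The estimate at the leaves.
-/

set_option autoImplicit false

namespace Pool.Agent.helper72.Sq

open Real

lemma exp_poly (c : ℝ) (hc : 0 < c) (y : ℝ) (hy : 1 ≤ y) :
    exp (-(c * y)) * y ^ 48 ≤ (Nat.factorial 48 : ℝ) / c ^ 48 := by
  have h := Real.pow_div_factorial_le_exp (c * y) (by positivity) 48
  have hf : (0 : ℝ) < (Nat.factorial 48 : ℝ) := by exact_mod_cast Nat.factorial_pos 48
  rw [div_le_iff₀ hf] at h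
  rw [le_div_iff₀ (by positivity), exp_neg]
  have he := exp_pos (c * y)
  rw [mul_pow] at h
  rw [inv_mul_eq_div, div_mul_eq_mul_div, div_le_iff₀ he]
  linarith

lemma aux1 {c m l : ℝ} (hc : 0 < c) (hm : 1 ≤ m) (h : c * m ≤ l) : c ≤ l :=
  (le_mul_of_one_le_right hc.le hm).trans h

lemma aux2 {c' m y l : ℝ} (hc : 0 < c') (h : l ≤ c' * m) (hm : m ≤ 2 * y) : l ≤ 2 * c' * y := by
  have := mul_le_mul_of_nonneg_left hm hc.le
  linarith

lemma aux3 {m1 m2 y : ℝ} (h1 : 0 ≤ m1) (h2 : 0 ≤ m2) (hm1 : m1 ≤ 2 * y) (hm2 : m2 ≤ 2 * y) :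
    m1 * m2 ≤ 4 * y ^ 2 := by
  have := mul_le_mul hm1 hm2 h2 (h1.trans hm1)
  linarith

lemma aux4 {p q m2 c R L x y : ℝ} (h1 : 0 ≤ p * x) (h2 : q * (c * m2) ≤ q * y)
    (h3 : q * c * 1 ≤ q * c * m2) (h4 : p * x + q * y ≤ L) (h5 : L ≤ R) : q * c ≤ R := by
  have : q * (c * m2) = q * c * m2 := by ring
  linarith

lemma aux5 {c y m1 m2 l1 l2 : ℝ} (hc : 0 < c) (h : y ≤ m1 + m2) (h1 : c * m1 ≤ l1) (h2 : c * m2 ≤ l2) :
    -(l1 + l2) ≤ -(c * y) := by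
  have := mul_le_mul_of_nonneg_left h hc.le
  linarith

lemma aux6 {Y K c : ℝ} (hY : 1 ≤ Y) (hK : 0 ≤ K) (hc : 0 < c) :
    (2 * Y + K) / c ≤ ((2 + K) / c) * Y := by
  rw [div_mul_eq_mul_div]
  gcongr
  have := le_mul_of_one_le_right hK hY
  linarith

lemma aux7 {a b d e f Y S : ℝ} (h1 : a ≤ b * Y) (h2 : d ≤ Y) (h3 : e ≤ f * Y)
    (hY : 1 ≤ Y) (hS : S = (b + 1 + 5 / 2 * f + 1) * Y) : a + 1 + 5 / 2 * e + d ≤ S := by
  rw [hS]; nlinarith

lemma aux8 {c l1 l2 : ℝ} (hc : 0 < c) (h1 : c ≤ l1) (h2 : c ≤ l2) : 2 * c ^ 2 ≤ 2 * l1 * l2 := by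
  have := mul_le_mul h1 h2 hc.le (hc.le.trans h1)
  nlinarith

lemma leaf_est (c c' k t0 θ : ℝ) (hc : 0 < c) (hcc' : c ≤ c') (hk : 0 ≤ k) (ht0 : 2 < t0)
    (hθ : 0 < θ) :
    ∃ K : ℝ, 0 < K ∧ ∀ y : ℝ, 1 ≤ y → ∀ m1 m2 : ℕ, 1 ≤ m1 → 1 ≤ m2 → (m1 : ℝ) ≤ 2 * y →
      (m2 : ℝ) ≤ 2 * y → y ≤ (m1 : ℝ) + m2 → ∀ P, ND c c' k t0 m1 m2 P → DioN θ m1 m2 P →
      ∀ R, 0 ≤ R → R ≤ 2 * y ^ 24 →
        |Ht P R - (1 / (2 * len P.1 * len P.2.1)) * R ^ 2| ≤ K * y ^ 20 := by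
  have hL0 := len_pos ht0
  set cs := sinh (len t0 / 2) / exp (len t0 / 2) with hcs
  have hcs0 : 0 < cs := div_pos (sinh_pos_iff.2 (by linarith)) (exp_pos _)
  have hcs1 : cs * exp (len t0 / 2) ≤ sinh (len t0 / 2) := by
    rw [hcs, div_mul_cancel₀ _ (exp_pos _).ne']
  have hlt := ltau_pos ht0
  have hden : 0 < 1 - exp (-(ltau t0)) := by
    have : exp (-(ltau t0)) < 1 := exp_lt_one_iff.2 (by linarith)
    linarith
  set B := 2 * (k + 4) / cs ^ 3 / (1 - exp (-(ltau t0))) with hB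
  have hB0 : 0 ≤ B := by rw [hB]; positivity
  set K3 := (Nat.factorial 48 : ℝ) / c ^ 48 with hK3
  have hK30 : 0 ≤ K3 := by rw [hK3]; positivity
  set K4 := 2 * B * K3 / c with hK4
  have hK40 : 0 ≤ K4 := by rw [hK4]; positivity
  set K1 := √(128 * c' / θ) with hK1
  have hK10 : 0 ≤ K1 := Real.sqrt_nonneg _
  have hc'0 : 0 < c' := hc.trans_le hcc'
  have hK1sq : K1 ^ 2 = 128 * c' / θ := Real.sq_sqrt (by positivity)
  refine ⟨(2 * c' / c + 1) + 5 / 2 * (((2 + K4) / c + 1) * K1) + 1 +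
    ((4 * K4 + K4 ^ 2) / (2 * c ^ 2) + K4 / c), by positivity, ?_⟩
  intro y hy m1 m2 h1 h2 hm1 hm2 hm P hP hDio R hR0 hRX
  have y0 : 0 < y := by linarith
  have h1' : (1 : ℝ) ≤ m1 := by exact_mod_cast h1
  have h2' : (1 : ℝ) ≤ m2 := by exact_mod_cast h2
  have hy20 : 1 ≤ y ^ 20 := one_le_pow₀ hy
  have hy24 : 1 ≤ y ^ 24 := one_le_pow₀ hy
  -- leg lengths
  set l1 := len P.1 with hl1
  set l2 := len P.2.1 with hl2
  have hl1c : c * m1 ≤ l1 := hP.lx.trans (ltau_le_len hP.gr.x2.le)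
  have hl2c : c * m2 ≤ l2 := hP.ly.trans (ltau_le_len hP.gr.y2.le)
  have hl1c1 : c ≤ l1 := aux1 hc h1' hl1c
  have hl2c1 : c ≤ l2 := aux1 hc h2' hl2c
  have hl10 : 0 < l1 := hc.trans_le hl1c1
  have hl20 : 0 < l2 := hc.trans_le hl2c1
  have hl1u : l1 ≤ 2 * c' * y := aux2 hc'0 hP.ux hm1
  have hl2u : l2 ≤ 2 * c' * y := aux2 hc'0 hP.uy hm2
  -- the nonlinearity
  set η := B * (2 * y ^ 24 / c) * exp (-(c * y)) with hη
  have hη0 : 0 ≤ η := by rw [hη]; positivity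
  have hηy : η * y ^ 24 ≤ K4 := by
    have h := exp_poly c hc y hy
    calc η * y ^ 24 = 2 * B / c * (exp (-(c * y)) * y ^ 48) := by rw [hη]; ring
      _ ≤ 2 * B / c * K3 := by gcongr
      _ = K4 := by rw [hK4]; ring
  have hηK : η ≤ K4 := by
    have : η * 1 ≤ η * y ^ 24 := mul_le_mul_of_nonneg_left hy24 hη0
    linarith
  have hsub : HS P R ⊆ LinSet l1 l2 (R + η) := by
    rintro ⟨p, q⟩ ⟨hp, hL⟩
    refine ⟨hp, ?_⟩
    have hA := Lam_ge cs k t0 hcs0 ht0 hcs1 P p q hp hP.gr hP.tx hP.ty hP.hk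
    have hBq := Lam_ge_ltau P p q hp hP.gr
    simp only at hL hp ⊢
    have hlt1 := ltau_pos hP.gr.x2
    have hq : (q : ℝ) * c ≤ R := by
      have e1 : (0 : ℝ) ≤ p * ltau P.1 := by positivity
      have e2 : (q : ℝ) * (c * m2) ≤ q * ltau P.2.1 :=
        mul_le_mul_of_nonneg_left hP.ly (Nat.cast_nonneg q)
      have e3 : (q : ℝ) * c * 1 ≤ q * c * m2 := by
        apply mul_le_mul_of_nonneg_left h2' (by positivity)
      exact aux4 e1 e2 e3 hBq hL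
    have hq2 : (q : ℝ) ≤ 2 * y ^ 24 / c := by
      rw [le_div_iff₀ hc]; linarith
    have hexp : exp (-(l1 + l2)) ≤ exp (-(c * y)) := by
      exact exp_le_exp.2 (aux5 hc hm hl1c hl2c)
    have : B * q * exp (-(l1 + l2)) ≤ η := by
      rw [hη]
      apply mul_le_mul _ hexp (exp_pos _).le (by positivity)
      exact mul_le_mul_of_nonneg_left hq2 hB0
    rw [← hl1, ← hl2, ← hB] at hA
    linarith
  -- counts
  have hfinR := LinSet_finite l1 l2 (R + η) hl10 hl20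
  have hN1 : H P R ≤ ((LinSet l1 l2 (R + η)).ncard : ℝ) := by
    unfold H
    exact_mod_cast Set.ncard_le_ncard hsub hfinR
  have hN2 : ((LinSet l1 l2 R).ncard : ℝ) ≤ H P R := by
    unfold H
    exact_mod_cast Set.ncard_le_ncard (LinSet_subset_HS hP.gr R) (HS_finite hP.gr R)
  -- linear estimates
  set δ := θ / ((m1 : ℝ) * m2) ^ 3 with hδ
  have hδ0 : 0 < δ := by rw [hδ]; positivity
  set Q := ⌈y ^ 16⌉₊ with hQ
  have hQ1 : y ^ 16 ≤ Q := Nat.le_ceil _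
  have hQ2 : (Q : ℝ) ≤ 2 * y ^ 16 := by
    have := (Nat.ceil_lt_add_one (a := y ^ 16) (by positivity)).le
    have h16 : 1 ≤ y ^ 16 := one_le_pow₀ hy
    linarith
  have hQ0 : 1 ≤ Q := by
    have h16 : 1 ≤ y ^ 16 := one_le_pow₀ hy
    have : (1 : ℝ) ≤ Q := h16.trans hQ1
    exact_mod_cast this
  have hdio : ∀ s : ℕ, 1 ≤ s → ∀ a : ℤ, δ / (s : ℝ) ^ 2 ≤ |s * l2 - a * l1| := by
    intro s hs a
    refine le_trans (le_of_eq ?_) (hDio s hs a)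
    rw [hδ]; field_simp
  have hsqrt : √(l1 / (δ * Q)) ≤ K1 / y ^ 4 := by
    rw [Real.sqrt_le_iff]
    refine ⟨by positivity, ?_⟩
    rw [div_pow, hK1sq, ← pow_mul]
    have hm3 : ((m1 : ℝ) * m2) ^ 3 ≤ (4 * y ^ 2) ^ 3 := by
      apply pow_le_pow_left₀ (by positivity)
      exact aux3 (by positivity) (by positivity) hm1 hm2
    have e1 : l1 / (δ * Q) = l1 * ((m1 : ℝ) * m2) ^ 3 / (θ * Q) := by
      rw [hδ]; field_simp
    rw [e1, div_div, div_le_div_iff₀ (by positivity) (by positivity)]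
    have e2 : l1 * ((m1 : ℝ) * m2) ^ 3 ≤ (2 * c' * y) * (4 * y ^ 2) ^ 3 :=
      mul_le_mul hl1u hm3 (by positivity) (by positivity)
    have e3 : l1 * ((m1 : ℝ) * m2) ^ 3 * (θ * y ^ (4 * 2)) ≤
        (2 * c' * y) * (4 * y ^ 2) ^ 3 * (θ * y ^ (4 * 2)) :=
      mul_le_mul_of_nonneg_right e2 (by positivity)
    have e4 : (2 * c' * y) * (4 * y ^ 2) ^ 3 * (θ * y ^ (4 * 2)) = 128 * c' * θ * y ^ 15 := by ring
    have e5 : y ^ 15 ≤ y ^ 16 := pow_le_pow_right₀ hy (by norm_num)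
    have e6 : 128 * c' * θ * y ^ 15 ≤ 128 * c' * (θ * Q) := by
      have : 128 * c' * θ * y ^ 15 ≤ 128 * c' * θ * Q :=
        mul_le_mul_of_nonneg_left (e5.trans hQ1) (by positivity)
      linarith
    linarith
  have herr : ∀ R', 0 ≤ R' → R' ≤ 2 * y ^ 24 + K4 →
      |((LinSet l1 l2 R').ncard : ℝ) - (R' ^ 2 / (2 * l1 * l2) + R' / (2 * l1) - R' / (2 * l2))| ≤
      ((2 * c' / c + 1) + 5 / 2 * (((2 + K4) / c + 1) * K1) + 1) * y ^ 20 := by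
    intro R' hR'0 hR'X
    refine (lin_err l1 l2 R' δ Q hl10 hl20 hR'0 hδ0 hQ0 hdio).trans ?_
    have a1 : l2 / l1 ≤ 2 * c' / c * y ^ 20 := by
      rw [div_le_iff₀ hl10]
      have b1 : y ≤ y ^ 20 := le_self_pow₀ hy (by norm_num)
      have b2 : 2 * c' / c * y ^ 20 * l1 ≥ 2 * c' / c * y ^ 20 * c := by gcongr
      have b3 : 2 * c' / c * y ^ 20 * c = 2 * c' * y ^ 20 := by field_simp
      have b4 : 2 * c' * y ≤ 2 * c' * y ^ 20 := by gcongr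
      linarith
    have a2 : (Q : ℝ) / 2 ≤ y ^ 20 := by
      have b1 : y ^ 16 ≤ y ^ 20 := pow_le_pow_right₀ hy (by norm_num)
      linarith
    have a3 : (R' / l2 + 1) * √(l1 / (δ * Q)) ≤ (((2 + K4) / c + 1) * K1) * y ^ 20 := by
      have b1 : R' / l2 + 1 ≤ ((2 + K4) / c + 1) * y ^ 24 := by
        have d1 : R' / l2 ≤ (2 * y ^ 24 + K4) / c := by gcongr
        have d2 : (2 * y ^ 24 + K4) / c ≤ ((2 + K4) / c) * y ^ 24 := aux6 hy24 hK40 hc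
        linarith
      calc (R' / l2 + 1) * √(l1 / (δ * Q)) ≤ (((2 + K4) / c + 1) * y ^ 24) * (K1 / y ^ 4) := by
            apply mul_le_mul b1 hsqrt (Real.sqrt_nonneg _) (by positivity)
        _ = (((2 + K4) / c + 1) * K1) * y ^ 20 := by field_simp
    exact aux7 a1 a2 a3 hy20 rfl
  have hup := herr (R + η) (by linarith) (by linarith)
  have hlo := herr R hR0 (by linarith)
  set E := ((2 * c' / c + 1) + 5 / 2 * (((2 + K4) / c + 1) * K1) + 1) * y ^ 20 with hE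
  set U := (LinSet l1 l2 (R + η)).ncard
  set V := (LinSet l1 l2 R).ncard
  -- difference of main terms
  have hmain : (R + η) ^ 2 / (2 * l1 * l2) + (R + η) / (2 * l1) - (R + η) / (2 * l2) ≤
      R ^ 2 / (2 * l1 * l2) + R / (2 * l1) - R / (2 * l2) +
        ((4 * K4 + K4 ^ 2) / (2 * c ^ 2) + K4 / c) := by
    have hRη : R * η ≤ 2 * K4 := by
      calc R * η ≤ 2 * y ^ 24 * η := by gcongr
        _ = 2 * (η * y ^ 24) := by ring
        _ ≤ 2 * K4 := by linarith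
    have a1 : (2 * (R * η) + η ^ 2) / (2 * l1 * l2) ≤ (4 * K4 + K4 ^ 2) / (2 * c ^ 2) := by
      have b1 : 2 * (R * η) + η ^ 2 ≤ 4 * K4 + K4 ^ 2 := by
        have : η ^ 2 ≤ K4 ^ 2 := pow_le_pow_left₀ hη0 hηK 2
        linarith
      have b2 : 2 * c ^ 2 ≤ 2 * l1 * l2 := aux8 hc hl1c1 hl2c1
      have b3 : 0 ≤ 2 * (R * η) + η ^ 2 := by positivity
      gcongr
    have a2 : η / (2 * l1) ≤ K4 / c := by
      apply div_le_div₀ hK40 hηK hc
      linarith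
    have a3 : 0 ≤ η / (2 * l2) := by positivity
    have a4 : (R + η) ^ 2 / (2 * l1 * l2) + (R + η) / (2 * l1) - (R + η) / (2 * l2) =
      R ^ 2 / (2 * l1 * l2) + R / (2 * l1) - R / (2 * l2) + ((2 * (R * η) + η ^ 2) / (2 * l1 * l2) +
        η / (2 * l1) - η / (2 * l2)) := by ring
    rw [a4]
    linarith
  set G := (4 * K4 + K4 ^ 2) / (2 * c ^ 2) + K4 / c with hG
  have hG0 : 0 ≤ G := by rw [hG]; positivity
  have hfinal : |Ht P R - (1 / (2 * l1 * l2)) * R ^ 2| ≤ E + G := by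
    have e0 : Ht P R - (1 / (2 * l1 * l2)) * R ^ 2 =
      H P R - (R ^ 2 / (2 * l1 * l2) + R / (2 * l1) - R / (2 * l2)) := by
      unfold Ht; rw [← hl1, ← hl2]; ring
    rw [e0, abs_le]
    have u1 := (abs_le.1 hup).2
    have u2 := (abs_le.1 hlo).1
    constructor <;> linarith
  refine hfinal.trans ?_
  have : G ≤ G * y ^ 20 := le_mul_of_one_le_right hG0 hy20
  rw [hE, add_mul _ G]
  linarith

end Pool.Agent.helper72.Sq
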