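import Pool.Agent.helper72.SqF

/-!
From the leaves to the asymptotics of the count in a cone.
-/

set_option autoImplicit false

namespace Pool.Agent.helper72.Sq

open Real Filter Topology

lemma ND_root {P : Tri} (h : Gr P) :
    ND (min (ltau P.1) (ltau P.2.1)) (max (len P.1) (len P.2.1)) (kap P) (min P.1 P.2.1) 1 1 P := by
  refine ⟨h, le_rfl, min_le_left _ _, min_le_right _ _, ?_, ?_, ?_, ?_⟩
  · simp
  · simp
  · simp
  · simp

lemma root_est {P : Tri} (h : Gr P) {θ : ℝ} (hθ : 0 < θ) (hD : Dio θ P) :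
    ∃ K : ℝ, 0 < K ∧ ∀ y : ℝ, 1 ≤ y → ∃ a : ℝ, ∀ R, 0 ≤ R → R ≤ 2 * y ^ 24 →
      |Ht P R - a * R ^ 2| ≤ K * y ^ 22 := by
  have hroot := ND_root h
  set c := min (ltau P.1) (ltau P.2.1) with hc
  set c' := max (len P.1) (len P.2.1) with hc'
  have hc0 : 0 < c := lt_min (ltau_pos h.x2) (ltau_pos h.y2)
  have hcc : c ≤ c' := (min_le_left _ _).trans ((ltau_le_len h.x2.le).trans (le_max_left _ _))
  obtain ⟨K, hK, hleaf⟩ := leaf_est c c' (kap P) (min P.1 P.2.1) θ hc0 hcc h.kpos.le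
    (lt_min h.x2 h.y2) hθ
  refine ⟨4 * K, by positivity, ?_⟩
  intro y hy
  have y0 : 0 < y := by linarith
  set M := ⌈y⌉₊ with hM
  have hM1 : y ≤ M := Nat.le_ceil _
  have hM2 : (M : ℝ) ≤ 2 * y := by
    have := (Nat.ceil_lt_add_one (a := y) (by positivity)).le
    linarith
  have hM0 : 1 ≤ M := by
    have : (1 : ℝ) ≤ M := hy.trans hM1
    exact_mod_cast this
  obtain ⟨a, ha⟩ := tree_sum hroot hD M (2 * y ^ 24) (K * y ^ 20) (by positivity) (by
    intro m1 m2 h1 h2 hm1 hm2 hm Q hQ hDQ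
    refine ⟨1 / (2 * len Q.1 * len Q.2.1), ?_⟩
    intro R hR0 hRX
    have e1 : (m1 : ℝ) ≤ M := by exact_mod_cast hm1
    have e2 : (m2 : ℝ) ≤ M := by exact_mod_cast hm2
    have e3 : (M : ℝ) ≤ (m1 : ℝ) + m2 := by exact_mod_cast hm
    exact hleaf y hy m1 m2 h1 h2 (e1.trans hM2) (e2.trans hM2) (hM1.trans e3) Q hQ hDQ R hR0 hRX)
    M 1 1 le_rfl le_rfl (by norm_num) hM0 hM0 (by omega)
  rw [node_one] at ha
  refine ⟨a, fun R hR0 hRX => (ha R hR0 hRX).trans ?_⟩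
  have : (M : ℝ) ^ 2 ≤ 4 * y ^ 2 := by
    have := pow_le_pow_left₀ (by positivity) hM2 2
    linarith
  calc (M : ℝ) ^ 2 / (((1 : ℕ) : ℝ) * ((1 : ℕ) : ℝ)) * (K * y ^ 20) = (M : ℝ) ^ 2 * (K * y ^ 20) := by simp
    _ ≤ 4 * y ^ 2 * (K * y ^ 20) := by gcongr
    _ = 4 * K * y ^ 22 := by ring

/-- scale comparison: approximate quadratic behaviour at all scales gives an asymptotic. -/
lemma cauchy_scale (F : ℝ → ℝ) (K : ℝ) (hK : 0 < K)
    (h : ∀ y : ℝ, 1 ≤ y → ∃ a : ℝ, ∀ R, 0 ≤ R → R ≤ 2 * y ^ 24 → |F R - a * R ^ 2| ≤ K * y ^ 22) :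
    ∃ a K' : ℝ, 0 < K' ∧ ∀ R : ℝ, 1 ≤ R → |F R - a * R ^ 2| ≤ K' * R ^ (11 / 12 : ℝ) := by
  set g : ℝ := (2 : ℝ) ^ (1 / 24 : ℝ) with hg
  have hg0 : 0 < g := by positivity
  have hg1 : 1 ≤ g := Real.one_le_rpow (by norm_num) (by norm_num)
  have hg24 : g ^ 24 = 2 := by
    rw [hg, ← Real.rpow_natCast, ← Real.rpow_mul (by norm_num)]
    norm_num
  have hg22 : g ^ 22 ≤ 2 := by
    rw [← hg24]; exact pow_le_pow_right₀ hg1 (by norm_num)
  have hg22' : 0 < g ^ 22 := by positivity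
  have hy : ∀ n : ℕ, 1 ≤ g ^ n := fun n => one_le_pow₀ hg1
  choose a ha using fun n : ℕ => h (g ^ n) (hy n)
  have hyn : ∀ n : ℕ, (g ^ n) ^ 24 = 2 ^ n := fun n => by rw [← pow_mul, mul_comm, pow_mul, hg24]
  have hyn2 : ∀ n : ℕ, (g ^ n) ^ 22 = (g ^ 22) ^ n := fun n => by
    rw [← pow_mul, mul_comm, pow_mul]
  simp only [hyn, hyn2] at ha
  set r := g ^ 22 / 4 with hr
  have hr0 : 0 < r := by rw [hr]; positivity
  have hr1 : r ≤ 1 / 2 := by rw [hr]; linarith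
  have hstep : ∀ n, dist (a n) (a (n + 1)) ≤ K * r ^ n := by
    intro n
    have p1 : (0 : ℝ) < 2 ^ n := by positivity
    have h1 := ha n (2 * 2 ^ n) (by positivity) le_rfl
    have h2 := ha (n + 1) (2 * 2 ^ n) (by positivity) (by rw [pow_succ]; linarith)
    rw [Real.dist_eq]
    have h3 : |a n - a (n + 1)| * (2 * 2 ^ n) ^ 2 ≤ K * (g ^ 22) ^ n + K * (g ^ 22) ^ (n + 1) := by
      have e : |a n - a (n + 1)| * (2 * 2 ^ n) ^ 2 =
          |(F (2 * 2 ^ n) - a (n + 1) * (2 * 2 ^ n) ^ 2) - (F (2 * 2 ^ n) - a n * (2 * 2 ^ n) ^ 2)| := by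
        rw [← abs_of_nonneg (show (0 : ℝ) ≤ (2 * 2 ^ n) ^ 2 by positivity), ← abs_mul,
          abs_of_nonneg (show (0 : ℝ) ≤ (2 * 2 ^ n) ^ 2 by positivity)]
        congr 1; ring
      rw [e]
      exact (abs_sub _ _).trans (by linarith)
    have h4 : K * (g ^ 22) ^ n + K * (g ^ 22) ^ (n + 1) ≤ 4 * K * (g ^ 22) ^ n := by
      rw [pow_succ (g ^ 22) n]
      have : (g ^ 22) ^ n * g ^ 22 ≤ (g ^ 22) ^ n * 2 := by gcongr
      nlinarith [mul_le_mul_of_nonneg_left this hK.le, mul_pos hK (pow_pos hg22' n)]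
    have h5 : (2 * (2 : ℝ) ^ n) ^ 2 = 4 * 4 ^ n := by
      rw [mul_pow, ← pow_mul, mul_comm n 2, pow_mul]; norm_num
    have h6 : |a n - a (n + 1)| * (4 * 4 ^ n) ≤ 4 * K * (g ^ 22) ^ n := by
      rw [← h5]; exact h3.trans h4
    have h7 : r ^ n = (g ^ 22) ^ n / 4 ^ n := by rw [hr, div_pow]
    rw [h7, ← mul_div_assoc, le_div_iff₀ (by positivity)]
    linarith
  have hcau := cauchySeq_of_le_geometric r K (by linarith) hstep
  obtain ⟨A, hA⟩ := cauchySeq_tendsto_of_complete hcau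
  have hdist := dist_le_of_le_geometric_of_tendsto r K (by linarith) hstep hA
  refine ⟨A, 9 * K, by positivity, ?_⟩
  intro R hR
  obtain ⟨n, hn1, hn2⟩ := exists_nat_pow_near hR (by norm_num : (1 : ℝ) < 2)
  have h1 := ha n R (by linarith) (by rw [pow_succ] at hn2; linarith)
  have h2 := hdist n
  rw [Real.dist_eq] at h2
  have h3 : |a n - A| ≤ 2 * K * r ^ n := by
    refine h2.trans ?_
    rw [div_le_iff₀ (by linarith)]
    have : 0 < K * r ^ n := by positivity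
    nlinarith
  have h4 : |a n - A| * R ^ 2 ≤ 8 * K * (g ^ 22) ^ n := by
    have e1 : R ^ 2 ≤ 4 * 4 ^ n := by
      have : R ^ 2 ≤ (2 ^ (n + 1)) ^ 2 := pow_le_pow_left₀ (by linarith) hn2.le 2
      refine this.trans (le_of_eq ?_)
      rw [← pow_mul, mul_comm, pow_mul, pow_succ]; norm_num; ring
    have e2 : r ^ n * 4 ^ n = (g ^ 22) ^ n := by
      rw [← mul_pow, hr]; congr 1; ring
    calc |a n - A| * R ^ 2 ≤ (2 * K * r ^ n) * (4 * 4 ^ n) := by gcongr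
      _ = 8 * K * (r ^ n * 4 ^ n) := by ring
      _ = _ := by rw [e2]
  have h5 : (g ^ 22) ^ n ≤ R ^ (11 / 12 : ℝ) := by
    have : (g ^ 22) ^ n = ((2 : ℝ) ^ n) ^ (11 / 12 : ℝ) := by
      have e1 : (g ^ 22) ^ n = (2 : ℝ) ^ ((1 / 24 : ℝ) * ((22 * n : ℕ) : ℝ)) := by
        rw [← pow_mul, hg, Real.rpow_mul (by norm_num), Real.rpow_natCast]
      have e2 : ((2 : ℝ) ^ n) ^ (11 / 12 : ℝ) = (2 : ℝ) ^ ((n : ℝ) * (11 / 12 : ℝ)) := by
        rw [Real.rpow_mul (by norm_num), Real.rpow_natCast]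
      rw [e1, e2]
      congr 1
      push_cast
      ring
    rw [this]
    exact Real.rpow_le_rpow (by positivity) hn1 (by norm_num)
  have e : F R - A * R ^ 2 = (F R - a n * R ^ 2) + (a n - A) * R ^ 2 := by ring
  rw [e]
  refine (abs_add_le _ _).trans ?_
  rw [abs_mul, abs_of_nonneg (show 0 ≤ R ^ 2 by positivity)]
  nlinarith

/-- the counting function of the cone has an asymptotic with a power saving. -/
structure Good (P : Tri) : Prop where
  fin : ∀ R, (HS P R).Finite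
  est : ∃ a K : ℝ, 0 < K ∧ ∀ R : ℝ, 1 ≤ R → |Ht P R - a * R ^ 2| ≤ K * R ^ (11 / 12 : ℝ)

lemma Good_of_Dio {P : Tri} (h : Gr P) {θ : ℝ} (hθ : 0 < θ) (hD : Dio θ P) : Good P := by
  refine ⟨HS_finite h, ?_⟩
  obtain ⟨K, hK, h1⟩ := root_est h hθ hD
  exact cauchy_scale _ K hK h1

lemma Good_of_children {P : Tri} (hL : Good (Lm P)) (hR : Good (Rm P)) : Good P := by
  refine ⟨fun R => HS_finite_of P R (hL.fin R) (hR.fin R), ?_⟩
  obtain ⟨a, K, hK, ha⟩ := hL.est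
  obtain ⟨b, K', hK', hb⟩ := hR.est
  refine ⟨a + b, K + K', by positivity, fun R hR1 => ?_⟩
  rw [Ht_split R (hL.fin R) (hR.fin R)]
  have e1 : Ht (Lm P) R + Ht (Rm P) R - (a + b) * R ^ 2 =
    (Ht (Lm P) R - a * R ^ 2) + (Ht (Rm P) R - b * R ^ 2) := by ring
  rw [e1]
  refine (abs_add_le _ _).trans ((add_le_add (ha R hR1) (hb R hR1)).trans (le_of_eq ?_))
  ring

/-- admissible triples. -/
structure Adm (P : Tri) : Prop where
  x2 : 2 < P.1
  y2 : 2 < P.2.1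
  kpos : 0 < kap P

lemma Adm.z2 {P : Tri} (h : Adm P) : 2 < P.2.2 := by
  have hid := main_ident P h.x2.le h.y2.le
  have h1 := one_le_cosh (len P.1 / 2 - len P.2.1 / 2)
  have a1 := len_pos h.x2
  have a2 := len_pos h.y2
  have hs1 : 0 < sinh (len P.1 / 2) := sinh_pos_iff.2 (by linarith)
  have hs2 : 0 < sinh (len P.2.1 / 2) := sinh_pos_iff.2 (by linarith)
  have h2 : cosh (len P.1 / 2 - len P.2.1 / 2) < cosh (len P.1 / 2 + len P.2.1 / 2) := by
    rw [cosh_add, cosh_sub]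
    nlinarith [mul_pos hs1 hs2]
  have hk := h.kpos
  by_contra hcon
  push Not at hcon
  have h3 : P.2.2 - 2 * cosh (len P.1 / 2 - len P.2.1 / 2) ≤ 0 := by linarith
  have h4 : 0 ≤ 2 * cosh (len P.1 / 2 + len P.2.1 / 2) - P.2.2 := by linarith
  have := mul_nonpos_of_nonneg_of_nonpos h4 h3
  linarith

lemma Adm.L {P : Tri} (h : Adm P) : Adm (Lm P) :=
  ⟨h.x2, h.z2, by rw [kap_Lm]; exact h.kpos⟩

lemma Adm.R {P : Tri} (h : Adm P) : Adm (Rm P) :=
  ⟨h.z2, h.y2, by rw [kap_Rm]; exact h.kpos⟩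

lemma Adm.disc {P : Tri} (h : Adm P) : 16 < (P.1 ^ 2 - 4) * (P.2.1 ^ 2 - 4) := by
  have hk := h.kpos
  unfold kap at hk
  nlinarith [sq_nonneg (P.1 * P.2.1 - 2 * P.2.2)]

/-- words in the two moves. -/
noncomputable def desc : List Bool → Tri → Tri
  | [], P => P
  | true :: w, P => desc w (Lm P)
  | false :: w, P => desc w (Rm P)

/-- every growing descendant satisfies a Diophantine condition. -/
def AllDio (P : Tri) : Prop := ∀ w : List Bool, Gr (desc w P) → ∃ θ : ℝ, 0 < θ ∧ Dio θ (desc w P)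

lemma AllDio.L {P : Tri} (h : AllDio P) : AllDio (Lm P) := fun w => h (true :: w)
lemma AllDio.R {P : Tri} (h : AllDio P) : AllDio (Rm P) := fun w => h (false :: w)

lemma Good_of_AllDio_aux (M0 ρ : ℝ) (hρ0 : 0 < ρ)
    (hρ : ∀ P : Tri, Adm P → P.1 ≤ M0 → P.2.1 ≤ M0 → 2 ≤ ρ * P.1 ∧ 2 ≤ ρ * P.2.1) :
    ∀ n : ℕ, ∀ P : Tri, Adm P → P.1 ≤ M0 → P.2.1 ≤ M0 → P.1 * P.2.1 * ρ ^ n ≤ 4 → AllDio P →
      Good P := by
  intro n
  induction n with
  | zero =>
    intro P hP _ _ h4 _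
    exfalso
    have := hP.x2
    have := hP.y2
    nlinarith
  | succ n ih =>
    intro P hP hx hy h4 hAll
    have hx2 := hP.x2
    have hy2 := hP.y2
    have hz2 := hP.z2
    have hGood : ∀ Q : Tri, Adm Q → AllDio Q → Q.1 * Q.2.1 ≤ 2 * Q.2.2 → Good Q := by
      intro Q hQ hAllQ hzQ
      obtain ⟨θ, hθ, hD⟩ := hAllQ [] ⟨hQ.x2, hQ.y2, hQ.kpos, hzQ⟩
      exact Good_of_Dio ⟨hQ.x2, hQ.y2, hQ.kpos, hzQ⟩ hθ hD
    by_cases hz : P.1 * P.2.1 ≤ 2 * P.2.2
    · exact hGood P hP hAll hz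
    · push Not at hz
      have hρP := hρ P hP hx hy
      apply Good_of_children
      · by_cases hzL : (Lm P).1 * (Lm P).2.1 ≤ 2 * (Lm P).2.2
        · exact hGood _ hP.L hAll.L hzL
        · push Not at hzL
          simp only [Lm] at hzL
          have hxz : P.1 * P.2.2 < 2 * P.2.1 := by linarith
          refine ih (Lm P) hP.L hx ?_ ?_ hAll.L
          · simp only [Lm]; nlinarith
          · simp only [Lm]
            refine le_trans ?_ h4
            have : P.1 * P.2.2 ≤ P.1 * P.2.1 * ρ := by nlinarith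
            calc P.1 * P.2.2 * ρ ^ n ≤ (P.1 * P.2.1 * ρ) * ρ ^ n := by gcongr
              _ = _ := by rw [pow_succ]; ring
      · by_cases hzR : (Rm P).1 * (Rm P).2.1 ≤ 2 * (Rm P).2.2
        · exact hGood _ hP.R hAll.R hzR
        · push Not at hzR
          simp only [Rm] at hzR
          have hyz : P.2.2 * P.2.1 < 2 * P.1 := by linarith
          refine ih (Rm P) hP.R ?_ hy ?_ hAll.R
          · simp only [Rm]; nlinarith
          · simp only [Rm]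
            refine le_trans ?_ h4
            have : P.2.2 * P.2.1 ≤ P.1 * P.2.1 * ρ := by nlinarith
            calc P.2.2 * P.2.1 * ρ ^ n ≤ (P.1 * P.2.1 * ρ) * ρ ^ n := by gcongr
              _ = _ := by rw [pow_succ]; ring

lemma Good_of_AllDio {P : Tri} (hP : Adm P) (hAll : AllDio P) : Good P := by
  set M0 := max P.1 P.2.1 with hM0
  have hM2 : 2 < M0 := hP.x2.trans_le (le_max_left _ _)
  set ε := 16 / (M0 ^ 2 - 4) with hε
  have hM4 : 0 < M0 ^ 2 - 4 := by nlinarith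
  have hε0 : 0 < ε := by rw [hε]; positivity
  set τ := √(4 + ε) with hτ
  have hτ2 : 2 < τ := by
    rw [hτ, show (2 : ℝ) = √4 by
      rw [show (4 : ℝ) = 2 ^ 2 by norm_num, Real.sqrt_sq (by norm_num)]]
    exact Real.sqrt_lt_sqrt (by norm_num) (by linarith)
  have hleg : ∀ Q : Tri, Adm Q → Q.1 ≤ M0 → Q.2.1 ≤ M0 → τ ≤ Q.1 ∧ τ ≤ Q.2.1 := by
    intro Q hQ hx hy
    have hd := hQ.disc
    have hx2 := hQ.x2
    have hy2 := hQ.y2
    have hx4 : 0 < Q.1 ^ 2 - 4 := by nlinarith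
    have hy4 : 0 < Q.2.1 ^ 2 - 4 := by nlinarith
    have hxM : Q.1 ^ 2 - 4 ≤ M0 ^ 2 - 4 := by nlinarith
    have hyM : Q.2.1 ^ 2 - 4 ≤ M0 ^ 2 - 4 := by nlinarith
    constructor
    · apply Real.sqrt_le_iff.2
      refine ⟨by linarith, ?_⟩
      have : ε ≤ Q.1 ^ 2 - 4 := by
        rw [hε, div_le_iff₀ hM4]
        nlinarith
      linarith
    · apply Real.sqrt_le_iff.2
      refine ⟨by linarith, ?_⟩
      have : ε ≤ Q.2.1 ^ 2 - 4 := by
        rw [hε, div_le_iff₀ hM4]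
        nlinarith
      linarith
  have hρ1 : 2 / τ < 1 := by rw [div_lt_one (by linarith)]; exact hτ2
  have hρ0 : 0 < 2 / τ := by positivity
  have hx2 := hP.x2
  have hy2 := hP.y2
  obtain ⟨n, hn⟩ := exists_pow_lt_of_lt_one (show 0 < 4 / (P.1 * P.2.1) by positivity) hρ1
  refine Good_of_AllDio_aux M0 (2 / τ) hρ0 ?_ n P hP (le_max_left _ _) (le_max_right _ _) ?_ hAll
  · intro Q hQ hx hy
    obtain ⟨h1, h2⟩ := hleg Q hQ hx hy
    constructor
    · rw [div_mul_eq_mul_div, le_div_iff₀ (by linarith)]; linarith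
    · rw [div_mul_eq_mul_div, le_div_iff₀ (by linarith)]; linarith
  · have hpos : 0 < P.1 * P.2.1 := by positivity
    rw [lt_div_iff₀ hpos] at hn
    linarith

end Pool.Agent.helper72.Sq
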