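import Pool.Agent.helper72.SqG

/-!
Primitive points: Möbius inversion.
-/

set_option autoImplicit false

namespace Pool.Agent.helper72.Sq

open Real Filter Topology Finset

open ArithmeticFunction (moebius)

lemma sum_moebius_divisors (n : ℕ) : ∑ d ∈ n.divisors, moebius d = if n = 1 then 1 else 0 := by
  have h := ArithmeticFunction.coe_zeta_mul_moebius
  have h2 := congrArg (fun f : ArithmeticFunction ℤ => f n) h
  simp only [ArithmeticFunction.coe_zeta_mul_apply, ArithmeticFunction.one_apply] at h2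
  exact h2

/-- primitive points of the cone. -/
def CS (P : Tri) (R : ℝ) : Set (ℕ × ℕ) := {pq | 1 ≤ pq.1 ∧ Nat.Coprime pq.1 pq.2 ∧ Lam P pq.1 pq.2 ≤ R}

lemma CS_subset (P : Tri) (R : ℝ) : CS P R ⊆ HS P R := fun _ h => ⟨h.1, h.2.2⟩

lemma HS_div (P : Tri) (R : ℝ) (d : ℕ) (hd : 1 ≤ d) :
    (fun x : ℕ × ℕ => (d * x.1, d * x.2)) '' (HS P (R / d)) =
      {pq | pq ∈ HS P R ∧ d ∣ Nat.gcd pq.1 pq.2} := by
  have hd0 : (0 : ℝ) < d := by exact_mod_cast hd
  ext ⟨p, q⟩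
  simp only [HS, Set.mem_image, Set.mem_ofPred_eq, Prod.mk.injEq, Prod.exists]
  constructor
  · rintro ⟨a, b, ⟨ha, h⟩, rfl, rfl⟩
    refine ⟨⟨by nlinarith, ?_⟩, ?_⟩
    · rw [Lam_smul d hd P a b ha]
      rw [le_div_iff₀ hd0] at h
      linarith
    · rw [Nat.gcd_mul_left]; exact dvd_mul_right _ _
  · rintro ⟨⟨hp, h⟩, hdvd⟩
    obtain ⟨a, rfl⟩ := (Nat.dvd_gcd_iff.1 hdvd).1
    obtain ⟨b, rfl⟩ := (Nat.dvd_gcd_iff.1 hdvd).2
    have ha : 1 ≤ a := by
      rcases Nat.eq_zero_or_pos a with h0 | h0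
      · subst h0; simp at hp
      · exact h0
    refine ⟨a, b, ⟨ha, ?_⟩, rfl, rfl⟩
    rw [Lam_smul d hd P a b ha] at h
    rw [le_div_iff₀ hd0]
    linarith

lemma CS_ncard (P : Tri) (R : ℝ) (hfin : (HS P R).Finite) (D : ℕ)
    (hD : ∀ pq ∈ HS P R, Nat.gcd pq.1 pq.2 ≤ D) :
    ((CS P R).ncard : ℝ) = ∑ d ∈ Finset.Icc 1 D, (moebius d : ℝ) * H P (R / d) := by
  classical
  set S := hfin.toFinset with hS
  have hmem : ∀ x, x ∈ S ↔ x ∈ HS P R := fun x => hfin.mem_toFinset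
  have h1 : ∀ d ∈ Finset.Icc 1 D, H P (R / d) = ∑ pq ∈ S, (if d ∣ Nat.gcd pq.1 pq.2 then (1 : ℝ) else 0) := by
    intro d hd
    have hd1 : 1 ≤ d := (Finset.mem_Icc.1 hd).1
    unfold H
    rw [← Set.ncard_image_of_injective (HS P (R / d)) (f := fun x : ℕ × ℕ => (d * x.1, d * x.2)), HS_div P R d hd1]
    · have : {pq | pq ∈ HS P R ∧ d ∣ Nat.gcd pq.1 pq.2} = (S.filter (fun pq => d ∣ Nat.gcd pq.1 pq.2) : Set (ℕ × ℕ)) := by
        ext x
        simp only [Set.mem_ofPred_eq, coe_filter, hmem]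
      rw [this, Set.ncard_coe_finset, card_filter]
      push_cast
      rfl
    · rintro ⟨a, b⟩ ⟨c, e⟩ h
      simp only [Prod.mk.injEq] at h ⊢
      exact ⟨Nat.eq_of_mul_eq_mul_left (by omega) h.1, Nat.eq_of_mul_eq_mul_left (by omega) h.2⟩
  rw [Finset.sum_congr rfl (fun d hd => by rw [h1 d hd, Finset.mul_sum]), Finset.sum_comm]
  have h2 : ∀ pq ∈ S, ∑ d ∈ Finset.Icc 1 D, (moebius d : ℝ) * (if d ∣ Nat.gcd pq.1 pq.2 then (1 : ℝ) else 0) =
      if Nat.Coprime pq.1 pq.2 then 1 else 0 := by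
    intro pq hpq
    have hpq' := (hmem pq).1 hpq
    have hg : Nat.gcd pq.1 pq.2 ≤ D := hD pq hpq'
    have hg0 : Nat.gcd pq.1 pq.2 ≠ 0 := by
      have := hpq'.1
      intro h0
      rw [Nat.gcd_eq_zero_iff] at h0
      omega
    have e1 : ∑ d ∈ Finset.Icc 1 D, (moebius d : ℝ) * (if d ∣ Nat.gcd pq.1 pq.2 then (1 : ℝ) else 0) =
        ∑ d ∈ (Nat.gcd pq.1 pq.2).divisors, (moebius d : ℝ) := by
      simp only [mul_ite, mul_one, mul_zero]
      rw [← Finset.sum_filter]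
      apply Finset.sum_congr _ (fun _ _ => rfl)
      ext d
      simp only [Finset.mem_filter, Finset.mem_Icc, Nat.mem_divisors]
      constructor
      · rintro ⟨_, h⟩; exact ⟨h, hg0⟩
      · rintro ⟨h, _⟩
        exact ⟨⟨Nat.pos_of_dvd_of_pos h (Nat.pos_of_ne_zero hg0),
          (Nat.le_of_dvd (Nat.pos_of_ne_zero hg0) h).trans hg⟩, h⟩
    rw [e1]
    have e2 := sum_moebius_divisors (Nat.gcd pq.1 pq.2)
    have e3 : ((∑ d ∈ (Nat.gcd pq.1 pq.2).divisors, moebius d : ℤ) : ℝ) =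
      ∑ d ∈ (Nat.gcd pq.1 pq.2).divisors, (moebius d : ℝ) := by push_cast; rfl
    rw [← e3, e2]
    unfold Nat.Coprime
    split_ifs <;> simp
  rw [Finset.sum_congr rfl h2, ← Finset.sum_filter]
  have h3 : CS P R = (S.filter (fun pq => Nat.Coprime pq.1 pq.2) : Set (ℕ × ℕ)) := by
    ext x
    simp only [CS, Set.mem_ofPred_eq, coe_filter, hmem, HS]
    tauto
  rw [h3, Set.ncard_coe_finset]
  simp

/-- partial sums of `μ(d)/d²`. -/
noncomputable def ms (n : ℕ) : ℝ := ∑ d ∈ Finset.Icc 1 n, (moebius d : ℝ) / (d : ℝ) ^ 2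

lemma ms_diff (n : ℕ) (hn : 1 ≤ n) (k : ℕ) : |ms (n + k) - ms n| ≤ 1 / n - 1 / (n + k : ℝ) := by
  have hn0 : (0 : ℝ) < n := by exact_mod_cast hn
  induction k with
  | zero => simp
  | succ k ih =>
    have e : ms (n + (k + 1)) = ms (n + k) + (moebius (n + k + 1) : ℝ) / ((n + k + 1 : ℕ) : ℝ) ^ 2 := by
      unfold ms
      rw [← add_assoc, Finset.sum_Icc_succ_top (by omega)]
    have e2 : ms (n + (k + 1)) - ms n = (ms (n + k) - ms n) +
      (moebius (n + k + 1) : ℝ) / ((n + k + 1 : ℕ) : ℝ) ^ 2 := by rw [e]; ring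
    rw [e2]
    refine (abs_add_le _ _).trans ?_
    have hmu : |(moebius (n + k + 1) : ℝ)| ≤ 1 := by
      exact_mod_cast ArithmeticFunction.abs_moebius_le_one (n := n + k + 1)
    have h1 : |(moebius (n + k + 1) : ℝ) / ((n + k + 1 : ℕ) : ℝ) ^ 2| ≤ 1 / ((n : ℝ) + k + 1) ^ 2 := by
      rw [abs_div, abs_of_nonneg (show (0 : ℝ) ≤ ((n + k + 1 : ℕ) : ℝ) ^ 2 by positivity)]
      push_cast
      gcongr
    have h2 : 1 / ((n : ℝ) + k + 1) ^ 2 ≤ 1 / ((n : ℝ) + k) - 1 / ((n : ℝ) + (k + 1)) := by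
      have hk : (0 : ℝ) ≤ k := Nat.cast_nonneg k
      rw [div_sub_div _ _ (by positivity) (by positivity), div_le_div_iff₀ (by positivity) (by positivity)]
      nlinarith
    have e3 : ((k + 1 : ℕ) : ℝ) = (k : ℝ) + 1 := by push_cast; ring
    rw [e3]
    linarith

lemma ms_limit : ∃ S : ℝ, 0 < S ∧ ∀ n : ℕ, 1 ≤ n → |ms n - S| ≤ 1 / n := by
  have hd : ∀ n m : ℕ, 1 ≤ n → n ≤ m → |ms m - ms n| ≤ 1 / n := by
    intro n m hn hnm
    obtain ⟨k, rfl⟩ := Nat.exists_eq_add_of_le hnm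
    refine (ms_diff n hn k).trans ?_
    have : (0 : ℝ) ≤ 1 / ((n : ℝ) + k) := by positivity
    linarith
  have hcau : CauchySeq ms := by
    refine cauchySeq_of_le_tendsto_0' (fun n : ℕ => 1 / (n : ℝ) + (if n = 0 then 2 else 0)) ?_ ?_
    · intro n m hnm
      rcases Nat.eq_zero_or_pos n with h0 | h0
      · subst h0
        have h00 : ms 0 = 0 := by simp [ms]
        rw [h00, dist_comm, Real.dist_eq, sub_zero]
        rcases Nat.eq_zero_or_pos m with h1 | h1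
        · subst h1; rw [h00]; simp
        · have := hd 1 m le_rfl h1
          have h11 : ms 1 = 1 := by simp [ms]
          rw [h11] at this
          have := abs_sub_abs_le_abs_sub (ms m) 1
          simp at *
          linarith
      · rw [dist_comm, Real.dist_eq, if_neg (by omega), add_zero]
        exact hd n m h0 hnm
    · have h1 : Tendsto (fun n : ℕ => 1 / (n : ℝ)) atTop (𝓝 0) := tendsto_one_div_atTop_nhds_zero_nat
      refine (h1.congr' ?_)
      filter_upwards [eventually_ge_atTop 1] with n hn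
      rw [if_neg (by omega), add_zero]
  obtain ⟨S, hS⟩ := cauchySeq_tendsto_of_complete hcau
  have hlim : ∀ n : ℕ, 1 ≤ n → |ms n - S| ≤ 1 / n := by
    intro n hn
    have h1 : Tendsto (fun m => |ms n - ms m|) atTop (𝓝 |ms n - S|) :=
      (tendsto_const_nhds.sub hS).abs
    apply le_of_tendsto h1
    filter_upwards [eventually_ge_atTop n] with m hm
    rw [abs_sub_comm]
    exact hd n m hn hm
  refine ⟨S, ?_, hlim⟩
  have h2 := hlim 2 (by norm_num)
  have h22 : ms 2 = 3 / 4 := by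
    have hm2 : moebius 2 = -1 := ArithmeticFunction.moebius_apply_prime Nat.prime_two
    unfold ms
    rw [show Finset.Icc 1 2 = {1, 2} by rfl, Finset.sum_pair (by norm_num), hm2]
    simp; norm_num
  rw [h22] at h2
  have := (abs_le.1 h2).2
  push_cast at this
  linarith

/-- `∑_{d ≤ D} d^{-11/12} ≤ 12 D^{1/12}`. -/
lemma sum_pow_le (D : ℕ) : ∑ d ∈ Finset.Icc 1 D, (1 / (d : ℝ)) ^ (11 / 12 : ℝ) ≤ 12 * (D : ℝ) ^ (1 / 12 : ℝ) := by
  induction D with
  | zero => simp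
  | succ D ih =>
    rw [Finset.sum_Icc_succ_top (by omega)]
    set u : ℝ := ((D + 1 : ℕ) : ℝ) ^ (1 / 12 : ℝ) with hu
    set v : ℝ := (D : ℝ) ^ (1 / 12 : ℝ) with hv
    have hu0 : 0 < u := by positivity
    have hv0 : 0 ≤ v := by positivity
    have hu12 : u ^ 12 = D + 1 := by
      rw [hu, ← Real.rpow_natCast, ← Real.rpow_mul (by positivity)]
      push_cast
      norm_num
    have hv12 : v ^ 12 = D := by
      rw [hv, ← Real.rpow_natCast, ← Real.rpow_mul (by positivity)]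
      norm_num
    have huv : v ≤ u := by
      rw [hu, hv]
      apply Real.rpow_le_rpow (by positivity) _ (by norm_num)
      push_cast; linarith
    have h1 : (1 / ((D + 1 : ℕ) : ℝ)) ^ (11 / 12 : ℝ) = 1 / u ^ 11 := by
      rw [Real.div_rpow (by norm_num) (by positivity), Real.one_rpow, hu, ← Real.rpow_natCast _ 11,
        ← Real.rpow_mul (by positivity)]
      congr 2
      norm_num
    have h2 : 1 ≤ 12 * (u - v) * u ^ 11 := by
      have hb := one_add_mul_le_pow (a := (v / u - 1)) (by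
        have : 0 ≤ v / u := by positivity
        linarith) 12
      have hb2 : 1 + ((12 : ℕ) : ℝ) * (v / u - 1) ≤ (v / u) ^ 12 := by
        refine hb.trans (le_of_eq ?_)
        congr 1; ring
      have hb3 : u ^ 12 * (1 + ((12 : ℕ) : ℝ) * (v / u - 1)) ≤ v ^ 12 := by
        calc u ^ 12 * (1 + ((12 : ℕ) : ℝ) * (v / u - 1)) ≤ u ^ 12 * (v / u) ^ 12 := by gcongr
          _ = v ^ 12 := by rw [div_pow]; field_simp
      have hb4 : u ^ 12 * (1 + ((12 : ℕ) : ℝ) * (v / u - 1)) = u ^ 12 - 12 * (u - v) * u ^ 11 := by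
        push_cast; field_simp; ring
      rw [hb4, hv12, hu12] at hb3
      linarith
    rw [h1]
    have h3 : 1 / u ^ 11 ≤ 12 * (u - v) := by
      rw [div_le_iff₀ (by positivity)]; exact h2
    linarith

/-- Möbius inversion of an asymptotic. -/
lemma prim_asymp (T N : ℝ → ℝ) (a K c0 : ℝ) (ha : 0 < a) (hK : 0 ≤ K) (hc0 : 0 < c0)
    (hT : ∀ R, 0 < R → |T R - a * R ^ 2| ≤ K * R ^ (11 / 12 : ℝ))
    (hN : ∀ R, 0 < R → ∀ D : ℕ, R / c0 ≤ D → N R = ∑ d ∈ Finset.Icc 1 D, (moebius d : ℝ) * T (R / d)) :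
    ∃ b K' : ℝ, 0 < b ∧ 0 ≤ K' ∧ ∀ R, 1 ≤ R → |N R - b * R ^ 2| ≤ K' * R := by
  obtain ⟨S, hS0, hS⟩ := ms_limit
  refine ⟨a * S, a * c0 + K * (12 * (1 / c0 + 1) ^ (1 / 12 : ℝ)), by positivity, by positivity, ?_⟩
  intro R hR
  have R0 : 0 < R := by linarith
  set D := ⌈R / c0⌉₊ with hD
  have hD1 : R / c0 ≤ D := Nat.le_ceil _
  have hD2 : (D : ℝ) ≤ (1 / c0 + 1) * R := by
    have := (Nat.ceil_lt_add_one (a := R / c0) (by positivity)).le
    have e : (1 / c0 + 1) * R = R / c0 + R := by ring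
    linarith
  have hD0 : 1 ≤ D := by
    have : 0 < R / c0 := by positivity
    exact Nat.ceil_pos.2 this
  have hD0' : (0 : ℝ) < D := by exact_mod_cast hD0
  rw [hN R R0 D hD1]
  have e1 : ∑ d ∈ Finset.Icc 1 D, (moebius d : ℝ) * T (R / d) - a * S * R ^ 2 =
      ∑ d ∈ Finset.Icc 1 D, (moebius d : ℝ) * (T (R / d) - a * (R / d) ^ 2) +
        a * R ^ 2 * (ms D - S) := by
    unfold ms
    have : ∑ d ∈ Finset.Icc 1 D, (moebius d : ℝ) * (T (R / d) - a * (R / d) ^ 2) =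
      ∑ d ∈ Finset.Icc 1 D, (moebius d : ℝ) * T (R / d) -
        a * R ^ 2 * ∑ d ∈ Finset.Icc 1 D, (moebius d : ℝ) / (d : ℝ) ^ 2 := by
      rw [Finset.mul_sum, ← Finset.sum_sub_distrib]
      apply Finset.sum_congr rfl
      intro d _
      rw [div_pow]; ring
    rw [this]; ring
  rw [e1]
  refine (abs_add_le _ _).trans ?_
  have h1 : |a * R ^ 2 * (ms D - S)| ≤ a * c0 * R := by
    rw [abs_mul, abs_of_nonneg (show 0 ≤ a * R ^ 2 by positivity)]
    have h2 := hS D hD0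
    have h3 : 1 / (D : ℝ) ≤ c0 / R := by
      rw [div_le_div_iff₀ hD0' R0]
      rw [div_le_iff₀ hc0] at hD1
      linarith
    calc a * R ^ 2 * |ms D - S| ≤ a * R ^ 2 * (c0 / R) := by gcongr; linarith
      _ = a * c0 * R := by field_simp
  have h2 : |∑ d ∈ Finset.Icc 1 D, (moebius d : ℝ) * (T (R / d) - a * (R / d) ^ 2)| ≤
      K * (12 * (1 / c0 + 1) ^ (1 / 12 : ℝ)) * R := by
    refine (Finset.abs_sum_le_sum_abs _ _).trans ?_
    have h3 : ∀ d ∈ Finset.Icc 1 D, |(moebius d : ℝ) * (T (R / d) - a * (R / d) ^ 2)| ≤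
        K * R ^ (11 / 12 : ℝ) * (1 / (d : ℝ)) ^ (11 / 12 : ℝ) := by
      intro d hd
      have hd1 : 1 ≤ d := (Finset.mem_Icc.1 hd).1
      have hd0 : (0 : ℝ) < d := by exact_mod_cast hd1
      have hmu : |(moebius d : ℝ)| ≤ 1 := by
        exact_mod_cast ArithmeticFunction.abs_moebius_le_one (n := d)
      rw [abs_mul]
      have h4 := hT (R / d) (by positivity)
      calc |(moebius d : ℝ)| * |T (R / d) - a * (R / d) ^ 2| ≤ 1 * (K * (R / d) ^ (11 / 12 : ℝ)) :=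
            mul_le_mul hmu h4 (abs_nonneg _) (by norm_num)
        _ = K * R ^ (11 / 12 : ℝ) * (1 / (d : ℝ)) ^ (11 / 12 : ℝ) := by
            rw [div_eq_mul_one_div R, Real.mul_rpow (by positivity) (by positivity)]; ring
    refine (Finset.sum_le_sum h3).trans ?_
    rw [← Finset.mul_sum]
    have h5 := sum_pow_le D
    have h6 : (D : ℝ) ^ (1 / 12 : ℝ) ≤ ((1 / c0 + 1) * R) ^ (1 / 12 : ℝ) :=
      Real.rpow_le_rpow (by positivity) hD2 (by norm_num)
    rw [Real.mul_rpow (by positivity) (by positivity)] at h6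
    have h7 : R ^ (11 / 12 : ℝ) * R ^ (1 / 12 : ℝ) = R := by
      rw [← Real.rpow_add R0]; norm_num
    calc K * R ^ (11 / 12 : ℝ) * ∑ d ∈ Finset.Icc 1 D, (1 / (d : ℝ)) ^ (11 / 12 : ℝ)
        ≤ K * R ^ (11 / 12 : ℝ) * (12 * ((1 / c0 + 1) ^ (1 / 12 : ℝ) * R ^ (1 / 12 : ℝ))) := by
          gcongr; linarith
      _ = K * (12 * (1 / c0 + 1) ^ (1 / 12 : ℝ)) * (R ^ (11 / 12 : ℝ) * R ^ (1 / 12 : ℝ)) := by ring
      _ = _ := by rw [h7]
  calc _ ≤ K * (12 * (1 / c0 + 1) ^ (1 / 12 : ℝ)) * R + a * c0 * R := add_le_add h2 h1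
    _ = _ := by ring

end Pool.Agent.helper72.Sq
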