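import Pool.Agent.helper72.SqI
import Pool.Agent.helper72.TorusDefs

/-!
The mapping class group orbit of a simple curve in the free group of rank two.
-/

set_option autoImplicit false

namespace Pool.Agent.helper72.Sq

open Matrix

lemma cl_eq_iff (g h : F2) : cl g = cl h ↔ IsConj g h ∨ IsConj g h⁻¹ := Quotient.eq (r := curveSetoid)

lemma cl_conj (c g : F2) : cl (c * g * c⁻¹) = cl g := by
  rw [cl_eq_iff]; left
  exact (isConj_iff.2 ⟨c, rfl⟩ : IsConj g (c * g * c⁻¹)).symm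

lemma cl_inv (g : F2) : cl g⁻¹ = cl g := by
  rw [cl_eq_iff]; right; exact IsConj.refl _

lemma cl_map {g h : F2} (φ : F2 →* F2) (hgh : cl g = cl h) : cl (φ g) = cl (φ h) := by
  rw [cl_eq_iff] at hgh ⊢
  rcases hgh with h1 | h1
  · left; exact φ.map_isConj h1
  · right; rw [← map_inv]; exact φ.map_isConj h1

lemma tr_mul_mul (A B : SpecialLinearGroup (Fin 2) ℝ) : tr (A * (A * B)) = tr A * tr (A * B) - tr B := by
  unfold tr; simp only [sl2_mul]
  have := sl2_det A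
  linear_combination (-(B 0 0 + B 1 1)) * this

lemma cLen_cl (ρ : F2 →* SpecialLinearGroup (Fin 2) ℝ) (g : F2) : cLen ρ (cl g) = gLen ρ g := rfl

/-- the primitive element of exponents `(p, q)` with respect to a pair `u, v`. -/
def W {G : Type*} [Group G] (u v : G) (p q : ℕ) : G :=
  if q = 0 then u ^ p
  else if p = 0 then v ^ q
  else if q < p then W u (u * v) (p - q) q
  else W (u * v) v p (q - p)
termination_by p + q
decreasing_by all_goals omega

lemma W_zero {G : Type*} [Group G] (u v : G) (p : ℕ) : W u v p 0 = u ^ p := by rw [W]; simp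

lemma W_L {G : Type*} [Group G] (u v : G) (p q : ℕ) (hp : 1 ≤ p) :
    W u v (p + q) q = W u (u * v) p q := by
  rcases Nat.eq_zero_or_pos q with hq | hq
  · subst hq; rw [Nat.add_zero, W_zero, W_zero]
  · rw [W, if_neg (by omega), if_neg (by omega), if_pos (by omega), Nat.add_sub_cancel]

lemma W_R {G : Type*} [Group G] (u v : G) (p q : ℕ) (hp : 1 ≤ p) :
    W u v p (p + q) = W (u * v) v p q := by
  rw [W, if_neg (by omega), if_neg (by omega), if_neg (by omega), Nat.add_sub_cancel_left]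

/-- Euclid induction -/
theorem euclid_ind {X : Type*} (L R : X → X) {C : X → ℕ → ℕ → Prop}
    (h0 : ∀ x p, 1 ≤ p → C x p 0)
    (hL : ∀ x p q, 1 ≤ p → 1 ≤ q → C (L x) p q → C x (p + q) q)
    (hR : ∀ x p q, 1 ≤ p → C (R x) p q → C x p (p + q)) :
    ∀ x p q, 1 ≤ p → C x p q := by
  have key : ∀ n : ℕ, ∀ x p q, 1 ≤ p → p + q ≤ n → C x p q := by
    intro n
    induction n with
    | zero => intro x p q hp hn; omega
    | succ n ih =>
      intro x p q hp hn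
      rcases Nat.eq_zero_or_pos q with hq | hq
      · subst hq; exact h0 x p hp
      · rcases lt_or_ge q p with hqp | hqp
        · obtain ⟨p', rfl⟩ := Nat.exists_eq_add_of_lt hqp
          have := hL x (p' + 1) q (by omega) hq (ih (L x) (p' + 1) q (by omega) (by omega))
          rwa [show p' + 1 + q = q + p' + 1 by ring] at this
        · obtain ⟨q', rfl⟩ := Nat.exists_eq_add_of_le hqp
          exact hR x p q' hp (ih (R x) p q' hp (by omega))
  intro x p q hp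
  exact key (p + q) x p q hp le_rfl

lemma W_map {G K : Type*} [Group G] [Group K] (f : G →* K) :
    ∀ (x : G × G) (p q : ℕ), 1 ≤ p → f (W x.1 x.2 p q) = W (f x.1) (f x.2) p q := by
  refine euclid_ind (C := fun x p q => f (W x.1 x.2 p q) = W (f x.1) (f x.2) p q) (fun x : G × G => (x.1, x.1 * x.2)) (fun x : G × G => (x.1 * x.2, x.2)) ?_ ?_ ?_
  · intro x p hp
    rw [W_zero, W_zero, map_pow]
  · intro x p q hp hq ih
    rw [W_L _ _ _ _ hp, W_L _ _ _ _ hp]
    simpa using ih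
  · intro x p q hp ih
    rw [W_R _ _ _ _ hp, W_R _ _ _ _ hp]
    simpa using ih

lemma W_comm {G : Type*} [CommGroup G] :
    ∀ (x : G × G) (p q : ℕ), 1 ≤ p → W x.1 x.2 p q = x.1 ^ p * x.2 ^ q := by
  refine euclid_ind (C := fun x p q => W x.1 x.2 p q = x.1 ^ p * x.2 ^ q)
    (fun x : G × G => (x.1, x.1 * x.2)) (fun x : G × G => (x.1 * x.2, x.2)) ?_ ?_ ?_
  · intro x p hp
    rw [W_zero]; simp
  · intro x p q hp hq ih
    rw [W_L _ _ _ _ hp]
    simp only at ih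
    rw [ih, mul_pow, pow_add, mul_assoc]
  · intro x p q hp ih
    rw [W_R _ _ _ _ hp]
    simp only at ih
    rw [ih, mul_pow, pow_add, mul_assoc]

lemma W_inv {G : Type*} [Group G] :
    ∀ (x : G × G) (p q : ℕ), 1 ≤ p → IsConj (W x.1⁻¹ x.2⁻¹ p q) (W x.1 x.2 p q)⁻¹ := by
  refine euclid_ind (C := fun x p q => IsConj (W x.1⁻¹ x.2⁻¹ p q) (W x.1 x.2 p q)⁻¹)
    (fun x : G × G => (x.1, x.1 * x.2)) (fun x : G × G => (x.1 * x.2, x.2)) ?_ ?_ ?_
  · intro x p hp
    rw [W_zero, W_zero, inv_pow]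
  · intro x p q hp hq ih
    rw [W_L _ _ _ _ hp, W_L _ _ _ _ hp]
    refine IsConj.trans ?_ ih
    have h := W_map (MulAut.conj x.1⁻¹).toMonoidHom (x.1⁻¹, (x.1 * x.2)⁻¹) p q hp
    simp only [MulEquiv.coe_toMonoidHom, MulAut.conj_apply] at h
    have e1 : x.1⁻¹ * x.1⁻¹ * x.1⁻¹⁻¹ = x.1⁻¹ := by group
    have e2 : x.1⁻¹ * (x.1 * x.2)⁻¹ * x.1⁻¹⁻¹ = x.1⁻¹ * x.2⁻¹ := by group
    rw [e1, e2] at h
    rw [← h]
    exact (isConj_iff.2 ⟨x.1⁻¹, rfl⟩ : IsConj _ _).symm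
  · intro x p q hp ih
    rw [W_R _ _ _ _ hp, W_R _ _ _ _ hp]
    refine IsConj.trans ?_ ih
    have h := W_map (MulAut.conj x.2).toMonoidHom ((x.1 * x.2)⁻¹, x.2⁻¹) p q hp
    simp only [MulEquiv.coe_toMonoidHom, MulAut.conj_apply] at h
    have e1 : x.2 * (x.1 * x.2)⁻¹ * x.2⁻¹ = x.1⁻¹ * x.2⁻¹ := by group
    have e2 : x.2 * x.2⁻¹ * x.2⁻¹ = x.2⁻¹ := by group
    rw [e1, e2] at h
    rw [← h]
    exact (isConj_iff.2 ⟨x.2, rfl⟩ : IsConj _ _).symm

lemma cl_W_conj (c u v u' v' : F2) (p q : ℕ) (hp : 1 ≤ p) (h1 : c * u * c⁻¹ = u')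
    (h2 : c * v * c⁻¹ = v') : cl (W u v p q) = cl (W u' v' p q) := by
  have h := W_map (MulAut.conj c).toMonoidHom (u, v) p q hp
  simp only [MulEquiv.coe_toMonoidHom, MulAut.conj_apply] at h
  rw [h1, h2] at h
  rw [← h, cl_conj]

lemma cl_W_inv (u v u' v' : F2) (p q : ℕ) (hp : 1 ≤ p) (h1 : u⁻¹ = u') (h2 : v⁻¹ = v') :
    cl (W u v p q) = cl (W u' v' p q) := by
  have h := W_inv (u, v) p q hp
  simp only at h
  rw [h1, h2] at h
  rw [cl_eq_iff]
  right
  obtain ⟨c, hc⟩ := isConj_iff.1 h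
  rw [isConj_iff]
  refine ⟨c⁻¹, ?_⟩
  have : W u v p q = (c * W u' v' p q * c⁻¹)⁻¹ := by rw [hc, inv_inv]
  rw [this]; group

/-- the curves indexed by a cone and a primitive vector of it. -/
def Wc (ε : Bool) (p q : ℕ) : Curve := if ε then cl (W ga gb p q) else cl (W gb ga⁻¹ p q)

/-- the set of these curves -/
def WS : Set Curve := {c | ∃ ε p q, 1 ≤ p ∧ Nat.Coprime p q ∧ c = Wc ε p q}

@[simp] lemma twA_a : twA ga = ga := by simp [twA]
@[simp] lemma twA_b : twA gb = ga * gb := by simp [twA]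
@[simp] lemma twB_a : twB ga = ga * gb := by simp [twB]
@[simp] lemma twB_b : twB gb = gb := by simp [twB]
@[simp] lemma twA_symm_a : twA.symm ga = ga := by simp [twA]
@[simp] lemma twA_symm_b : twA.symm gb = ga⁻¹ * gb := by simp [twA]
@[simp] lemma twB_symm_a : twB.symm ga = ga * gb⁻¹ := by simp [twB]
@[simp] lemma twB_symm_b : twB.symm gb = gb := by simp [twB]

lemma map_W (φ : F2 ≃* F2) (u v : F2) (p q : ℕ) (hp : 1 ≤ p) :
    φ (W u v p q) = W (φ u) (φ v) p q := W_map φ.toMonoidHom (u, v) p q hp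

/-- the property of preserving `WS`. -/
def Pres (φ : F2 ≃* F2) : Prop := ∀ g, cl g ∈ WS → cl (φ g) ∈ WS

lemma pres_of (φ : F2 ≃* F2)
    (h1 : ∀ p q, 1 ≤ p → Nat.Coprime p q → cl (W (φ ga) (φ gb) p q) ∈ WS)
    (h2 : ∀ p q, 1 ≤ p → Nat.Coprime p q → cl (W (φ gb) (φ ga)⁻¹ p q) ∈ WS) : Pres φ := by
  rintro g ⟨ε, p, q, hp, hc, hg⟩
  unfold Wc at hg
  cases ε
  · simp only [Bool.false_eq_true, if_false] at hg
    have := cl_map φ.toMonoidHom hg
    simp only [MulEquiv.coe_toMonoidHom] at this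
    rw [this, map_W φ _ _ p q hp, map_inv]
    exact h2 p q hp hc
  · simp only [if_true] at hg
    have := cl_map φ.toMonoidHom hg
    simp only [MulEquiv.coe_toMonoidHom] at this
    rw [this, map_W φ _ _ p q hp]
    exact h1 p q hp hc

lemma mem_true {p q : ℕ} (hp : 1 ≤ p) (hc : Nat.Coprime p q) : cl (W ga gb p q) ∈ WS :=
  ⟨true, p, q, hp, hc, by simp [Wc]⟩

lemma mem_false {p q : ℕ} (hp : 1 ≤ p) (hc : Nat.Coprime p q) : cl (W gb ga⁻¹ p q) ∈ WS :=
  ⟨false, p, q, hp, hc, by simp [Wc]⟩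

/-- splitting a coprime pair -/
lemma cop_cases {C : ℕ → ℕ → Prop}
    (h1 : ∀ p q, 1 ≤ p → Nat.Coprime p q → C (p + q) q)
    (h2 : ∀ p q, 1 ≤ p → Nat.Coprime p q → C p (p + q)) :
    ∀ p q, 1 ≤ p → Nat.Coprime p q → C p q := by
  intro p q hp hc
  rcases lt_or_ge q p with hqp | hqp
  · obtain ⟨p', rfl⟩ := Nat.exists_eq_add_of_lt hqp
    have hc' : Nat.Coprime (p' + 1) q := by
      rwa [show q + p' + 1 = (p' + 1) + q by ring, Nat.coprime_add_self_left] at hc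
    have := h1 (p' + 1) q (by omega) hc'
    rwa [show p' + 1 + q = q + p' + 1 by ring] at this
  · obtain ⟨q', rfl⟩ := Nat.exists_eq_add_of_le hqp
    have hc' : Nat.Coprime p q' := by
      rwa [Nat.coprime_self_add_right] at hc
    exact h2 p q' hp hc'

lemma pres_twA : Pres twA := by
  apply pres_of
  · intro p q hp hc
    rw [twA_a, twA_b, ← W_L _ _ _ _ hp]
    exact mem_true (by omega) (by rwa [Nat.coprime_add_self_left])
  · rw [twA_a, twA_b]
    apply cop_cases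
    · intro p q hp hc
      rw [W_L _ _ _ _ hp, cl_W_conj (ga * gb)⁻¹ _ _ (ga * gb) gb p q hp (by group) (by group),
        ← W_R _ _ _ _ hp]
      exact mem_true hp (by rwa [Nat.coprime_self_add_right])
    · intro p q hp hc
      rw [W_R _ _ _ _ hp, cl_W_conj ga⁻¹ _ _ gb ga⁻¹ p q hp (by group) (by group)]
      exact mem_false hp hc

lemma pres_twA_symm : Pres twA.symm := by
  apply pres_of
  · rw [twA_symm_a, twA_symm_b]
    apply cop_cases
    · intro p q hp hc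
      rw [W_L _ _ _ _ hp, mul_inv_cancel_left]
      exact mem_true hp hc
    · intro p q hp hc
      rw [W_R _ _ _ _ hp, mul_inv_cancel_left,
        cl_W_conj gb _ _ gb (gb * ga⁻¹) p q hp (by group) (by group), ← W_L _ _ _ _ hp]
      exact mem_false (by omega) (by rwa [Nat.coprime_add_self_left])
  · intro p q hp hc
    rw [twA_symm_a, twA_symm_b,
      cl_W_conj ga _ _ (gb * ga⁻¹) ga⁻¹ p q hp (by group) (by group), ← W_R _ _ _ _ hp]
    exact mem_false hp (by rwa [Nat.coprime_self_add_right])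

lemma pres_twB : Pres twB := by
  apply pres_of
  · intro p q hp hc
    rw [twB_a, twB_b, ← W_R _ _ _ _ hp]
    exact mem_true hp (by rwa [Nat.coprime_self_add_right])
  · rw [twB_a, twB_b]
    apply cop_cases
    · intro p q hp hc
      rw [W_L _ _ _ _ hp, show gb * (ga * gb)⁻¹ = ga⁻¹ by group]
      exact mem_false hp hc
    · intro p q hp hc
      rw [W_R _ _ _ _ hp, show gb * (ga * gb)⁻¹ = ga⁻¹ by group,
        cl_W_inv ga⁻¹ (ga * gb)⁻¹ ga (ga * gb) p q hp (by group) (by group), ← W_L _ _ _ _ hp]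
      exact mem_true (by omega) (by rwa [Nat.coprime_add_self_left])

lemma pres_twB_symm : Pres twB.symm := by
  apply pres_of
  · rw [twB_symm_a, twB_symm_b]
    apply cop_cases
    · intro p q hp hc
      rw [W_L _ _ _ _ hp, show ga * gb⁻¹ * gb = ga by group,
        cl_W_inv (ga * gb⁻¹) ga (gb * ga⁻¹) ga⁻¹ p q hp (by group) (by group), ← W_R _ _ _ _ hp]
      exact mem_false hp (by rwa [Nat.coprime_self_add_right])
    · intro p q hp hc
      rw [W_R _ _ _ _ hp, show ga * gb⁻¹ * gb = ga by group]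
      exact mem_true hp hc
  · intro p q hp hc
    rw [twB_symm_a, twB_symm_b, show (ga * gb⁻¹)⁻¹ = gb * ga⁻¹ by group, ← W_L _ _ _ _ hp]
    exact mem_false (by omega) (by rwa [Nat.coprime_add_self_left])

lemma pres_MCG (φ : MulAut F2) (hφ : φ ∈ MCG) : Pres φ ∧ Pres φ⁻¹ := by
  refine Subgroup.closure_induction (p := fun φ _ => Pres φ ∧ Pres φ⁻¹) ?_ ?_ ?_ ?_ hφ
  · rintro x (rfl | rfl)
    · exact ⟨pres_twA, pres_twA_symm⟩
    · exact ⟨pres_twB, pres_twB_symm⟩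
  · refine ⟨fun g hg => hg, fun g hg => ?_⟩
    simpa using hg
  · rintro x y _ _ ⟨hx1, hx2⟩ ⟨hy1, hy2⟩
    refine ⟨fun g hg => hx1 _ (hy1 _ hg), fun g hg => ?_⟩
    rw [_root_.mul_inv_rev]
    exact hy2 _ (hx2 _ hg)
  · rintro x _ ⟨hx1, hx2⟩
    refine ⟨hx2, ?_⟩
    rw [inv_inv]; exact hx1

lemma orb_subset : orb ga ⊆ WS := by
  rintro c ⟨φ, hφ, rfl⟩
  apply (pres_MCG φ hφ).1
  refine ⟨true, 1, 0, le_rfl, by norm_num, ?_⟩
  simp [Wc, W_zero]

lemma W_mem_orb : ∀ (φ : MulAut F2) (p q : ℕ), 1 ≤ p → Nat.Coprime p q → φ ∈ MCG →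
    ∃ ψ ∈ MCG, W (φ ga) (φ gb) p q = ψ ga := by
  refine euclid_ind (C := fun (φ : MulAut F2) p q => Nat.Coprime p q → φ ∈ MCG →
    ∃ ψ ∈ MCG, W (φ ga) (φ gb) p q = ψ ga)
    (fun φ : MulAut F2 => φ * twA) (fun φ : MulAut F2 => φ * twB) ?_ ?_ ?_
  · intro φ p hp hc hφ
    have : p = 1 := by rwa [Nat.coprime_zero_right] at hc
    subst this
    exact ⟨φ, hφ, by rw [W_zero, pow_one]⟩
  · intro φ p q hp hq ih hc hφ
    have hA : twA ∈ MCG := Subgroup.subset_closure (by simp)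
    obtain ⟨ψ, hψ, h⟩ := ih (by rwa [Nat.coprime_add_self_left] at hc) (MCG.mul_mem hφ hA)
    refine ⟨ψ, hψ, ?_⟩
    rw [W_L _ _ _ _ hp, ← h, MulAut.mul_apply, MulAut.mul_apply, twA_a, twA_b, map_mul]
  · intro φ p q hp ih hc hφ
    have hB : twB ∈ MCG := Subgroup.subset_closure (by simp)
    obtain ⟨ψ, hψ, h⟩ := ih (by rwa [Nat.coprime_self_add_right] at hc) (MCG.mul_mem hφ hB)
    refine ⟨ψ, hψ, ?_⟩
    rw [W_R _ _ _ _ hp, ← h, MulAut.mul_apply, MulAut.mul_apply, twB_a, twB_b, map_mul]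

lemma WS_subset : WS ⊆ orb ga := by
  rintro c ⟨ε, p, q, hp, hc, rfl⟩
  cases ε
  · have hA : twA ∈ MCG := Subgroup.subset_closure (by simp)
    have hB : twB ∈ MCG := Subgroup.subset_closure (by simp)
    obtain ⟨ψ, hψ, h⟩ := W_mem_orb (twB * twA⁻¹ * twB) p q hp hc
      (MCG.mul_mem (MCG.mul_mem hB (MCG.inv_mem hA)) hB)
    refine ⟨ψ, hψ, ?_⟩
    rw [← h]
    have e1 : (twB * twA⁻¹ * twB : MulAut F2) ga = gb := by
      simp only [MulAut.mul_apply, twB_a]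
      rw [map_mul]
      change twB (twA.symm ga * twA.symm gb) = gb
      simp
    have e2 : (twB * twA⁻¹ * twB : MulAut F2) gb = gb⁻¹ * ga⁻¹ * gb := by
      simp only [MulAut.mul_apply, twB_b]
      change twB (twA.symm gb) = _
      simp
    rw [e1, e2, cl_W_conj gb gb _ gb ga⁻¹ p q hp (by group) (by group)]
    simp [Wc]
  · obtain ⟨ψ, hψ, h⟩ := W_mem_orb 1 p q hp hc MCG.one_mem
    refine ⟨ψ, hψ, ?_⟩
    rw [← h]
    simp [Wc]

lemma orb_eq : orb ga = WS := Set.Subset.antisymm orb_subset WS_subset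

/-- abelianization -/
def ab : F2 →* Multiplicative (ℤ × ℤ) :=
  mk2 (Multiplicative.ofAdd (1, 0)) (Multiplicative.ofAdd (0, 1))

lemma ab_cl {g h : F2} (hgh : cl g = cl h) : ab g = ab h ∨ ab g = (ab h)⁻¹ := by
  rw [cl_eq_iff] at hgh
  rcases hgh with h1 | h1
  · left; exact isConj_iff_eq.1 (ab.map_isConj h1)
  · right; rw [← map_inv]; exact isConj_iff_eq.1 (ab.map_isConj h1)

lemma ab_W1 (p q : ℕ) (hp : 1 ≤ p) : ab (W ga gb p q) = Multiplicative.ofAdd ((p : ℤ), (q : ℤ)) := by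
  rw [W_map ab (ga, gb) p q hp, W_comm (ab ga, ab gb) p q hp]
  simp only [ab, mk2_a, mk2_b]
  apply Multiplicative.toAdd.injective
  simp

lemma ab_W2 (p q : ℕ) (hp : 1 ≤ p) :
    ab (W gb ga⁻¹ p q) = Multiplicative.ofAdd (-(q : ℤ), (p : ℤ)) := by
  rw [W_map ab (gb, ga⁻¹) p q hp, W_comm (ab gb, ab ga⁻¹) p q hp]
  simp only [ab, mk2_a, mk2_b, map_inv]
  apply Multiplicative.toAdd.injective
  simp

lemma ofAdd_cases {x y : ℤ × ℤ} (h : Multiplicative.ofAdd x = Multiplicative.ofAdd y ∨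
    Multiplicative.ofAdd x = (Multiplicative.ofAdd y)⁻¹) :
    (x.1 = y.1 ∧ x.2 = y.2) ∨ (x.1 = -y.1 ∧ x.2 = -y.2) := by
  rcases h with h | h
  · left
    have := Multiplicative.ofAdd.injective h
    rw [this]; exact ⟨rfl, rfl⟩
  · right
    rw [← ofAdd_neg] at h
    have := Multiplicative.ofAdd.injective h
    rw [this]; exact ⟨rfl, rfl⟩

lemma Wc_inj {ε ε' : Bool} {p q p' q' : ℕ} (hp : 1 ≤ p) (hp' : 1 ≤ p')
    (h : Wc ε p q = Wc ε' p' q') : ε = ε' ∧ p = p' ∧ q = q' := by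
  cases ε <;> cases ε' <;> simp only [Wc, Bool.false_eq_true, if_false, if_true] at h <;>
    replace h := ab_cl h
  · rw [ab_W2 _ _ hp, ab_W2 _ _ hp'] at h
    have := ofAdd_cases h
    simp only at this
    refine ⟨rfl, ?_, ?_⟩ <;> omega
  · rw [ab_W2 _ _ hp, ab_W1 _ _ hp'] at h
    have := ofAdd_cases h
    simp only at this
    omega
  · rw [ab_W1 _ _ hp, ab_W2 _ _ hp'] at h
    have := ofAdd_cases h
    simp only at this
    omega
  · rw [ab_W1 _ _ hp, ab_W1 _ _ hp'] at h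
    have := ofAdd_cases h
    simp only at this
    refine ⟨rfl, ?_, ?_⟩ <;> omega

/-- the traces of a pair -/
def trTri (ρ : F2 →* SpecialLinearGroup (Fin 2) ℝ) (x : F2 × F2) : Tri :=
  (tr (ρ x.1), tr (ρ x.2), tr (ρ (x.1 * x.2)))

lemma trTri_L (ρ : F2 →* SpecialLinearGroup (Fin 2) ℝ) (x : F2 × F2) :
    trTri ρ (x.1, x.1 * x.2) = Lm (trTri ρ x) := by
  simp only [trTri, Lm, map_mul, Prod.mk.injEq, true_and]
  exact tr_mul_mul _ _

lemma trTri_R (ρ : F2 →* SpecialLinearGroup (Fin 2) ℝ) (x : F2 × F2) :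
    trTri ρ (x.1 * x.2, x.2) = Rm (trTri ρ x) := by
  simp only [trTri, Rm, map_mul, Prod.mk.injEq, true_and]
  rw [tr_comm (ρ x.1 * ρ x.2) (ρ x.2), tr_comm (ρ x.1) (ρ x.2)]
  rw [← tr_comm (ρ x.1) (ρ x.2)] 
  have h := tr_mul_mul (ρ x.2)  (ρ x.1)
  have e1 : ρ x.2 * (ρ x.1 * ρ x.2) = (ρ x.2 * ρ x.1) * ρ x.2 := by rw [mul_assoc]
  rw [e1, tr_comm (ρ x.2 * ρ x.1) (ρ x.2), h, tr_comm (ρ x.2) (ρ x.1)]
  ring

lemma len_W (ρ : F2 →* SpecialLinearGroup (Fin 2) ℝ) :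
    ∀ (x : F2 × F2) (p q : ℕ), 1 ≤ p → Nat.Coprime p q → Adm (trTri ρ x) →
      gLen ρ (W x.1 x.2 p q) = Lam (trTri ρ x) p q := by
  refine euclid_ind (C := fun (x : F2 × F2) p q => Nat.Coprime p q → Adm (trTri ρ x) →
      gLen ρ (W x.1 x.2 p q) = Lam (trTri ρ x) p q)
    (fun x : F2 × F2 => (x.1, x.1 * x.2)) (fun x : F2 × F2 => (x.1 * x.2, x.2)) ?_ ?_ ?_
  · intro x p hp hc hA
    have : p = 1 := by rwa [Nat.coprime_zero_right] at hc
    subst this
    rw [W_zero, pow_one, Lam_zero]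
    unfold gLen len
    have : (trTri ρ x).1 = tr (ρ x.1) := rfl
    have h2 := hA.x2
    rw [this] at h2 ⊢
    rw [abs_of_pos (by linarith)]
    simp
  · intro x p q hp hq ih hc hA
    rw [W_L _ _ _ _ hp, Lam_L _ _ _ hp]
    have := ih (by rwa [Nat.coprime_add_self_left] at hc)
    simp only [trTri_L] at this
    exact this hA.L
  · intro x p q hp ih hc hA
    rw [W_R _ _ _ _ hp, Lam_R _ _ _ hp]
    have := ih (by rwa [Nat.coprime_self_add_right] at hc)
    simp only [trTri_R] at this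
    exact this hA.R

lemma trTri_Tw (ρ : F2 →* SpecialLinearGroup (Fin 2) ℝ) :
    trTri ρ (gb, ga⁻¹) = Tw (trTri ρ (ga, gb)) := by
  simp only [trTri, Tw, map_mul, map_inv, Prod.mk.injEq, true_and]
  refine ⟨tr_inv _, ?_⟩
  have h := tr_mul_mul (ρ ga)⁻¹ (ρ ga * ρ gb)
  rw [inv_mul_cancel_left] at h
  -- tr (A⁻¹ B) = ...
  have h2 : tr ((ρ ga)⁻¹ * ρ gb) = tr (ρ ga) * tr (ρ gb) - tr (ρ ga * ρ gb) := by
    rw [h, tr_inv]
  rw [tr_comm, h2]

end Pool.Agent.helper72.Sq
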