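import Pool.Agent.helper72.SqJ

/-!
The law for a single metric under the Diophantine hypotheses.
-/

set_option autoImplicit false

namespace Pool.Agent.helper72.Sq

open Matrix

lemma cLen_true (ρ : F2 →* SpecialLinearGroup (Fin 2) ℝ) (hA : Adm (trTri ρ (ga, gb))) (p q : ℕ)
    (hp : 1 ≤ p) (hc : Nat.Coprime p q) : cLen ρ (Wc true p q) = Lam (trTri ρ (ga, gb)) p q := by
  simp only [Wc, if_true, cLen_cl]
  exact len_W ρ (ga, gb) p q hp hc hA

lemma cLen_false (ρ : F2 →* SpecialLinearGroup (Fin 2) ℝ) (hA : Adm (trTri ρ (ga, gb))) (p q : ℕ)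
    (hp : 1 ≤ p) (hc : Nat.Coprime p q) : cLen ρ (Wc false p q) = Lam (Tw (trTri ρ (ga, gb))) p q := by
  simp only [Wc, Bool.false_eq_true, if_false, cLen_cl]
  have := len_W ρ (gb, ga⁻¹) p q hp hc
  rw [trTri_Tw] at this
  exact this hA.Tw

lemma sublevel_eq (ρ : F2 →* SpecialLinearGroup (Fin 2) ℝ) (hA : Adm (trTri ρ (ga, gb))) (R : ℝ) :
    (Subtype.val '' {x : orb ga | cLen ρ x ≤ R} : Set Curve) =
      (fun x : ℕ × ℕ => Wc true x.1 x.2) '' (CS (trTri ρ (ga, gb)) R) ∪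
      (fun x : ℕ × ℕ => Wc false x.1 x.2) '' (CS (Tw (trTri ρ (ga, gb))) R) := by
  ext c
  simp only [Set.mem_image, Set.mem_ofPred_eq, Subtype.exists, exists_and_right, exists_eq_right,
    Set.mem_union, CS, Prod.exists]
  constructor
  · rintro ⟨hc, hR⟩
    rw [orb_eq] at hc
    obtain ⟨ε, p, q, hp, hcop, rfl⟩ := hc
    cases ε
    · right
      rw [cLen_false ρ hA p q hp hcop] at hR
      exact ⟨p, q, ⟨hp, hcop, hR⟩, rfl⟩
    · left
      rw [cLen_true ρ hA p q hp hcop] at hR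
      exact ⟨p, q, ⟨hp, hcop, hR⟩, rfl⟩
  · rintro (⟨p, q, ⟨hp, hcop, hR⟩, rfl⟩ | ⟨p, q, ⟨hp, hcop, hR⟩, rfl⟩)
    · refine ⟨?_, ?_⟩
      · rw [orb_eq]; exact ⟨true, p, q, hp, hcop, rfl⟩
      · rw [cLen_true ρ hA p q hp hcop]; exact hR
    · refine ⟨?_, ?_⟩
      · rw [orb_eq]; exact ⟨false, p, q, hp, hcop, rfl⟩
      · rw [cLen_false ρ hA p q hp hcop]; exact hR

theorem law_of_dio (ρ : F2 →* SpecialLinearGroup (Fin 2) ℝ) (hA : Adm (trTri ρ (ga, gb)))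
    (h1 : AllDio (trTri ρ (ga, gb))) (h2 : AllDio (Tw (trTri ρ (ga, gb)))) :
    (∃ e : ℕ ≃ orb ga, Monotone (fun k => cLen ρ (e k))) ∧
    ∃ u C : ℝ, 0 < u ∧ ∀ e : ℕ ≃ orb ga, Monotone (fun k => cLen ρ (e k)) →
      ∀ k : ℕ, |u * √((k : ℝ) + 1) - cLen ρ (e k)| ≤ C := by
  obtain ⟨f1, f2, b, K, hb, hK, h⟩ := total_asymp hA h1 h2
  set P := trTri ρ (ga, gb) with hP
  have himg := sublevel_eq ρ hA
  have hfin : ∀ R, {x : orb ga | cLen ρ x ≤ R}.Finite := by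
    intro R
    have : (Subtype.val '' {x : orb ga | cLen ρ x ≤ R} : Set Curve).Finite := by
      rw [himg R]
      exact ((f1 R).image _).union ((f2 R).image _)
    exact this.of_finite_image Subtype.val_injective.injOn
  have hcard : ∀ R, ({x : orb ga | cLen ρ x ≤ R}.ncard : ℝ) =
      ((CS P R).ncard : ℝ) + ((CS (Tw P) R).ncard : ℝ) := by
    intro R
    rw [← Set.ncard_image_of_injective {x : orb ga | cLen ρ x ≤ R} Subtype.val_injective, himg R,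
      Set.ncard_union_eq _ ((f1 R).image _) ((f2 R).image _), Set.ncard_image_of_injOn,
      Set.ncard_image_of_injOn]
    · push_cast; rfl
    · rintro ⟨p, q⟩ h ⟨p', q'⟩ h' heq
      obtain ⟨_, e1, e2⟩ := Wc_inj h.1 h'.1 heq
      simp only at e1 e2
      rw [e1, e2]
    · rintro ⟨p, q⟩ h ⟨p', q'⟩ h' heq
      obtain ⟨_, e1, e2⟩ := Wc_inj h.1 h'.1 heq
      simp only at e1 e2
      rw [e1, e2]
    · rw [Set.disjoint_left]
      rintro c ⟨⟨p, q⟩, h, rfl⟩ ⟨⟨p', q'⟩, h', heq⟩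
      obtain ⟨e0, _, _⟩ := Wc_inj h'.1 h.1 heq
      exact absurd e0 (by decide)
  have hpos : ∀ x : orb ga, 0 ≤ cLen ρ x := by
    rintro ⟨c, hc⟩
    rw [orb_eq] at hc
    obtain ⟨ε, p, q, hp, hcop, rfl⟩ := hc
    cases ε
    · rw [cLen_false ρ hA p q hp hcop]; exact (Lam_pos _ _ _ hp hA.Tw).le
    · rw [cLen_true ρ hA p q hp hcop]; exact (Lam_pos _ _ _ hp hA).le
  refine kth_law (fun x : orb ga => cLen ρ x) hfin hpos b K hb hK ?_
  intro R hR
  rw [hcard R]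
  exact h R hR

end Pool.Agent.helper72.Sq
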