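import Pool.Agent.helper72.SqK

/-!
Pairs `(φ a, φ b)` for `φ` in the mapping class group, up to conjugation, left multiplication of the
second element by powers of the first, and inversion.
-/

set_option autoImplicit false

namespace Pool.Agent.helper72.Sq

open Matrix

/-- the pair of complementary primitive elements -/
def Wp {G : Type*} [Group G] (u v : G) (p q : ℕ) : G × G :=
  if q = 0 then (u, v)
  else if p = 0 then (u, v)
  else if q < p then Wp u (u * v) (p - q) q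
  else Wp (u * v) v p (q - p)
termination_by p + q
decreasing_by all_goals omega

lemma Wp_zero {G : Type*} [Group G] (u v : G) (p : ℕ) : Wp u v p 0 = (u, v) := by rw [Wp]; simp

lemma Wp_L {G : Type*} [Group G] (u v : G) (p q : ℕ) (hp : 1 ≤ p) (hq : 1 ≤ q) :
    Wp u v (p + q) q = Wp u (u * v) p q := by
  rw [Wp, if_neg (by omega), if_neg (by omega), if_pos (by omega), Nat.add_sub_cancel]

lemma Wp_R {G : Type*} [Group G] (u v : G) (p q : ℕ) (hp : 1 ≤ p) :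
    Wp u v p (p + q) = Wp (u * v) v p q := by
  rw [Wp, if_neg (by omega), if_neg (by omega), if_neg (by omega), Nat.add_sub_cancel_left]

lemma Wp_map {G K : Type*} [Group G] [Group K] (f : G →* K) :
    ∀ (x : G × G) (p q : ℕ), 1 ≤ p →
      (f (Wp x.1 x.2 p q).1, f (Wp x.1 x.2 p q).2) = Wp (f x.1) (f x.2) p q := by
  refine euclid_ind (C := fun x p q => (f (Wp x.1 x.2 p q).1, f (Wp x.1 x.2 p q).2) =
      Wp (f x.1) (f x.2) p q) (fun x : G × G => (x.1, x.1 * x.2)) (fun x : G × G => (x.1 * x.2, x.2))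
      ?_ ?_ ?_
  · intro x p hp
    rw [Wp_zero, Wp_zero]
  · intro x p q hp hq ih
    rw [Wp_L _ _ _ _ hp hq, Wp_L _ _ _ _ hp hq]
    simpa using ih
  · intro x p q hp ih
    rw [Wp_R _ _ _ _ hp, Wp_R _ _ _ _ hp]
    simpa using ih

lemma Wp_fst {G : Type*} [Group G] :
    ∀ (x : G × G) (p q : ℕ), 1 ≤ p → Nat.Coprime p q → (Wp x.1 x.2 p q).1 = W x.1 x.2 p q := by
  refine euclid_ind (C := fun x p q => Nat.Coprime p q → (Wp x.1 x.2 p q).1 = W x.1 x.2 p q)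
      (fun x : G × G => (x.1, x.1 * x.2)) (fun x : G × G => (x.1 * x.2, x.2)) ?_ ?_ ?_
  · intro x p hp hc
    have : p = 1 := by rwa [Nat.coprime_zero_right] at hc
    subst this
    rw [Wp_zero, W_zero, pow_one]
  · intro x p q hp hq ih hc
    rw [Wp_L _ _ _ _ hp hq, W_L _ _ _ _ hp]
    exact ih (by rwa [Nat.coprime_add_self_left] at hc)
  · intro x p q hp ih hc
    rw [Wp_R _ _ _ _ hp, W_R _ _ _ _ hp]
    exact ih (by rwa [Nat.coprime_self_add_right] at hc)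

/-- the relation on pairs -/
def PRel (x y : F2 × F2) : Prop := ∃ (c : F2) (n : ℤ),
  (y.1 = c * x.1 * c⁻¹ ∧ y.2 = c * (x.1 ^ n * x.2) * c⁻¹) ∨
  (y.1 = c * x.1⁻¹ * c⁻¹ ∧ y.2 = c * (x.1 ^ n * x.2⁻¹) * c⁻¹)

/-- classes of pairs -/
def PC : Type := Quot PRel

/-- class of a pair -/
def pc (x : F2 × F2) : PC := Quot.mk PRel x

lemma pc_conj (c u v : F2) : pc (c * u * c⁻¹, c * v * c⁻¹) = pc (u, v) :=
  (Quot.sound ⟨c, 0, Or.inl ⟨rfl, by simp⟩⟩).symm

lemma pc_left (u v : F2) : pc (u, u * v) = pc (u, v) :=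
  (Quot.sound ⟨1, 1, Or.inl ⟨by simp, by simp⟩⟩).symm

lemma pc_inv (u v : F2) : pc (u⁻¹, v⁻¹) = pc (u, v) :=
  (Quot.sound ⟨1, 0, Or.inr ⟨by simp, by simp⟩⟩).symm

lemma pc_Wp_L (u v : F2) (p q : ℕ) (hp : 1 ≤ p) :
    pc (Wp u v (p + q) q) = pc (Wp u (u * v) p q) := by
  rcases Nat.eq_zero_or_pos q with hq | hq
  · subst hq
    rw [Nat.add_zero, Wp_zero, Wp_zero, pc_left]
  · rw [Wp_L _ _ _ _ hp hq]

lemma pc_Wp_conj (c u v u' v' : F2) (p q : ℕ) (hp : 1 ≤ p) (h1 : c * u * c⁻¹ = u')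
    (h2 : c * v * c⁻¹ = v') : pc (Wp u v p q) = pc (Wp u' v' p q) := by
  have h := Wp_map (MulAut.conj c).toMonoidHom (u, v) p q hp
  simp only [MulEquiv.coe_toMonoidHom, MulAut.conj_apply] at h
  rw [h1, h2] at h
  rw [← h, pc_conj]

lemma pc_Wp_inv_aux : ∀ (x : F2 × F2) (p q : ℕ), 1 ≤ p →
    pc (Wp x.1⁻¹ x.2⁻¹ p q) = pc (Wp x.1 x.2 p q) := by
  refine euclid_ind (C := fun (x : F2 × F2) p q => pc (Wp x.1⁻¹ x.2⁻¹ p q) = pc (Wp x.1 x.2 p q))
      (fun x : F2 × F2 => (x.1, x.1 * x.2)) (fun x : F2 × F2 => (x.1 * x.2, x.2)) ?_ ?_ ?_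
  · intro x p hp
    rw [Wp_zero, Wp_zero, pc_inv]
  · intro x p q hp hq ih
    rw [pc_Wp_L _ _ _ _ hp, pc_Wp_L _ _ _ _ hp, ← ih]
    exact pc_Wp_conj x.1 _ _ _ _ p q hp (by group) (by group)
  · intro x p q hp ih
    rw [Wp_R _ _ _ _ hp, Wp_R _ _ _ _ hp, ← ih]
    exact pc_Wp_conj x.2⁻¹ _ _ _ _ p q hp (by group) (by group)

lemma pc_Wp_inv (u v u' v' : F2) (p q : ℕ) (hp : 1 ≤ p) (h1 : u⁻¹ = u') (h2 : v⁻¹ = v') :
    pc (Wp u v p q) = pc (Wp u' v' p q) := by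
  subst h1; subst h2
  exact (pc_Wp_inv_aux (u, v) p q hp).symm

/-- the pair classes of the two cones -/
def Kc (ε : Bool) (p q : ℕ) : PC := if ε then pc (Wp ga gb p q) else pc (Wp gb ga⁻¹ p q)

/-- the set of these classes -/
def PS : Set PC := {c | ∃ ε p q, 1 ≤ p ∧ Nat.Coprime p q ∧ c = Kc ε p q}

lemma PRel_map (φ : F2 →* F2) {x y : F2 × F2} (h : PRel x y) :
    PRel (φ x.1, φ x.2) (φ y.1, φ y.2) := by
  obtain ⟨c, n, h | h⟩ := h
  · refine ⟨φ c, n, Or.inl ⟨?_, ?_⟩⟩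
    · simp only [h.1, map_mul, map_inv]
    · simp only [h.2, map_mul, map_inv, map_zpow]
  · refine ⟨φ c, n, Or.inr ⟨?_, ?_⟩⟩
    · simp only [h.1, map_mul, map_inv]
    · simp only [h.2, map_mul, map_inv, map_zpow]

/-- action on classes -/
def pmap (φ : F2 →* F2) : PC → PC :=
  Quot.map (fun x : F2 × F2 => (φ x.1, φ x.2)) (fun _ _ h => PRel_map φ h)

lemma pmap_pc (φ : F2 →* F2) (x : F2 × F2) : pmap φ (pc x) = pc (φ x.1, φ x.2) := rfl

/-- preserving the set of classes -/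
def PPres (φ : F2 ≃* F2) : Prop := ∀ x : F2 × F2, pc x ∈ PS → pc (φ x.1, φ x.2) ∈ PS

lemma ppres_of (φ : F2 ≃* F2)
    (h1 : ∀ p q, 1 ≤ p → Nat.Coprime p q → pc (Wp (φ ga) (φ gb) p q) ∈ PS)
    (h2 : ∀ p q, 1 ≤ p → Nat.Coprime p q → pc (Wp (φ gb) (φ ga)⁻¹ p q) ∈ PS) : PPres φ := by
  rintro x ⟨ε, p, q, hp, hc, hx⟩
  have h3 := congrArg (pmap φ.toMonoidHom) hx
  rw [pmap_pc] at h3
  simp only [MulEquiv.coe_toMonoidHom] at h3
  rw [h3]
  unfold Kc
  cases ε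
  · simp only [Bool.false_eq_true, if_false]
    rw [pmap_pc, Wp_map φ.toMonoidHom (gb, ga⁻¹) p q hp]
    simp only [MulEquiv.coe_toMonoidHom, map_inv]
    exact h2 p q hp hc
  · simp only [if_true]
    rw [pmap_pc, Wp_map φ.toMonoidHom (ga, gb) p q hp]
    simp only [MulEquiv.coe_toMonoidHom]
    exact h1 p q hp hc

lemma pmem_true {p q : ℕ} (hp : 1 ≤ p) (hc : Nat.Coprime p q) : pc (Wp ga gb p q) ∈ PS :=
  ⟨true, p, q, hp, hc, by simp [Kc]⟩

lemma pmem_false {p q : ℕ} (hp : 1 ≤ p) (hc : Nat.Coprime p q) : pc (Wp gb ga⁻¹ p q) ∈ PS :=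
  ⟨false, p, q, hp, hc, by simp [Kc]⟩

lemma ppres_twA : PPres twA := by
  apply ppres_of
  · intro p q hp hc
    rw [twA_a, twA_b, ← pc_Wp_L _ _ _ _ hp]
    exact pmem_true (by omega) (by rwa [Nat.coprime_add_self_left])
  · rw [twA_a, twA_b]
    apply cop_cases
    · intro p q hp hc
      rw [pc_Wp_L _ _ _ _ hp, pc_Wp_conj (ga * gb)⁻¹ _ _ (ga * gb) gb p q hp (by group) (by group),
        ← Wp_R _ _ _ _ hp]
      exact pmem_true hp (by rwa [Nat.coprime_self_add_right])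
    · intro p q hp hc
      rw [Wp_R _ _ _ _ hp, pc_Wp_conj ga⁻¹ _ _ gb ga⁻¹ p q hp (by group) (by group)]
      exact pmem_false hp hc

lemma ppres_twA_symm : PPres twA.symm := by
  apply ppres_of
  · rw [twA_symm_a, twA_symm_b]
    apply cop_cases
    · intro p q hp hc
      rw [pc_Wp_L _ _ _ _ hp, mul_inv_cancel_left]
      exact pmem_true hp hc
    · intro p q hp hc
      rw [Wp_R _ _ _ _ hp, mul_inv_cancel_left,
        pc_Wp_conj gb _ _ gb (gb * ga⁻¹) p q hp (by group) (by group), ← pc_Wp_L _ _ _ _ hp]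
      exact pmem_false (by omega) (by rwa [Nat.coprime_add_self_left])
  · intro p q hp hc
    rw [twA_symm_a, twA_symm_b,
      pc_Wp_conj ga _ _ (gb * ga⁻¹) ga⁻¹ p q hp (by group) (by group), ← Wp_R _ _ _ _ hp]
    exact pmem_false hp (by rwa [Nat.coprime_self_add_right])

lemma ppres_twB : PPres twB := by
  apply ppres_of
  · intro p q hp hc
    rw [twB_a, twB_b, ← Wp_R _ _ _ _ hp]
    exact pmem_true hp (by rwa [Nat.coprime_self_add_right])
  · rw [twB_a, twB_b]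
    apply cop_cases
    · intro p q hp hc
      rw [pc_Wp_L _ _ _ _ hp, show gb * (ga * gb)⁻¹ = ga⁻¹ by group]
      exact pmem_false hp hc
    · intro p q hp hc
      rw [Wp_R _ _ _ _ hp, show gb * (ga * gb)⁻¹ = ga⁻¹ by group,
        pc_Wp_inv ga⁻¹ (ga * gb)⁻¹ ga (ga * gb) p q hp (by group) (by group),
        ← pc_Wp_L _ _ _ _ hp]
      exact pmem_true (by omega) (by rwa [Nat.coprime_add_self_left])

lemma ppres_twB_symm : PPres twB.symm := by
  apply ppres_of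
  · rw [twB_symm_a, twB_symm_b]
    apply cop_cases
    · intro p q hp hc
      rw [pc_Wp_L _ _ _ _ hp, show ga * gb⁻¹ * gb = ga by group,
        pc_Wp_inv (ga * gb⁻¹) ga (gb * ga⁻¹) ga⁻¹ p q hp (by group) (by group),
        ← Wp_R _ _ _ _ hp]
      exact pmem_false hp (by rwa [Nat.coprime_self_add_right])
    · intro p q hp hc
      rw [Wp_R _ _ _ _ hp, show ga * gb⁻¹ * gb = ga by group]
      exact pmem_true hp hc
  · intro p q hp hc
    rw [twB_symm_a, twB_symm_b, show (ga * gb⁻¹)⁻¹ = gb * ga⁻¹ by group, ← pc_Wp_L _ _ _ _ hp]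
    exact pmem_false (by omega) (by rwa [Nat.coprime_add_self_left])

lemma ppres_MCG (φ : MulAut F2) (hφ : φ ∈ MCG) : PPres φ ∧ PPres φ⁻¹ := by
  refine Subgroup.closure_induction (p := fun φ _ => PPres φ ∧ PPres φ⁻¹) ?_ ?_ ?_ ?_ hφ
  · rintro x (rfl | rfl)
    · exact ⟨ppres_twA, ppres_twA_symm⟩
    · exact ⟨ppres_twB, ppres_twB_symm⟩
  · refine ⟨fun g hg => hg, fun g hg => ?_⟩
    simpa using hg
  · rintro x y _ _ ⟨hx1, hx2⟩ ⟨hy1, hy2⟩
    refine ⟨fun g hg => hx1 _ (hy1 _ hg), fun g hg => ?_⟩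
    rw [_root_.mul_inv_rev]
    exact hy2 _ (hx2 _ hg)
  · rintro x _ ⟨hx1, hx2⟩
    refine ⟨hx2, ?_⟩
    rw [inv_inv]; exact hx1

lemma pc_MCG (φ : MulAut F2) (hφ : φ ∈ MCG) : pc (φ ga, φ gb) ∈ PS := by
  apply (ppres_MCG φ hφ).1 (ga, gb)
  refine ⟨true, 1, 0, le_rfl, by norm_num, ?_⟩
  simp [Kc, Wp_zero]

lemma eq_on_pants {f g : F2 →* F2} (h1 : f ga = g ga)
    (h2 : f (gb * ga * gb⁻¹) = g (gb * ga * gb⁻¹)) {w : F2} (hw : w ∈ pants) : f w = g w := by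
  have : pants ≤ f.eqLocus g := by
    rw [pants, Subgroup.closure_le]
    rintro x (rfl | rfl)
    · exact h1
    · exact h2
  exact this hw

/-- evaluation at a pair -/
def ev (x : F2 × F2) : F2 →* F2 := mk2 x.1 x.2
/-- evaluation at the inverse pair -/
def evi (x : F2 × F2) : F2 →* F2 := mk2 x.1⁻¹ x.2⁻¹

lemma ev_conj_eq (c : F2) (y : F2 × F2) (f : F2 →* F2) {w : F2} (hw : w ∈ pants)
    (h1 : y.1 = c * f ga * c⁻¹)
    (h2 : y.2 * y.1 * y.2⁻¹ = c * f (gb * ga * gb⁻¹) * c⁻¹) : ev y w = c * f w * c⁻¹ := by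
  have := eq_on_pants (f := ev y) (g := (MulAut.conj c).toMonoidHom.comp f) (by simp [ev, h1])
    (by
      simp only [ev, map_mul, map_inv, mk2_a, mk2_b, MonoidHom.comp_apply,
        MulEquiv.coe_toMonoidHom, MulAut.conj_apply]
      rw [h2]
      simp only [map_mul, map_inv]
      group) hw
  rw [this]; rfl

lemma evi_conj_eq (c : F2) (y : F2 × F2) (f : F2 →* F2) {w : F2} (hw : w ∈ pants)
    (h1 : y.1⁻¹ = c * f ga * c⁻¹)
    (h2 : y.2⁻¹ * y.1⁻¹ * y.2 = c * f (gb * ga * gb⁻¹) * c⁻¹) : evi y w = c * f w * c⁻¹ := by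
  have := ev_conj_eq c (y.1⁻¹, y.2⁻¹) f hw h1 (by simpa using h2)
  exact this

lemma inv_pair {x y : F2 × F2} (h : PRel x y) {w : F2} (hw : w ∈ pants) :
    (cl (ev y w) = cl (ev x w) ∧ cl (evi y w) = cl (evi x w)) ∨
    (cl (ev y w) = cl (evi x w) ∧ cl (evi y w) = cl (ev x w)) := by
  obtain ⟨x1, x2⟩ := x
  obtain ⟨y1, y2⟩ := y
  obtain ⟨c, n, h | h⟩ := h
  · left
    obtain ⟨h1, h2⟩ := h
    simp only at h1 h2
    subst h1; subst h2
    constructor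
    · rw [ev_conj_eq (c * x1 ^ n) _ (ev (x1, x2)) hw (by simp [ev]; group) (by simp [ev]; group), cl_conj]
    · rw [evi_conj_eq c _ (evi (x1, x2)) hw (by simp [evi]; group) (by simp [evi]; group), cl_conj]
  · right
    obtain ⟨h1, h2⟩ := h
    simp only at h1 h2
    subst h1; subst h2
    constructor
    · rw [ev_conj_eq (c * x1 ^ n) _ (evi (x1, x2)) hw (by simp [evi]; group)
        (by simp [evi]; group), cl_conj]
    · rw [evi_conj_eq c _ (ev (x1, x2)) hw (by simp [ev]; group) (by simp [ev]; group), cl_conj]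

/-- first curve of a pair class -/
def fstC : PC → Curve := Quot.lift (fun x => cl x.1) (by
  rintro ⟨x1, x2⟩ ⟨y1, y2⟩ ⟨c, n, h | h⟩
  · simp only at h ⊢
    rw [h.1, cl_conj]
  · simp only at h ⊢
    rw [h.1, cl_conj, cl_inv])

/-- the set of the two curves attached to an element of the pants group -/
def twoC (w : F2) (hw : w ∈ pants) : PC → Set Curve :=
  Quot.lift (fun x => {cl (ev x w), cl (evi x w)}) (by
    intro x y h
    rcases inv_pair h hw with ⟨h1, h2⟩ | ⟨h1, h2⟩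
    · simp only [h1, h2]
    · simp only [h1, h2]; exact Set.pair_comm _ _)

lemma fstC_Kc (ε : Bool) (p q : ℕ) (hp : 1 ≤ p) (hc : Nat.Coprime p q) :
    fstC (Kc ε p q) = Wc ε p q := by
  cases ε
  · simp only [Kc, Wc, Bool.false_eq_true, if_false]
    change cl (Wp gb ga⁻¹ p q).1 = _
    rw [Wp_fst (gb, ga⁻¹) p q hp hc]
  · simp only [Kc, Wc, if_true]
    change cl (Wp ga gb p q).1 = _
    rw [Wp_fst (ga, gb) p q hp hc]

lemma ev_MCG (φ : MulAut F2) (w : F2) : ev (φ ga, φ gb) w = φ w := by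
  have : ev (φ ga, φ gb) = φ.toMonoidHom := F2_hom_ext (by simp [ev]) (by simp [ev])
  rw [this]; rfl

/-- the elliptic involution -/
def iot : F2 →* F2 := mk2 ga⁻¹ gb⁻¹

lemma evi_MCG (φ : MulAut F2) (w : F2) : evi (φ ga, φ gb) w = φ (iot w) := by
  have : evi (φ ga, φ gb) = φ.toMonoidHom.comp iot :=
    F2_hom_ext (by simp [evi, iot]) (by simp [evi, iot])
  rw [this]; rfl

/-- two mapping classes with the same image of `a` differ by twists and the involution on the pants -/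
lemma same_a {φ ψ : MulAut F2} (hφ : φ ∈ MCG) (hψ : ψ ∈ MCG) (h : cl (φ ga) = cl (ψ ga))
    {w : F2} (hw : w ∈ pants) :
    ({cl (φ w), cl (φ (iot w))} : Set Curve) = {cl (ψ w), cl (ψ (iot w))} := by
  obtain ⟨ε, p, q, hp, hc, hK⟩ := pc_MCG φ hφ
  obtain ⟨ε', p', q', hp', hc', hK'⟩ := pc_MCG ψ hψ
  have e1 := congrArg fstC hK
  have e2 := congrArg fstC hK'
  rw [fstC_Kc _ _ _ hp hc] at e1
  rw [fstC_Kc _ _ _ hp' hc'] at e2
  have e1' : cl (φ ga) = Wc ε p q := e1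
  have e2' : cl (ψ ga) = Wc ε' p' q' := e2
  rw [e1', e2'] at h
  obtain ⟨rfl, rfl, rfl⟩ := Wc_inj hp hp' h
  have e3 : pc (φ ga, φ gb) = pc (ψ ga, ψ gb) := by rw [hK, hK']
  have e4 := congrArg (twoC w hw) e3
  have e5 : ({cl (ev (φ ga, φ gb) w), cl (evi (φ ga, φ gb) w)} : Set Curve) =
    {cl (ev (ψ ga, ψ gb) w), cl (evi (ψ ga, ψ gb) w)} := e4
  rwa [ev_MCG, evi_MCG, ev_MCG, evi_MCG] at e5

end Pool.Agent.helper72.Sq
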