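import Pool.Agent.helper72.SqO

/-!
Traces are determined by the traces of the generators and of their product; the standard pair of
pants and the growth of traces.
-/

set_option autoImplicit false

namespace Pool.Agent.helper72.Sq

open Matrix Filter Topology

/-- the matrix -/
def mt (M : SpecialLinearGroup (Fin 2) ℝ) : Matrix (Fin 2) (Fin 2) ℝ := M

lemma mt_mul (A B : SpecialLinearGroup (Fin 2) ℝ) : mt (A * B) = mt A * mt B :=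
  Matrix.SpecialLinearGroup.coe_mul A B

lemma mt_apply (A : SpecialLinearGroup (Fin 2) ℝ) (i j : Fin 2) : mt A i j = A i j := rfl

/-- the common span -/
def Sp (A1 B1 A2 B2 : SpecialLinearGroup (Fin 2) ℝ) (M1 M2 : Matrix (Fin 2) (Fin 2) ℝ) : Prop :=
  ∃ p0 p1 p2 p3 : ℝ,
    M1 = p0 • (1 : Matrix (Fin 2) (Fin 2) ℝ) + p1 • mt A1 + p2 • mt B1 + p3 • (mt A1 * mt B1) ∧
    M2 = p0 • (1 : Matrix (Fin 2) (Fin 2) ℝ) + p1 • mt A2 + p2 • mt B2 + p3 • (mt A2 * mt B2)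

section
variable {A1 B1 A2 B2 : SpecialLinearGroup (Fin 2) ℝ}

lemma mulA_form (A B : SpecialLinearGroup (Fin 2) ℝ) (p0 p1 p2 p3 : ℝ) :
    mt A * (p0 • (1 : Matrix (Fin 2) (Fin 2) ℝ) + p1 • mt A + p2 • mt B + p3 • (mt A * mt B)) =
    (-p1) • (1 : Matrix (Fin 2) (Fin 2) ℝ) + (p0 + p1 * tr A) • mt A + (-p3) • mt B +
      (p2 + p3 * tr A) • (mt A * mt B) := by
  have hA := sl2_det A
  ext i j
  fin_cases i <;> fin_cases j <;>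
    simp [mt_apply, Matrix.mul_apply, Fin.sum_univ_two, tr] <;>
    [linear_combination (-p1 - p3 * B 0 0) * hA; linear_combination (- p3 * B 0 1) * hA;
     linear_combination (- p3 * B 1 0) * hA; linear_combination (-p1 - p3 * B 1 1) * hA]

lemma mulB_form (A B : SpecialLinearGroup (Fin 2) ℝ) (p0 p1 p2 p3 : ℝ) :
    mt B * (p0 • (1 : Matrix (Fin 2) (Fin 2) ℝ) + p1 • mt A + p2 • mt B + p3 • (mt A * mt B)) =
    (p1 * (tr (A * B) - tr A * tr B) - p2 - p3 * tr A) • (1 : Matrix (Fin 2) (Fin 2) ℝ) +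
      (p1 * tr B + p3) • mt A + (p0 + p1 * tr A + p2 * tr B + p3 * tr (A * B)) • mt B +
      (-p1) • (mt A * mt B) := by
  have hA := sl2_det A
  have hB := sl2_det B
  ext i j
  fin_cases i <;> fin_cases j <;>
    simp [mt_apply, Matrix.mul_apply, Fin.sum_univ_two, tr, sl2_mul] <;>
    [linear_combination (-p2 - p3 * A 1 1) * hB - p3 * 0 * hA; 
     linear_combination (p3 * A 0 1) * hB;
     linear_combination (p3 * A 1 0) * hB;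
     linear_combination (-p2 - p3 * A 0 0) * hB]

lemma Sp_mulA (hx : tr A1 = tr A2) {M1 M2 : Matrix (Fin 2) (Fin 2) ℝ} (h : Sp A1 B1 A2 B2 M1 M2) :
    Sp A1 B1 A2 B2 (mt A1 * M1) (mt A2 * M2) := by
  obtain ⟨p0, p1, p2, p3, h1, h2⟩ := h
  refine ⟨-p1, p0 + p1 * tr A1, -p3, p2 + p3 * tr A1, ?_, ?_⟩
  · rw [h1, mulA_form]
  · rw [h2, mulA_form, hx]

lemma Sp_mulB (hx : tr A1 = tr A2) (hy : tr B1 = tr B2) (hz : tr (A1 * B1) = tr (A2 * B2))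
    {M1 M2 : Matrix (Fin 2) (Fin 2) ℝ} (h : Sp A1 B1 A2 B2 M1 M2) :
    Sp A1 B1 A2 B2 (mt B1 * M1) (mt B2 * M2) := by
  obtain ⟨p0, p1, p2, p3, h1, h2⟩ := h
  refine ⟨p1 * (tr (A1 * B1) - tr A1 * tr B1) - p2 - p3 * tr A1, p1 * tr B1 + p3,
    p0 + p1 * tr A1 + p2 * tr B1 + p3 * tr (A1 * B1), -p1, ?_, ?_⟩
  · rw [h1, mulB_form]
  · rw [h2, mulB_form, hx, hy, hz]

lemma Sp_lin (c1 c2 c3 c4 : ℝ) {M1 M2 N1 N2 O1 O2 Q1 Q2 : Matrix (Fin 2) (Fin 2) ℝ}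
    (hM : Sp A1 B1 A2 B2 M1 M2) (hN : Sp A1 B1 A2 B2 N1 N2) (hO : Sp A1 B1 A2 B2 O1 O2)
    (hQ : Sp A1 B1 A2 B2 Q1 Q2) :
    Sp A1 B1 A2 B2 (c1 • M1 + c2 • N1 + c3 • O1 + c4 • Q1) (c1 • M2 + c2 • N2 + c3 • O2 + c4 • Q2) := by
  obtain ⟨a0, a1, a2, a3, hM1, hM2⟩ := hM
  obtain ⟨b0, b1, b2, b3, hN1, hN2⟩ := hN
  obtain ⟨d0, d1, d2, d3, hO1, hO2⟩ := hO
  obtain ⟨e0, e1, e2, e3, hQ1, hQ2⟩ := hQ
  refine ⟨c1 * a0 + c2 * b0 + c3 * d0 + c4 * e0, c1 * a1 + c2 * b1 + c3 * d1 + c4 * e1,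
    c1 * a2 + c2 * b2 + c3 * d2 + c4 * e2, c1 * a3 + c2 * b3 + c3 * d3 + c4 * e3, ?_, ?_⟩
  · rw [hM1, hN1, hO1, hQ1]; module
  · rw [hM2, hN2, hO2, hQ2]; module

lemma Sp_mul (hx : tr A1 = tr A2) (hy : tr B1 = tr B2) (hz : tr (A1 * B1) = tr (A2 * B2))
    {M1 M2 N1 N2 : Matrix (Fin 2) (Fin 2) ℝ} (hM : Sp A1 B1 A2 B2 M1 M2)
    (hN : Sp A1 B1 A2 B2 N1 N2) : Sp A1 B1 A2 B2 (M1 * N1) (M2 * N2) := by
  obtain ⟨p0, p1, p2, p3, h1, h2⟩ := hM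
  have hA := Sp_mulA hx hN
  have hB := Sp_mulB hx hy hz hN
  have hAB := Sp_mulA hx hB
  have h := Sp_lin p0 p1 p2 p3 hN hA hB hAB
  have e1 : M1 * N1 = p0 • N1 + p1 • (mt A1 * N1) + p2 • (mt B1 * N1) + p3 • (mt A1 * (mt B1 * N1)) := by
    rw [h1]; simp only [add_mul, smul_mul_assoc, one_mul, mul_assoc]
  have e2 : M2 * N2 = p0 • N2 + p1 • (mt A2 * N2) + p2 • (mt B2 * N2) + p3 • (mt A2 * (mt B2 * N2)) := by
    rw [h2]; simp only [add_mul, smul_mul_assoc, one_mul, mul_assoc]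
  rw [e1, e2]
  exact h

lemma inv_form (A : SpecialLinearGroup (Fin 2) ℝ) :
    mt A⁻¹ = tr A • (1 : Matrix (Fin 2) (Fin 2) ℝ) + (-1 : ℝ) • mt A := by
  unfold mt
  rw [SpecialLinearGroup.SL2_inv_expl]
  ext i j
  fin_cases i <;> fin_cases j <;> simp [tr]

end

lemma Sp_hom (ρ1 ρ2 : F2 →* SpecialLinearGroup (Fin 2) ℝ) (hx : tr (ρ1 ga) = tr (ρ2 ga))
    (hy : tr (ρ1 gb) = tr (ρ2 gb)) (hz : tr (ρ1 (ga * gb)) = tr (ρ2 (ga * gb))) (h : F2) :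
    Sp (ρ1 ga) (ρ1 gb) (ρ2 ga) (ρ2 gb) (mt (ρ1 h)) (mt (ρ2 h)) := by
  rw [map_mul, map_mul] at hz
  have hA : Sp (ρ1 ga) (ρ1 gb) (ρ2 ga) (ρ2 gb) (mt (ρ1 ga)) (mt (ρ2 ga)) :=
    ⟨0, 1, 0, 0, by simp, by simp⟩
  have hB : Sp (ρ1 ga) (ρ1 gb) (ρ2 ga) (ρ2 gb) (mt (ρ1 gb)) (mt (ρ2 gb)) :=
    ⟨0, 0, 1, 0, by simp, by simp⟩
  have h1 : Sp (ρ1 ga) (ρ1 gb) (ρ2 ga) (ρ2 gb) 1 1 := ⟨1, 0, 0, 0, by simp, by simp⟩
  have hA' : Sp (ρ1 ga) (ρ1 gb) (ρ2 ga) (ρ2 gb) (mt (ρ1 ga)⁻¹) (mt (ρ2 ga)⁻¹) :=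
    ⟨tr (ρ1 ga), -1, 0, 0, by rw [inv_form]; simp, by rw [inv_form, hx]; simp⟩
  have hB' : Sp (ρ1 ga) (ρ1 gb) (ρ2 ga) (ρ2 gb) (mt (ρ1 gb)⁻¹) (mt (ρ2 gb)⁻¹) :=
    ⟨tr (ρ1 gb), 0, -1, 0, by rw [inv_form]; simp, by rw [inv_form, hy]; simp⟩
  induction h using FreeGroup.induction_on with
  | C1 => rw [map_one, map_one]; exact h1
  | of i =>
    fin_cases i
    · exact hA
    · exact hB
  | inv_of i _ =>
    rw [map_inv, map_inv]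
    fin_cases i
    · exact hA'
    · exact hB'
  | mul x y hx' hy' =>
    rw [map_mul, map_mul, mt_mul, mt_mul]
    exact Sp_mul hx hy hz hx' hy'

/-- the trace principle -/
theorem trace_principle (ρ1 ρ2 : F2 →* SpecialLinearGroup (Fin 2) ℝ) (hx : tr (ρ1 ga) = tr (ρ2 ga))
    (hy : tr (ρ1 gb) = tr (ρ2 gb)) (hz : tr (ρ1 (ga * gb)) = tr (ρ2 (ga * gb))) (h : F2) :
    tr (ρ1 h) = tr (ρ2 h) := by
  obtain ⟨p0, p1, p2, p3, h1, h2⟩ := Sp_hom ρ1 ρ2 hx hy hz h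
  have e : ∀ (A B M : SpecialLinearGroup (Fin 2) ℝ),
      mt M = p0 • (1 : Matrix (Fin 2) (Fin 2) ℝ) + p1 • mt A + p2 • mt B + p3 • (mt A * mt B) →
      tr M = 2 * p0 + p1 * tr A + p2 * tr B + p3 * tr (A * B) := by
    intro A B M hM
    have h00 := congrFun (congrFun hM 0) 0
    have h11 := congrFun (congrFun hM 1) 1
    simp only [mt_apply, Matrix.add_apply, Matrix.smul_apply, Matrix.mul_apply, Fin.sum_univ_two,
      Matrix.one_apply_eq, smul_eq_mul] at h00 h11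
    unfold tr
    rw [h00, h11, sl2_mul, sl2_mul]
    ring
  rw [map_mul, map_mul] at hz
  rw [e _ _ _ h1, e _ _ _ h2, hx, hy, hz]

/-- Fricke's commutator identity. -/
lemma tr_commutator (A B : SpecialLinearGroup (Fin 2) ℝ) :
    tr (A * B * A⁻¹ * B⁻¹) = tr A ^ 2 + tr B ^ 2 + tr (A * B) ^ 2 - tr A * tr B * tr (A * B) - 2 := by
  have hA := sl2_det A
  have hB := sl2_det B
  have e1 : ∀ M : SpecialLinearGroup (Fin 2) ℝ, M⁻¹ 0 0 = M 1 1 ∧ M⁻¹ 0 1 = - M 0 1 ∧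
      M⁻¹ 1 0 = - M 1 0 ∧ M⁻¹ 1 1 = M 0 0 := by
    intro M
    rw [SpecialLinearGroup.SL2_inv_expl]
    simp
  obtain ⟨a1, a2, a3, a4⟩ := e1 A
  obtain ⟨b1, b2, b3, b4⟩ := e1 B
  unfold tr
  simp only [sl2_mul, a1, a2, a3, a4, b1, b2, b3, b4]
  generalize A 0 0 = a at *
  generalize A 0 1 = b at *
  generalize A 1 0 = c at *
  generalize A 1 1 = d at *
  generalize B 0 0 = e at *
  generalize B 0 1 = f at *
  generalize B 1 0 = g at *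
  generalize B 1 1 = h at *
  linear_combination ((e + h) ^ 2 - 2 * (e * h - f * g)) * hA + ((a + d) ^ 2 - 2) * hB

end Pool.Agent.helper72.Sq
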