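import Pool.Agent.helper72.SqP

/-!
The standard pair of pants group and the growth of its traces.
-/

set_option autoImplicit false

namespace Pool.Agent.helper72.Sq

open Matrix Filter Topology

/-- diagonal element -/
noncomputable def Ad (s : ℝ) : SpecialLinearGroup (Fin 2) ℝ :=
  ⟨!![Real.exp s, 0; 0, Real.exp (-s)], by
    rw [Matrix.det_fin_two]; simp [← Real.exp_add]⟩

/-- the entry of the boundary element -/
noncomputable def t11 (τ s : ℝ) : ℝ :=
  (Real.exp s + Real.exp (-s) + τ * Real.exp (-s)) / (Real.exp s - Real.exp (-s))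

/-- element with upper right entry one -/
noncomputable def Tm (τ t : ℝ) : SpecialLinearGroup (Fin 2) ℝ :=
  ⟨!![t, 1; t * (-τ - t) - 1, -τ - t], by rw [Matrix.det_fin_two]; simp⟩

/-- the standard representation -/
noncomputable def std (τ s : ℝ) : F2 →* SpecialLinearGroup (Fin 2) ℝ := mk2 (Ad s) (Tm τ (t11 τ s))

lemma tr_Ad (s : ℝ) : tr (Ad s) = 2 * Real.cosh s := by
  unfold tr Ad
  rw [Real.cosh_eq]
  simp
  ring

lemma tr_Tm (τ t : ℝ) : tr (Tm τ t) = -τ := by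
  unfold tr Tm
  simp

lemma tr_AdTm (τ s : ℝ) (hs : 0 < s) : tr (Ad s * Tm τ (t11 τ s)) = 2 * Real.cosh s := by
  have h0 : 0 < Real.exp s - Real.exp (-s) := by
    have := Real.exp_lt_exp.2 (show -s < s by linarith)
    linarith
  have ht : t11 τ s * (Real.exp s - Real.exp (-s)) =
      Real.exp s + Real.exp (-s) + τ * Real.exp (-s) := by
    unfold t11; field_simp
  unfold tr
  rw [sl2_mul, sl2_mul, Real.cosh_eq]
  simp only [Ad, Tm, Matrix.of_apply, Matrix.cons_val', Matrix.cons_val_zero, Matrix.cons_val_one,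
    Matrix.cons_val_fin_one]
  linarith

lemma Ad_add (s t : ℝ) : Ad (s + t) = Ad s * Ad t := by
  ext i j
  rw [sl2_mul]
  fin_cases i <;> fin_cases j <;> simp [Ad, Real.exp_add]
  ring

lemma Ad_zero : Ad 0 = 1 := by
  ext i j
  fin_cases i <;> fin_cases j <;> simp [Ad]

lemma Ad_zpow (s : ℝ) (n : ℤ) : Ad s ^ n = Ad (n * s) := by
  have hhom : ∃ f : Multiplicative ℝ →* SpecialLinearGroup (Fin 2) ℝ,
      ∀ x : ℝ, f (Multiplicative.ofAdd x) = Ad x :=
    ⟨{ toFun := fun x => Ad (Multiplicative.toAdd x)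
       map_one' := Ad_zero
       map_mul' := fun x y => Ad_add _ _ }, fun _ => rfl⟩
  obtain ⟨f, hf⟩ := hhom
  rw [← hf, ← hf, ← map_zpow]
  congr 1
  rw [← ofAdd_zsmul, zsmul_eq_mul]

/-- the limit of the boundary element -/
noncomputable def Tinf (τ : ℝ) : SpecialLinearGroup (Fin 2) ℝ := Tm τ 1

lemma t11_tendsto (τ : ℝ) : Tendsto (t11 τ) atTop (𝓝 1) := by
  have h1 : Tendsto (fun s : ℝ => Real.exp (-(2 * s))) atTop (𝓝 0) := by
    apply Real.tendsto_exp_atBot.comp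
    apply tendsto_neg_atTop_atBot.comp
    exact tendsto_id.const_mul_atTop (by norm_num)
  have h2 : Tendsto (fun s : ℝ => (1 + Real.exp (-(2 * s)) + τ * Real.exp (-(2 * s))) /
      (1 - Real.exp (-(2 * s)))) atTop (𝓝 ((1 + 0 + τ * 0) / (1 - 0))) :=
    ((tendsto_const_nhds.add h1).add (h1.const_mul τ)).div (tendsto_const_nhds.sub h1) (by norm_num)
  simp only [mul_zero, add_zero, sub_zero, div_one] at h2
  refine h2.congr (fun s => ?_)
  unfold t11
  have e : Real.exp (-s) = Real.exp s * Real.exp (-(2 * s)) := by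
    rw [← Real.exp_add]; congr 1; ring
  have hs : Real.exp s ≠ 0 := (Real.exp_pos s).ne'
  rw [e]
  have e2 : Real.exp s + Real.exp s * Real.exp (-(2 * s)) + τ * (Real.exp s * Real.exp (-(2 * s))) =
    Real.exp s * (1 + Real.exp (-(2 * s)) + τ * Real.exp (-(2 * s))) := by ring
  have e3 : Real.exp s - Real.exp s * Real.exp (-(2 * s)) =
    Real.exp s * (1 - Real.exp (-(2 * s))) := by ring
  rw [e2, e3, mul_div_mul_left _ _ hs]

lemma Tm_tendsto (τ : ℝ) (i j : Fin 2) :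
    Tendsto (fun s => Tm τ (t11 τ s) i j) atTop (𝓝 (Tinf τ i j)) := by
  have h := t11_tendsto τ
  unfold Tinf Tm
  fin_cases i <;> fin_cases j <;> simp only [Matrix.of_apply, Matrix.cons_val', Matrix.cons_val_zero,
    Matrix.cons_val_one, Matrix.cons_val_fin_one, Fin.zero_eta, Fin.mk_one]
  · exact h
  · exact tendsto_const_nhds
  · exact (h.mul (tendsto_const_nhds.sub h)).sub tendsto_const_nhds
  · exact tendsto_const_nhds.sub h

lemma inv_entries (M : SpecialLinearGroup (Fin 2) ℝ) : M⁻¹ 0 0 = M 1 1 ∧ M⁻¹ 0 1 = - M 0 1 ∧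
      M⁻¹ 1 0 = - M 1 0 ∧ M⁻¹ 1 1 = M 0 0 := by
  rw [SpecialLinearGroup.SL2_inv_expl]
  simp

lemma Tm_inv_tendsto (τ : ℝ) (i j : Fin 2) :
    Tendsto (fun s => (Tm τ (t11 τ s))⁻¹ i j) atTop (𝓝 ((Tinf τ)⁻¹ i j)) := by
  have h := Tm_tendsto τ
  fin_cases i <;> fin_cases j
  · simp only [Fin.zero_eta, (inv_entries _).1]; exact h 1 1
  · simp only [Fin.zero_eta, Fin.mk_one, (inv_entries _).2.1]; exact (h 0 1).neg
  · simp only [Fin.zero_eta, Fin.mk_one, (inv_entries _).2.2.1]; exact (h 1 0).neg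
  · simp only [Fin.mk_one, (inv_entries _).2.2.2]; exact h 0 0

lemma Tm_zpow_tendsto (τ : ℝ) (m : ℤ) : ∀ i j : Fin 2,
    Tendsto (fun s => (Tm τ (t11 τ s) ^ m) i j) atTop (𝓝 ((Tinf τ ^ m) i j)) := by
  induction m using Int.induction_on with
  | zero => intro i j; simp only [zpow_zero]; exact tendsto_const_nhds
  | succ m ih =>
    intro i j
    simp only [_root_.zpow_add_one, sl2_mul]
    exact ((ih i 0).mul (Tm_tendsto τ 0 j)).add ((ih i 1).mul (Tm_tendsto τ 1 j))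
  | pred m ih =>
    intro i j
    simp only [_root_.zpow_sub_one, sl2_mul]
    exact ((ih i 0).mul (Tm_inv_tendsto τ 0 j)).add ((ih i 1).mul (Tm_inv_tendsto τ 1 j))

/-- sign index -/
def sg (n : ℤ) : Fin 2 := if 0 < n then 0 else 1

/-- limiting projection -/
def Epr (n : ℤ) : Matrix (Fin 2) (Fin 2) ℝ := fun i j => if i = sg n ∧ j = sg n then 1 else 0

lemma Ad_scaled (n : ℤ) (hn : n ≠ 0) (i j : Fin 2) :
    Tendsto (fun s : ℝ => Real.exp (-(|(n : ℝ)| * s)) * (Ad s ^ n) i j) atTop (𝓝 (Epr n i j)) := by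
  have hexp : ∀ c : ℝ, 0 < c → Tendsto (fun s : ℝ => Real.exp (-(c * s))) atTop (𝓝 0) := by
    intro c hc
    apply Real.tendsto_exp_atBot.comp
    apply tendsto_neg_atTop_atBot.comp
    exact tendsto_id.const_mul_atTop hc
  have h00 : ∀ s, (Ad s ^ n) 0 0 = Real.exp (n * s) := fun s => by rw [Ad_zpow]; simp [Ad]
  have h01 : ∀ s, (Ad s ^ n) 0 1 = 0 := fun s => by rw [Ad_zpow]; simp [Ad]
  have h10 : ∀ s, (Ad s ^ n) 1 0 = 0 := fun s => by rw [Ad_zpow]; simp [Ad]
  have h11 : ∀ s, (Ad s ^ n) 1 1 = Real.exp (-(n * s)) := fun s => by rw [Ad_zpow]; simp [Ad]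
  have habs : 0 < |(n : ℝ)| := abs_pos.2 (by exact_mod_cast hn)
  have hlim := hexp (2 * |(n : ℝ)|) (by positivity)
  rcases lt_or_gt_of_ne hn with hneg | hpos
  · have hn' : (n : ℝ) < 0 := by exact_mod_cast hneg
    have hs : sg n = 1 := by unfold sg; rw [if_neg (by omega)]
    have ha : |(n : ℝ)| = -n := abs_of_neg hn'
    fin_cases i <;> fin_cases j <;>
      simp only [Fin.zero_eta, Fin.mk_one, h00, h01, h10, h11, Epr, hs]
    · simp only [zero_ne_one, false_and, if_false]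
      refine hlim.congr (fun s => ?_)
      rw [← Real.exp_add, ha]; congr 1; ring
    · simp
    · simp
    · simp only [and_self, if_true]
      refine tendsto_const_nhds.congr (fun s => ?_)
      rw [← Real.exp_add, ha]
      have : -(-(n : ℝ) * s) + -((n : ℝ) * s) = 0 := by ring
      rw [this, Real.exp_zero]
  · have hn' : (0 : ℝ) < n := by exact_mod_cast hpos
    have hs : sg n = 0 := by unfold sg; rw [if_pos hpos]
    have ha : |(n : ℝ)| = n := abs_of_pos hn'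
    fin_cases i <;> fin_cases j <;>
      simp only [Fin.zero_eta, Fin.mk_one, h00, h01, h10, h11, Epr, hs]
    · simp only [and_self, if_true]
      refine tendsto_const_nhds.congr (fun s => ?_)
      rw [← Real.exp_add, ha]
      have : -((n : ℝ) * s) + ((n : ℝ) * s) = 0 := by ring
      rw [this, Real.exp_zero]
    · simp
    · simp
    · simp only [one_ne_zero, false_and, if_false]
      refine hlim.congr (fun s => ?_)
      rw [← Real.exp_add, ha]; congr 1; ring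

/-- words as lists of syllables -/
def prodL (l : List (ℤ × ℤ)) : F2 := (l.map (fun x => ga ^ x.1 * gb ^ x.2)).prod

/-- total `a`-length -/
def wt (l : List (ℤ × ℤ)) : ℝ := (l.map (fun x => |(x.1 : ℝ)|)).sum

/-- the limit matrix -/
noncomputable def Llim (τ : ℝ) (l : List (ℤ × ℤ)) : Matrix (Fin 2) (Fin 2) ℝ :=
  (l.map (fun x => Epr x.1 * mt (Tinf τ ^ x.2))).prod

lemma Epr_mul (n : ℤ) (M : Matrix (Fin 2) (Fin 2) ℝ) (i j : Fin 2) :
    (Epr n * M) i j = if i = sg n then M (sg n) j else 0 := by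
  rw [Matrix.mul_apply, Fin.sum_univ_two]
  unfold Epr
  rcases (by fin_cases i <;> simp : i = 0 ∨ i = 1) with rfl | rfl <;>
    rcases (by unfold sg; split_ifs <;> simp : sg n = 0 ∨ sg n = 1) with h | h <;> simp [h]

lemma Llim_cons (τ : ℝ) (x : ℤ × ℤ) (l : List (ℤ × ℤ)) :
    Llim τ (x :: l) = Epr x.1 * (mt (Tinf τ ^ x.2) * Llim τ l) := by
  simp only [Llim, List.map_cons, List.prod_cons, mul_assoc]

lemma prodL_cons (x : ℤ × ℤ) (l : List (ℤ × ℤ)) : prodL (x :: l) = ga ^ x.1 * gb ^ x.2 * prodL l := by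
  simp only [prodL, List.map_cons, List.prod_cons]

lemma wt_cons (x : ℤ × ℤ) (l : List (ℤ × ℤ)) : wt (x :: l) = |(x.1 : ℝ)| + wt l := by
  simp only [wt, List.map_cons, List.sum_cons]

lemma scaled_limit (τ : ℝ) (l : List (ℤ × ℤ)) (hl : ∀ x ∈ l, x.1 ≠ 0) : ∀ i j : Fin 2,
    Tendsto (fun s : ℝ => Real.exp (-(wt l * s)) * (std τ s (prodL l)) i j) atTop
      (𝓝 (Llim τ l i j)) := by
  induction l with
  | nil =>
    intro i j
    simp only [wt, List.map_nil, List.sum_nil, zero_mul, neg_zero, Real.exp_zero, one_mul, prodL,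
      List.prod_nil, map_one, Llim]
    exact tendsto_const_nhds
  | cons x l ih =>
    intro i j
    have hx : x.1 ≠ 0 := hl x (by simp)
    have ih' := ih (fun y hy => hl y (by simp [hy]))
    have hA := Ad_scaled x.1 hx
    have hT := Tm_zpow_tendsto τ x.2
    have hform : ∀ s : ℝ, Real.exp (-(wt (x :: l) * s)) * (std τ s (prodL (x :: l))) i j =
        ((Real.exp (-(|(x.1 : ℝ)| * s)) * (Ad s ^ x.1) i 0) * (Tm τ (t11 τ s) ^ x.2) 0 0 +
          (Real.exp (-(|(x.1 : ℝ)| * s)) * (Ad s ^ x.1) i 1) * (Tm τ (t11 τ s) ^ x.2) 1 0) *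
            (Real.exp (-(wt l * s)) * (std τ s (prodL l)) 0 j) +
        ((Real.exp (-(|(x.1 : ℝ)| * s)) * (Ad s ^ x.1) i 0) * (Tm τ (t11 τ s) ^ x.2) 0 1 +
          (Real.exp (-(|(x.1 : ℝ)| * s)) * (Ad s ^ x.1) i 1) * (Tm τ (t11 τ s) ^ x.2) 1 1) *
            (Real.exp (-(wt l * s)) * (std τ s (prodL l)) 1 j) := by
      intro s
      rw [prodL_cons, map_mul, map_mul, map_zpow, map_zpow]
      simp only [std, mk2_a, mk2_b, sl2_mul]
      rw [wt_cons]
      have : Real.exp (-((|(x.1 : ℝ)| + wt l) * s)) =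
        Real.exp (-(|(x.1 : ℝ)| * s)) * Real.exp (-(wt l * s)) := by
        rw [← Real.exp_add]; congr 1; ring
      rw [this]; ring
    simp only [hform]
    have hlimform : Llim τ (x :: l) i j =
        (Epr x.1 i 0 * (Tinf τ ^ x.2) 0 0 + Epr x.1 i 1 * (Tinf τ ^ x.2) 1 0) * Llim τ l 0 j +
        (Epr x.1 i 0 * (Tinf τ ^ x.2) 0 1 + Epr x.1 i 1 * (Tinf τ ^ x.2) 1 1) * Llim τ l 1 j := by
      rw [Llim_cons, ← mul_assoc, Matrix.mul_apply, Fin.sum_univ_two, Matrix.mul_apply,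
        Matrix.mul_apply, Fin.sum_univ_two, Fin.sum_univ_two]
      simp only [mt_apply]
    rw [hlimform]
    exact ((((hA i 0).mul (hT 0 0)).add ((hA i 1).mul (hT 1 0))).mul (ih' 0 j)).add
      ((((hA i 0).mul (hT 0 1)).add ((hA i 1).mul (hT 1 1))).mul (ih' 1 j))

/-- entries of powers of the limit of the boundary element -/
lemma Tinf_pow (τ : ℝ) (hτ : 2 ≤ τ) (m : ℕ) : ∃ a b c d : ℝ, 0 < a ∧ 0 < b ∧ 0 < c ∧ 0 < d ∧
    a ≤ 2 * b ∧ c ≤ 2 * d ∧
    (Tinf τ ^ (m + 1)) 0 0 = (-1) ^ m * a ∧ (Tinf τ ^ (m + 1)) 0 1 = (-1) ^ m * b ∧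
    (Tinf τ ^ (m + 1)) 1 0 = -((-1) ^ m * c) ∧ (Tinf τ ^ (m + 1)) 1 1 = -((-1) ^ m * d) := by
  have e00 : Tinf τ 0 0 = 1 := by simp [Tinf, Tm]
  have e01 : Tinf τ 0 1 = 1 := by simp [Tinf, Tm]
  have e10 : Tinf τ 1 0 = -τ - 2 := by simp [Tinf, Tm]; ring
  have e11 : Tinf τ 1 1 = -τ - 1 := by simp [Tinf, Tm]
  induction m with
  | zero =>
    refine ⟨1, 1, τ + 2, τ + 1, by norm_num, by norm_num, by linarith, by linarith, by norm_num,
      by linarith, ?_, ?_, ?_, ?_⟩ <;> simp only [zero_add, pow_one, e00, e01, e10, e11] <;> ring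
  | succ m ih =>
    obtain ⟨a, b, c, d, ha, hb, hc, hd, hab, hcd, h00, h01, h10, h11⟩ := ih
    refine ⟨b * (τ + 2) - a, b * (τ + 1) - a, d * (τ + 2) - c, d * (τ + 1) - c, by nlinarith,
      by nlinarith, by nlinarith, by nlinarith, by nlinarith, by nlinarith, ?_, ?_, ?_, ?_⟩ <;>
      rw [pow_succ (Tinf τ), sl2_mul] <;> simp only [h00, h01, h10, h11, e00, e01, e10, e11] <;>
      ring

lemma Tinf_zpow_ne (τ : ℝ) (hτ : 2 ≤ τ) (m : ℤ) (hm : m ≠ 0) (i j : Fin 2) :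
    (Tinf τ ^ m) i j ≠ 0 := by
  have hpow : ∀ (k : ℕ) (i j : Fin 2), (Tinf τ ^ (k + 1)) i j ≠ 0 := by
    intro k i j
    obtain ⟨a, b, c, d, ha, hb, hc, hd, _, _, h00, h01, h10, h11⟩ := Tinf_pow τ hτ k
    have h1 : ((-1 : ℝ)) ^ k ≠ 0 := pow_ne_zero _ (by norm_num)
    fin_cases i <;> fin_cases j <;> simp only [Fin.zero_eta, Fin.mk_one, h00, h01, h10, h11]
    · exact mul_ne_zero h1 ha.ne'
    · exact mul_ne_zero h1 hb.ne'
    · exact neg_ne_zero.2 (mul_ne_zero h1 hc.ne')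
    · exact neg_ne_zero.2 (mul_ne_zero h1 hd.ne')
  rcases lt_or_gt_of_ne hm with hneg | hpos
  · obtain ⟨k, hk⟩ : ∃ k : ℕ, m = -((k : ℤ) + 1) := ⟨(-m - 1).toNat, by omega⟩
    rw [hk, _root_.zpow_neg, show ((k : ℤ) + 1) = ((k + 1 : ℕ) : ℤ) by push_cast; ring, zpow_natCast]
    have h := hpow k
    fin_cases i <;> fin_cases j
    · simp only [Fin.zero_eta, (inv_entries _).1]; exact h 1 1
    · simp only [Fin.zero_eta, Fin.mk_one, (inv_entries _).2.1]; exact neg_ne_zero.2 (h 0 1)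
    · simp only [Fin.zero_eta, Fin.mk_one, (inv_entries _).2.2.1]; exact neg_ne_zero.2 (h 1 0)
    · simp only [Fin.mk_one, (inv_entries _).2.2.2]; exact h 0 0
  · obtain ⟨k, hk⟩ : ∃ k : ℕ, m = (k : ℤ) + 1 := ⟨(m - 1).toNat, by omega⟩
    rw [hk, show ((k : ℤ) + 1) = ((k + 1 : ℕ) : ℤ) by push_cast; ring, zpow_natCast]
    exact hpow k i j

lemma Llim_row (τ : ℝ) (hτ : 2 ≤ τ) : ∀ (l : List (ℤ × ℤ)) (x : ℤ × ℤ),
    (∀ y ∈ x :: l, y.2 ≠ 0) →
    (∀ j, Llim τ (x :: l) (sg x.1) j ≠ 0) ∧ (∀ i j, i ≠ sg x.1 → Llim τ (x :: l) i j = 0) := by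
  intro l
  induction l with
  | nil =>
    intro x hx
    have hx2 : x.2 ≠ 0 := hx x (by simp)
    constructor
    · intro j
      rw [Llim_cons, Epr_mul, if_pos rfl]
      simp only [Llim, List.map_nil, List.prod_nil, mul_one, mt_apply]
      exact Tinf_zpow_ne τ hτ x.2 hx2 _ _
    · intro i j hi
      rw [Llim_cons, Epr_mul, if_neg hi]
  | cons y l ih =>
    intro x hx
    have hx2 : x.2 ≠ 0 := hx x (by simp)
    obtain ⟨h1, h2⟩ := ih y (fun z hz => hx z (by simp at hz ⊢; tauto))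
    constructor
    · intro j
      rw [Llim_cons, Epr_mul, if_pos rfl, Matrix.mul_apply, Fin.sum_univ_two]
      rcases (by unfold sg; split_ifs <;> simp : sg y.1 = 0 ∨ sg y.1 = 1) with h | h
      · rw [h2 1 j (by rw [h]; decide), mul_zero, add_zero]
        rw [h] at h1
        exact mul_ne_zero (Tinf_zpow_ne τ hτ x.2 hx2 _ _) (h1 j)
      · rw [h2 0 j (by rw [h]; decide), mul_zero, zero_add]
        rw [h] at h1
        exact mul_ne_zero (Tinf_zpow_ne τ hτ x.2 hx2 _ _) (h1 j)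
    · intro i j hi
      rw [Llim_cons, Epr_mul, if_neg hi]

/-- normal forms -/
def NF (l : List (ℤ × ℤ)) : Prop :=
  l ≠ [] ∧ (∀ x ∈ l, x.1 ≠ 0) ∧ (l.length = 1 ∨ ∀ x ∈ l, x.2 ≠ 0)

lemma Llim_trace (τ : ℝ) (hτ : 2 ≤ τ) (l : List (ℤ × ℤ)) (hl : NF l) :
    Llim τ l 0 0 + Llim τ l 1 1 ≠ 0 := by
  obtain ⟨hne, h1, h2⟩ := hl
  cases l with
  | nil => exact absurd rfl hne
  | cons x l =>
    have hx : x.1 ≠ 0 := h1 x (by simp)
    by_cases hall : ∀ y ∈ x :: l, y.2 ≠ 0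
    · obtain ⟨h3, h4⟩ := Llim_row τ hτ l x hall
      rcases (by unfold sg; split_ifs <;> simp : sg x.1 = 0 ∨ sg x.1 = 1) with h | h
      · rw [h4 1 1 (by rw [h]; decide), add_zero]; rw [h] at h3; exact h3 0
      · rw [h4 0 0 (by rw [h]; decide), zero_add]; rw [h] at h3; exact h3 1
    · rcases h2 with h2 | h2
      · have hl0 : l = [] := by
          rw [List.length_cons] at h2
          exact List.length_eq_zero_iff.1 (by omega)
        subst hl0
        have hx2 : x.2 = 0 := by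
          by_contra hcon
          exact hall (by simpa using hcon)
        rw [Llim_cons, Epr_mul, Epr_mul]
        simp only [Llim, List.map_nil, List.prod_nil, mul_one, mt_apply, hx2, zpow_zero]
        rcases (by unfold sg; split_ifs <;> simp : sg x.1 = 0 ∨ sg x.1 = 1) with h | h <;>
          rw [h] <;> simp
      · exact absurd h2 hall

end Pool.Agent.helper72.Sq
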