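import Pool.Agent.helper72.SqQ

/-!
Normal forms and the growth theorem.
-/

set_option autoImplicit false

namespace Pool.Agent.helper72.Sq

open Matrix Filter Topology

lemma prodL_append (l1 l2 : List (ℤ × ℤ)) : prodL (l1 ++ l2) = prodL l1 * prodL l2 := by
  simp only [prodL, List.map_append, List.prod_append]

lemma prodL_single (x : ℤ × ℤ) : prodL [x] = ga ^ x.1 * gb ^ x.2 := by
  simp [prodL]

lemma exists_prodL (h : F2) : ∃ l, h = prodL l := by
  induction h using FreeGroup.induction_on with
  | C1 => exact ⟨[], by simp [prodL]⟩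
  | of i =>
    fin_cases i
    · exact ⟨[(1, 0)], by rw [prodL_single]; simp; rfl⟩
    · exact ⟨[(0, 1)], by rw [prodL_single]; simp; rfl⟩
  | inv_of i _ =>
    fin_cases i
    · exact ⟨[(-1, 0)], by rw [prodL_single]; simp; rfl⟩
    · exact ⟨[(0, -1)], by rw [prodL_single]; simp; rfl⟩
  | mul x y hx hy =>
    obtain ⟨l1, h1⟩ := hx
    obtain ⟨l2, h2⟩ := hy
    exact ⟨l1 ++ l2, by rw [prodL_append, ← h1, ← h2]⟩

lemma conj_swap (x y : F2) : IsConj (x * y) (y * x) := by
  rw [isConj_iff]
  exact ⟨y, by group⟩

lemma nf_aux : ∀ n : ℕ, ∀ l : List (ℤ × ℤ), l.length ≤ n →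
    (∃ m : ℤ, IsConj (prodL l) (gb ^ m)) ∨ ∃ l', NF l' ∧ IsConj (prodL l) (prodL l') := by
  intro n
  induction n with
  | zero =>
    intro l hl
    have : l = [] := List.length_eq_zero_iff.1 (by omega)
    subst this
    left
    exact ⟨0, by simp [prodL]⟩
  | succ n ih =>
    intro l hl
    cases l with
    | nil => left; exact ⟨0, by simp [prodL]⟩
    | cons x0 l0 =>
      cases l0 with
      | nil =>
        by_cases hx : x0.1 = 0
        · left
          refine ⟨x0.2, ?_⟩
          rw [prodL_single, hx, zpow_zero, one_mul]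
        · right
          refine ⟨[x0], ⟨by simp, by simpa using hx, Or.inl (by simp)⟩, IsConj.refl _⟩
      | cons x1 l1 =>
        by_cases hall : ∀ x ∈ x0 :: x1 :: l1, x.1 ≠ 0 ∧ x.2 ≠ 0
        · right
          exact ⟨x0 :: x1 :: l1, ⟨by simp, fun x hx => (hall x hx).1,
            Or.inr (fun x hx => (hall x hx).2)⟩, IsConj.refl _⟩
        · push Not at hall
          obtain ⟨x, hx, hx0⟩ := hall
          obtain ⟨l2, l3, hl23⟩ := List.append_of_mem hx
          have hlen : (l3 ++ l2).length = l1.length + 1 := by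
            have := congrArg List.length hl23
            simp only [List.length_cons, List.length_append] at this ⊢
            omega
          have hrot : IsConj (prodL (x0 :: x1 :: l1)) (prodL (x :: (l3 ++ l2))) := by
            rw [hl23, show x :: (l3 ++ l2) = (x :: l3) ++ l2 by simp, prodL_append, prodL_append]
            exact conj_swap _ _
          have hlen' : l1.length + 1 ≤ n := by
            simp only [List.length_cons] at hl
            omega
          suffices h : ∃ l4 : List (ℤ × ℤ), l4.length ≤ n ∧ IsConj (prodL (x :: (l3 ++ l2))) (prodL l4) by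
            obtain ⟨l4, h4, h5⟩ := h
            rcases ih l4 h4 with ⟨m, hm⟩ | ⟨l', hl', hm⟩
            · left; exact ⟨m, (hrot.trans h5).trans hm⟩
            · right; exact ⟨l', hl', (hrot.trans h5).trans hm⟩
          by_cases hx1 : x.1 = 0
          · -- merge the b-part into the last syllable
            rcases List.eq_nil_or_concat (l3 ++ l2) with h | ⟨l5, y, h⟩
            · rw [h] at hlen; simp at hlen
            · refine ⟨l5 ++ [(y.1, y.2 + x.2)], ?_, ?_⟩
              · rw [h] at hlen
                simp only [List.concat_eq_append, List.length_append, List.length_cons, List.length_nil] at hlen ⊢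
                omega
              · rw [h, List.concat_eq_append, prodL_cons, hx1, zpow_zero, one_mul, prodL_append,
                  prodL_append, prodL_single, prodL_single]
                refine (conj_swap _ _).trans ?_
                rw [_root_.zpow_add]
                simp only [mul_assoc]
                exact IsConj.refl _
          · have hx2 : x.2 = 0 := hx0 hx1
            cases hl32 : l3 ++ l2 with
            | nil => rw [hl32] at hlen; simp at hlen
            | cons y l5 =>
              refine ⟨(x.1 + y.1, y.2) :: l5, ?_, ?_⟩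
              · rw [hl32] at hlen
                simp only [List.length_cons] at hlen ⊢
                omega
              · rw [prodL_cons, prodL_cons, prodL_cons, hx2, zpow_zero, mul_one, _root_.zpow_add]
                simp only [mul_assoc]
                exact IsConj.refl _

lemma nf (h : F2) : (∃ m : ℤ, IsConj h (gb ^ m)) ∨ ∃ l, NF l ∧ IsConj h (prodL l) := by
  obtain ⟨l, rfl⟩ := exists_prodL h
  exact nf_aux l.length l le_rfl

lemma wt_nonneg (l : List (ℤ × ℤ)) : 0 ≤ wt l := by
  unfold wt
  apply List.sum_nonneg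
  intro x hx
  obtain ⟨y, _, rfl⟩ := List.mem_map.1 hx
  exact abs_nonneg _

lemma wt_pos (l : List (ℤ × ℤ)) (hl : NF l) : 1 ≤ wt l := by
  obtain ⟨hne, h1, _⟩ := hl
  cases l with
  | nil => exact absurd rfl hne
  | cons x l =>
    rw [wt_cons]
    have := wt_nonneg l
    have hx := h1 x (by simp)
    have : (1 : ℝ) ≤ |(x.1 : ℝ)| := by
      have h2 : 1 ≤ |x.1| := Int.one_le_abs hx
      exact_mod_cast h2
    linarith

/-- length function of a conjugacy class of the pair of pants -/
noncomputable def slen (τ : ℝ) (h : F2) (s : ℝ) : ℝ := 2 * Real.arcosh (|tr (std τ s h)| / 2)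

theorem growth (τ : ℝ) (hτ : 2 ≤ τ) (h : F2) (hh : ¬ ∃ m : ℤ, IsConj h (gb ^ m)) :
    ∃ n s0 C : ℝ, 1 ≤ n ∧ ∀ s, s0 ≤ s → |slen τ h s - n * (2 * s)| ≤ C := by
  rcases nf h with h1 | ⟨l, hl, hconj⟩
  · exact absurd h1 hh
  have htr : ∀ s, tr (std τ s h) = tr (std τ s (prodL l)) := by
    intro s
    obtain ⟨c, hc⟩ := isConj_iff.1 hconj
    rw [← hc, map_mul, map_mul, map_inv, tr_conj]
  set n := wt l with hn
  have hn1 : 1 ≤ n := wt_pos l hl
  have hlim : Tendsto (fun s : ℝ => Real.exp (-(n * s)) * tr (std τ s h)) atTop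
      (𝓝 (Llim τ l 0 0 + Llim τ l 1 1)) := by
    have h2 := (scaled_limit τ l hl.2.1 0 0).add (scaled_limit τ l hl.2.1 1 1)
    refine h2.congr (fun s => ?_)
    rw [htr s]; unfold tr; ring
  set c := |Llim τ l 0 0 + Llim τ l 1 1| with hc
  have hc0 : 0 < c := abs_pos.2 (Llim_trace τ hτ l hl)
  have habs := hlim.abs
  rw [← hc] at habs
  have hev1 := habs.eventually (lt_mem_nhds (show c / 2 < c by linarith))
  have hev2 := habs.eventually (gt_mem_nhds (show c < 2 * c by linarith))
  have hev3 : ∀ᶠ s : ℝ in atTop, 4 / c ≤ Real.exp s := by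
    exact Real.tendsto_exp_atTop.eventually_ge_atTop _
  have hev4 : ∀ᶠ s : ℝ in atTop, 0 ≤ s := eventually_ge_atTop 0
  obtain ⟨s0, hs0⟩ := (eventually_atTop.1 ((hev1.and hev2).and (hev3.and hev4)))
  refine ⟨n, s0, 2 * |Real.log (c / 4)| + 2 * |Real.log (2 * c)|, hn1, ?_⟩
  intro s hs
  obtain ⟨⟨e1, e2⟩, e3, e4⟩ := hs0 s hs
  rw [abs_mul, abs_of_pos (Real.exp_pos _), Real.exp_neg] at e1 e2
  set X := |tr (std τ s h)| with hX
  have hE : 0 < Real.exp (n * s) := Real.exp_pos _
  have f1 : c / 2 * Real.exp (n * s) ≤ X := by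
    have : (Real.exp (n * s))⁻¹ * X = X / Real.exp (n * s) := by rw [div_eq_inv_mul]
    rw [this, lt_div_iff₀ hE] at e1
    exact e1.le
  have f2 : X ≤ 2 * c * Real.exp (n * s) := by
    have : (Real.exp (n * s))⁻¹ * X = X / Real.exp (n * s) := by rw [div_eq_inv_mul]
    rw [this, div_lt_iff₀ hE] at e2
    exact e2.le
  have f3 : Real.exp s ≤ Real.exp (n * s) := Real.exp_le_exp.2 (by nlinarith)
  have f4 : 2 ≤ X := by
    have g1 : 4 ≤ c * Real.exp s := by
      rw [div_le_iff₀ hc0] at e3; linarith
    nlinarith
  have g1 : 2 * Real.log (X / 2) ≤ slen τ h s := by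
    have := two_log_le_len f4
    unfold len at this
    unfold slen
    rw [← hX]; exact this
  have g2 : slen τ h s ≤ 2 * Real.log X := by
    have := len_le_two_log f4
    unfold len at this
    unfold slen
    rw [← hX]; exact this
  have k1 : Real.log (c / 4) + n * s ≤ Real.log (X / 2) := by
    have : Real.log (c / 4 * Real.exp (n * s)) ≤ Real.log (X / 2) :=
      Real.log_le_log (by positivity) (by linarith)
    rw [Real.log_mul (by positivity) hE.ne', Real.log_exp] at this
    exact this
  have k2 : Real.log X ≤ Real.log (2 * c) + n * s := by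
    have : Real.log X ≤ Real.log (2 * c * Real.exp (n * s)) := Real.log_le_log (by linarith) f2
    rw [Real.log_mul (by positivity) hE.ne', Real.log_exp] at this
    exact this
  have a1 := neg_abs_le (Real.log (c / 4))
  have a2 := le_abs_self (Real.log (2 * c))
  have a3 := abs_nonneg (Real.log (c / 4))
  have a4 := abs_nonneg (Real.log (2 * c))
  rw [abs_le]
  constructor <;> linarith

end Pool.Agent.helper72.Sq
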