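import Pool.Agent.helper72.SqR

/-!
Lengths of the curves in the complement of a simple curve.
-/

set_option autoImplicit false

namespace Pool.Agent.helper72.Sq

open Matrix Filter Topology

lemma kom_MCG (φ : MulAut F2) (hφ : φ ∈ MCG) : IsConj (φ kom) kom := by
  refine Subgroup.closure_induction (p := fun φ _ => IsConj (φ kom) kom) ?_ ?_ ?_ ?_ hφ
  · rintro x (rfl | rfl)
    · have : twA kom = ga * kom * ga⁻¹ := by
        simp only [kom, map_mul, map_inv, twA_a, twA_b]; group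
      rw [this]
      exact (isConj_iff.2 ⟨ga, rfl⟩ : IsConj kom _).symm
    · have : twB kom = kom := by
        simp only [kom, map_mul, map_inv, twB_a, twB_b]; group
      rw [this]
  · exact IsConj.refl _
  · intro x y _ _ hx hy
    have : IsConj (x (y kom)) (x kom) := x.toMonoidHom.map_isConj hy
    exact this.trans hx
  · intro x _ hx
    have : IsConj (x⁻¹ (x kom)) (x⁻¹ kom) := (x⁻¹ : MulAut F2).toMonoidHom.map_isConj hx
    rw [← MulAut.mul_apply, inv_mul_cancel, MulAut.one_apply] at this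
    exact this.symm

lemma tr_isConj (ρ : F2 →* SpecialLinearGroup (Fin 2) ℝ) {g h : F2} (hgh : IsConj g h) :
    tr (ρ g) = tr (ρ h) := by
  obtain ⟨c, hc⟩ := isConj_iff.1 hgh
  rw [← hc, map_mul, map_mul, map_inv, tr_conj]

lemma tr_cl (ρ : F2 →* SpecialLinearGroup (Fin 2) ℝ) {g h : F2} (hgh : cl g = cl h) :
    tr (ρ g) = tr (ρ h) := by
  rw [cl_eq_iff] at hgh
  rcases hgh with h1 | h1
  · exact tr_isConj ρ h1
  · rw [tr_isConj ρ h1, map_inv, tr_inv]

lemma tr_W_gt (ρ : F2 →* SpecialLinearGroup (Fin 2) ℝ) :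
    ∀ (x : F2 × F2) (p q : ℕ), 1 ≤ p → Nat.Coprime p q → Adm (trTri ρ x) →
      2 < tr (ρ (W x.1 x.2 p q)) := by
  refine euclid_ind (C := fun (x : F2 × F2) p q => Nat.Coprime p q → Adm (trTri ρ x) →
      2 < tr (ρ (W x.1 x.2 p q)))
    (fun x : F2 × F2 => (x.1, x.1 * x.2)) (fun x : F2 × F2 => (x.1 * x.2, x.2)) ?_ ?_ ?_
  · intro x p hp hc hA
    have : p = 1 := by rwa [Nat.coprime_zero_right] at hc
    subst this
    rw [W_zero, pow_one]
    exact hA.x2
  · intro x p q hp hq ih hc hA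
    rw [W_L _ _ _ _ hp]
    have := ih (by rwa [Nat.coprime_add_self_left] at hc)
    simp only [trTri_L] at this
    exact this hA.L
  · intro x p q hp ih hc hA
    rw [W_R _ _ _ _ hp]
    have := ih (by rwa [Nat.coprime_self_add_right] at hc)
    simp only [trTri_R] at this
    exact this hA.R

lemma tr_gt (ρ : F2 →* SpecialLinearGroup (Fin 2) ℝ) (hA : Adm (trTri ρ (ga, gb)))
    {φ : MulAut F2} (hφ : φ ∈ MCG) : 2 < tr (ρ (φ ga)) := by
  have hmem : cl (φ ga) ∈ WS := by rw [← orb_eq]; exact ⟨φ, hφ, rfl⟩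
  obtain ⟨ε, p, q, hp, hc, h⟩ := hmem
  cases ε
  · simp only [Wc, Bool.false_eq_true, if_false] at h
    rw [tr_cl ρ h]
    have := tr_W_gt ρ (gb, ga⁻¹) p q hp hc
    rw [trTri_Tw] at this
    exact this hA.Tw
  · simp only [Wc, if_true] at h
    rw [tr_cl ρ h]
    exact tr_W_gt ρ (ga, gb) p q hp hc hA

/-- embedding of the standard free group as the pants group -/
def Jm : F2 →* F2 := mk2 ga (ga⁻¹ * gb * ga * gb⁻¹)

lemma pants_range {w : F2} (hw : w ∈ pants) : ∃ h, Jm h = w := by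
  have : pants ≤ Jm.range := by
    rw [pants, Subgroup.closure_le]
    rintro x (rfl | rfl)
    · exact ⟨ga, by simp [Jm]⟩
    · exact ⟨ga * gb, by simp only [Jm, map_mul, mk2_a, mk2_b]; group⟩
  exact this hw

lemma tr_std (ρ : F2 →* SpecialLinearGroup (Fin 2) ℝ) (hA : Adm (trTri ρ (ga, gb)))
    {φ : MulAut F2} (hφ : φ ∈ MCG) (h : F2) :
    tr (ρ (φ (Jm h))) = tr (std (kap (trTri ρ (ga, gb)) + 2) (len (tr (ρ (φ ga))) / 2) h) := by
  have hX := tr_gt ρ hA hφ
  set X := tr (ρ (φ ga)) with hXdef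
  have hcosh : 2 * Real.cosh (len X / 2) = X := by rw [cosh_half_len hX.le]; ring
  have hs : 0 < len X / 2 := by have := len_pos hX; linarith
  have h2 := trace_principle ((ρ.comp φ.toMonoidHom).comp Jm)
    (std (kap (trTri ρ (ga, gb)) + 2) (len X / 2)) (by
      simp only [MonoidHom.comp_apply, Jm, std, mk2_a, tr_Ad, hcosh]
      rfl) (by
      simp only [MonoidHom.comp_apply, Jm, std, mk2_b, tr_Tm]
      have e1 : IsConj (φ (ga⁻¹ * gb * ga * gb⁻¹)) (φ kom⁻¹) := by
        have : IsConj (ga⁻¹ * gb * ga * gb⁻¹) kom⁻¹ := by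
          rw [isConj_iff]
          exact ⟨ga, by simp only [kom]; group⟩
        exact φ.toMonoidHom.map_isConj this
      have e2 : tr (ρ (φ (ga⁻¹ * gb * ga * gb⁻¹))) = tr (ρ kom) := by
        rw [tr_isConj ρ e1, map_inv, map_inv, tr_inv, tr_isConj ρ (kom_MCG φ hφ)]
      change tr (ρ (φ (ga⁻¹ * gb * ga * gb⁻¹))) = _
      rw [e2]
      simp only [kom, map_mul, map_inv, tr_commutator, kap, trTri]
      ring) (by
      simp only [MonoidHom.comp_apply, Jm, std, map_mul, mk2_a, mk2_b, tr_AdTm _ _ hs, hcosh]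
      have e1 : IsConj (φ (ga * (ga⁻¹ * gb * ga * gb⁻¹))) (φ ga) := by
        have : IsConj (ga * (ga⁻¹ * gb * ga * gb⁻¹)) ga := by
          rw [isConj_iff]
          exact ⟨gb⁻¹, by group⟩
        exact φ.toMonoidHom.map_isConj this
      have e2 := tr_isConj ρ e1
      simp only [map_mul] at e2
      rw [hXdef, ← e2]
      rfl) h
  exact h2

/-- length function of the curves `φ w` -/
lemma gLen_std (ρ : F2 →* SpecialLinearGroup (Fin 2) ℝ) (hA : Adm (trTri ρ (ga, gb)))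
    {φ : MulAut F2} (hφ : φ ∈ MCG) (h : F2) :
    gLen ρ (φ (Jm h)) = slen (kap (trTri ρ (ga, gb)) + 2) h (cLen ρ (cl (φ ga)) / 2) := by
  have hX := tr_gt ρ hA hφ
  have e : cLen ρ (cl (φ ga)) = len (tr (ρ (φ ga))) := by
    rw [cLen_cl]; unfold gLen len; rw [abs_of_pos (by linarith)]
  rw [e]
  unfold gLen slen
  rw [tr_std ρ hA hφ h]

lemma gLen_iot (ρ : F2 →* SpecialLinearGroup (Fin 2) ℝ) (φ : MulAut F2) (w : F2) :
    gLen ρ (φ (iot w)) = gLen ρ (φ w) := by
  unfold gLen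
  have h := trace_principle ((ρ.comp φ.toMonoidHom).comp iot) (ρ.comp φ.toMonoidHom) (by
    simp only [MonoidHom.comp_apply, iot, mk2_a, map_inv, tr_inv]) (by
    simp only [MonoidHom.comp_apply, iot, mk2_b, map_inv, tr_inv]) (by
    have e : iot (ga * gb) = (gb * ga)⁻¹ := by simp [iot]
    simp only [MonoidHom.comp_apply]
    rw [e, map_inv, map_inv, tr_inv, map_mul, map_mul, map_mul, map_mul, tr_comm]) w
  have h' : tr (ρ (φ (iot w))) = tr (ρ (φ w)) := h
  rw [h']

/-- comparison of the length of `φ w` with that of `φ a` -/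
lemma comparison (ρ : F2 →* SpecialLinearGroup (Fin 2) ℝ) (hA : Adm (trTri ρ (ga, gb)))
    (hfin : ∀ R, {x : orb ga | cLen ρ x ≤ R}.Finite) {w : F2} (hw : w ∈ pants)
    (hper : ¬ ∃ m : ℤ, IsConj w (kom ^ m)) :
    ∃ n C : ℝ, 1 ≤ n ∧ 0 ≤ C ∧ ∀ φ : MulAut F2, φ ∈ MCG →
      |gLen ρ (φ w) - n * cLen ρ (cl (φ ga))| ≤ C := by
  obtain ⟨h, rfl⟩ := pants_range hw
  set τ := kap (trTri ρ (ga, gb)) + 2 with hτ
  have hτ2 : 2 ≤ τ := by have := hA.kpos; linarith
  have hh : ¬ ∃ m : ℤ, IsConj h (gb ^ m) := by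
    rintro ⟨m, hm⟩
    apply hper
    refine ⟨-m, ?_⟩
    have h1 : IsConj (Jm h) (Jm (gb ^ m)) := Jm.map_isConj hm
    refine h1.trans ?_
    have h2 : Jm (gb ^ m) = ga⁻¹ * kom ^ (-m) * ga := by
      have e : Jm gb = ga⁻¹ * kom⁻¹ * ga⁻¹⁻¹ := by simp only [Jm, mk2_b, kom]; group
      rw [map_zpow, e, conj_zpow]
      simp
    rw [h2, isConj_iff]
    exact ⟨ga, by group⟩
  obtain ⟨n, s0, C, hn, hgr⟩ := growth τ hτ2 h hh
  -- finitely many exceptions
  have hfin0 := hfin (2 * s0)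
  have hbdd : ∃ C0 : ℝ, ∀ x ∈ {x : orb ga | cLen ρ x ≤ 2 * s0},
      |slen τ h (cLen ρ x / 2) - n * cLen ρ x| ≤ C0 := by
    rcases Set.eq_empty_or_nonempty {x : orb ga | cLen ρ x ≤ 2 * s0} with he | hne
    · refine ⟨0, ?_⟩
      rw [he]; simp
    · obtain ⟨x0, _, hmax⟩ := Set.exists_max_image {x : orb ga | cLen ρ x ≤ 2 * s0}
        (fun x => |slen τ h (cLen ρ x / 2) - n * cLen ρ x|) hfin0 hne
      exact ⟨_, hmax⟩
  obtain ⟨C0, hC0⟩ := hbdd
  refine ⟨n, max |C| |C0|, hn, (abs_nonneg C).trans (le_max_left _ _), ?_⟩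
  intro φ hφ
  rw [gLen_std ρ hA hφ h]
  rcases le_or_gt (cLen ρ (cl (φ ga))) (2 * s0) with hle | hgt
  · have := hC0 ⟨cl (φ ga), φ, hφ, rfl⟩ hle
    exact this.trans ((le_abs_self _).trans (le_max_right _ _))
  · have := hgr (cLen ρ (cl (φ ga)) / 2) (by linarith)
    rw [mul_div_cancel₀ _ (two_ne_zero)] at this
    exact this.trans ((le_abs_self _).trans (le_max_left _ _))

lemma twA_pants {w : F2} (hw : w ∈ pants) : cl (twA w) = cl w := by
  have h := eq_on_pants (f := twA.toMonoidHom) (g := (MulAut.conj ga).toMonoidHom) (by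
    simp) (by
    simp only [MulEquiv.coe_toMonoidHom, map_mul, map_inv, twA_a, twA_b, MulAut.conj_apply]
    group) hw
  have h' : twA w = ga * w * ga⁻¹ := h
  rw [h', cl_conj]

lemma twA_pow_pants {w : F2} (hw : w ∈ pants) (k : ℕ) : cl (((twA : MulAut F2) ^ k) w) = cl w := by
  induction k with
  | zero => simp
  | succ k ih =>
    rw [pow_succ, MulAut.mul_apply]
    have := cl_map ((twA : MulAut F2) ^ k).toMonoidHom (twA_pants hw)
    exact this.trans ih

/-- effect of the twist on homology -/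
def Mh : Multiplicative (ℤ × ℤ) →* Multiplicative (ℤ × ℤ) :=
  AddMonoidHom.toMultiplicative
    { toFun := fun v => (v.1 + v.2, v.2)
      map_zero' := by simp
      map_add' := fun v w => by simp; ring }

lemma ab_twA (x : F2) : ab (twA x) = Mh (ab x) := by
  have : ab.comp twA.toMonoidHom = Mh.comp ab := by
    apply F2_hom_ext
    · simp [ab, Mh, AddMonoidHom.toMultiplicative]
    · simp [ab, Mh, AddMonoidHom.toMultiplicative]
      rw [← ofAdd_add]; simp
  exact DFunLike.congr_fun this x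

lemma ab_twA_pow (x : F2) (k : ℕ) : (ab (((twA : MulAut F2) ^ k) x)).toAdd =
    ((ab x).toAdd.1 + k * (ab x).toAdd.2, (ab x).toAdd.2) := by
  induction k with
  | zero => simp
  | succ k ih =>
    rw [pow_succ', MulAut.mul_apply, ab_twA]
    change ((ab (((twA : MulAut F2) ^ k) x)).toAdd.1 + (ab (((twA : MulAut F2) ^ k) x)).toAdd.2,
      (ab (((twA : MulAut F2) ^ k) x)).toAdd.2) = _
    rw [ih]
    ext
    · simp; ring
    · simp

end Pool.Agent.helper72.Sq
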